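import Mathlib

/-!
Project DP (MP_f60bb9_ag).  Definitions: grade, almost regular sequences, ideals of minors,
the module `Hom (I_B, I_A / I_B)` of a determinantal pair, depth and codepth over a local ring.
-/

namespace Pool.Helper49.DP

open RingTheory.Sequence

universe u v w

section General

variable {A : Type u} [CommRing A]

/-- There is a weakly `E`-regular sequence of length `g` in the ideal `J`. -/
def GradeGE (J : Ideal A) (E : Type v) [AddCommGroup E] [Module A E] (g : ℕ) : Prop :=
  ∃ rs : List A, rs.length = g ∧ (∀ r ∈ rs, r ∈ J) ∧ IsWeaklyRegular E rs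

/-- The sequence `rs` is regular on `E` up to powers of every `x j`
(it is weakly regular on each localization `E[1 / x j]`). -/
def AlmostReg {κ : Type w} (x : κ → A) (rs : List A) (E : Type v) [AddCommGroup E]
    [Module A E] : Prop :=
  ∀ (l₁ : List A) (r : A) (l₂ : List A), rs = l₁ ++ r :: l₂ → ∀ (z : E) (j : κ),
    r • z ∈ (Ideal.ofList l₁ • ⊤ : Submodule A E) →
      ∃ e : ℕ, x j ^ e • z ∈ (Ideal.ofList l₁ • ⊤ : Submodule A E)

/-- The ideal generated by the `s × s` minors of a matrix. -/
def minorIdeal {p q : ℕ} (s : ℕ) (X : Matrix (Fin p) (Fin q) A) : Ideal A :=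
  Ideal.span (Set.range fun fg : (Fin s → Fin p) × (Fin s → Fin q) =>
    (X.submatrix fg.1 fg.2).det)

/-- `I_A`: the ideal of `s × s` minors of the `t × (m + 1)` matrix `X`. -/
def idA {t m : ℕ} (s : ℕ) (X : Matrix (Fin t) (Fin (m + 1)) A) : Ideal A :=
  minorIdeal s X

/-- `I_B`: the ideal of `s × s` minors of the matrix `X` without its last column. -/
def idB {t m : ℕ} (s : ℕ) (X : Matrix (Fin t) (Fin (m + 1)) A) : Ideal A :=
  minorIdeal s (X.submatrix id Fin.castSucc)

/-- For ideals `J` and `I`: the module `I / (J ∩ I)` (which is `I / J` when `J ≤ I`). -/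
abbrev QuoMod (J I : Ideal A) : Type u :=
  (I : Submodule A A) ⧸ Submodule.submoduleOf J I

/-- The module `Hom_A (I_B, I_A / I_B)` of the determinantal pair given by `X`. -/
abbrev PairModule {t m : ℕ} (s : ℕ) (X : Matrix (Fin t) (Fin (m + 1)) A) : Type u :=
  (idB s X : Submodule A A) →ₗ[A] QuoMod (idB s X) (idA s X)

/-- The linear map `Q ^ a → Q ^ b` given by the `b × a` matrix `φ`. -/
def Lf {a b : ℕ} (φ : Matrix (Fin b) (Fin a) A) (Q : Type v) [AddCommGroup Q] [Module A Q] :
    (Fin a → Q) →ₗ[A] (Fin b → Q) where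
  toFun q j := ∑ i, φ j i • q i
  map_add' q q' := by
    funext j
    simp [smul_add, Finset.sum_add_distrib]
  map_smul' c q := by
    funext j
    simp only [Pi.smul_apply, RingHom.id_apply, Finset.smul_sum]
    exact Finset.sum_congr rfl fun i _ => smul_comm _ _ _

/-- The kernel of `Lf φ Q`. -/
abbrev Kf {a b : ℕ} (φ : Matrix (Fin b) (Fin a) A) (Q : Type v) [AddCommGroup Q]
    [Module A Q] : Submodule A (Fin a → Q) := LinearMap.ker (Lf φ Q)

/-- The cokernel of `Lf φ Q`. -/
abbrev Df {a b : ℕ} (φ : Matrix (Fin b) (Fin a) A) (Q : Type v) [AddCommGroup Q]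
    [Module A Q] : Type v := (Fin b → Q) ⧸ LinearMap.range (Lf φ Q)

end General

section Local

variable (A : Type u) [CommRing A] [IsLocalRing A] (E : Type v) [AddCommGroup E] [Module A E]

/-- The depth of `E` over the local ring `A` is `d`. -/
def DepthEq (d : ℕ) : Prop :=
  (∃ rs : List A, rs.length = d ∧ (∀ r ∈ rs, r ∈ IsLocalRing.maximalIdeal A) ∧
      IsRegular E rs) ∧
    ∀ rs : List A, (∀ r ∈ rs, r ∈ IsLocalRing.maximalIdeal A) → IsRegular E rs →
      rs.length ≤ d

/-- The codepth `dim E - depth E` of `E` over the local ring `A` is `e`. -/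
def CodepthEq (e : ℕ) : Prop :=
  ∃ d : ℕ, DepthEq A E d ∧ Module.supportDim A E = ((d + e : ℕ) : WithBot ℕ∞)

end Local

end Pool.Helper49.DP
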