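import Mathlib
import Pool.Agent.Helper49.DP.Defs

/-!
Project DP (MP_f60bb9_ag).  Block DP-7: presentations of ideals.

`IsPres φ g J`: the elements `g i` generate the ideal `J`, and the rows of the `b × a` matrix `φ`
generate the module of relations between them.

* `exists_isPres`: over a Noetherian ring every ideal has a presentation: finitely many
  generators, and the kernel of `A ^ a → A` is finitely generated (a submodule of the Noetherian
  module `Fin a → A`); take generators of it as the rows
  (`Submodule.fg_iff_exists_fin_generating_family`, `Submodule.mem_span_range_iff_exists_fun`).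
* `IsPres.hom_equiv`: `Hom (J, W) ≃ Kf φ W`, `f ↦ (f (g i))_i`: the image is in the kernel as
  `∑ i, φ j i • f (g i) = f (∑ i, φ j i * g i) = 0`; it is injective as the `g i` generate `J`; it
  is surjective: given `q` in `Kf φ W`, map `∑ i, c i * g i` to `∑ i, c i • q i`: well defined since
  a relation `c = ∑ j, d j * φ j` gives `∑ i, c i • q i = ∑ j, d j • ∑ i, φ j i • q i = 0`.
  (Construct it with the surjection `(Fin a → A) → J`, its kernel and
  `LinearMap.quotKerEquivOfSurjective` / `Submodule.liftQ`, or directly.)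
* `IsPres.map`: let `A → R` be surjective with kernel `ofList rs` and suppose that
  `J ⊓ ofList rs ≤ ofList rs * J`.  Then the images present the ideal `J R = J.map`.
  Generators: `Ideal.map_span`.  Relations: clear.  Completeness: let `∑ i, ρ i * ḡ i = 0` in `R`,
  `ρ i` the image of `c i`.  Then `∑ i, c i * g i` is in `J` and in the kernel `ofList rs`, so in
  `ofList rs * J`: `= ∑ i, h i * g i` with `h i ∈ ofList rs` (an element of
  `I * span (range g)` is `∑ i, h i * g i` with `h i ∈ I`: `Ideal.mem_mul_span_singleton`-style,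
  e.g. `Submodule.mem_ideal_smul_span_iff_exists_sum`).  So `c i - h i` is a relation over `A`,
  equal to `∑ j, d j * φ j i`, and applying the map to `R` kills `h i`.
-/

namespace Pool.Helper49.DP

universe u v

/-- `φ` and `g` present the ideal `J`. -/
structure IsPres {A : Type u} [CommRing A] {a b : ℕ} (φ : Matrix (Fin b) (Fin a) A)
    (g : Fin a → A) (J : Ideal A) : Prop where
  span_eq : Ideal.span (Set.range g) = J
  rel : ∀ j, ∑ i, φ j i * g i = 0
  complete : ∀ c : Fin a → A, ∑ i, c i * g i = 0 → ∃ d : Fin b → A, ∀ i, c i = ∑ j, d j * φ j i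

theorem IsPres.mem {A : Type u} [CommRing A] {a b : ℕ} {φ : Matrix (Fin b) (Fin a) A}
    {g : Fin a → A} {J : Ideal A} (h : IsPres φ g J) (i : Fin a) : g i ∈ J :=
  h.span_eq ▸ Ideal.subset_span ⟨i, rfl⟩

theorem exists_isPres {A : Type u} [CommRing A] [IsNoetherianRing A] (J : Ideal A) :
    ∃ (a b : ℕ) (φ : Matrix (Fin b) (Fin a) A) (g : Fin a → A), IsPres φ g J := by
  obtain ⟨a, g, hg⟩ := Submodule.fg_iff_exists_fin_generating_family.mp
    (IsNoetherian.noetherian (J : Submodule A A))
  obtain ⟨b, φ, hφ⟩ := Submodule.fg_iff_exists_fin_generating_family.mp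
    (IsNoetherian.noetherian (LinearMap.ker (Fintype.linearCombination A g)))
  refine ⟨a, b, φ, g, hg, ?_, ?_⟩
  · intro j
    have h1 : φ j ∈ LinearMap.ker (Fintype.linearCombination A g) := by
      rw [← hφ]
      exact Submodule.subset_span ⟨j, rfl⟩
    simpa [Fintype.linearCombination_apply] using h1
  · intro c hc
    have h1 : c ∈ Submodule.span A (Set.range φ) := by
      rw [hφ]
      simpa [Fintype.linearCombination_apply] using hc
    obtain ⟨d, hd⟩ := (Submodule.mem_span_range_iff_exists_fun A).mp h1
    refine ⟨d, fun i => ?_⟩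
    rw [← hd]
    simp [Finset.sum_apply]

/-- A relation between the generators kills every element of the kernel of `Lf φ W`. -/
private theorem kill67 {A : Type u} [CommRing A] {a b : ℕ} {φ : Matrix (Fin b) (Fin a) A}
    {g : Fin a → A} {J : Ideal A} (h : IsPres φ g J) {W : Type v} [AddCommGroup W] [Module A W]
    {q : Fin a → W} (hq : ∀ j, ∑ i, φ j i • q i = 0) {c : Fin a → A}
    (hc : ∑ i, c i * g i = 0) : ∑ i, c i • q i = 0 := by
  obtain ⟨d, hd⟩ := h.complete c hc
  calc ∑ i, c i • q i = ∑ i, ∑ j, d j • φ j i • q i := by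
        refine Finset.sum_congr rfl fun i _ => ?_
        rw [hd i, Finset.sum_smul]
        exact Finset.sum_congr rfl fun j _ => mul_smul _ _ _
    _ = ∑ j, d j • ∑ i, φ j i • q i := by
        rw [Finset.sum_comm]
        exact Finset.sum_congr rfl fun j _ => Finset.smul_sum.symm
    _ = 0 := Finset.sum_eq_zero fun j _ => by rw [hq j, smul_zero]

/-- Every element of the ideal is a combination of the generators. -/
private theorem comb67 {A : Type u} [CommRing A] {a b : ℕ} {φ : Matrix (Fin b) (Fin a) A}
    {g : Fin a → A} {J : Ideal A} (h : IsPres φ g J) {x : A} (hx : x ∈ J) :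
    ∃ c : Fin a → A, ∑ i, c i * g i = x := by
  rw [← h.span_eq] at hx
  obtain ⟨c, hc⟩ := (Submodule.mem_span_range_iff_exists_fun A).mp hx
  exact ⟨c, by simpa using hc⟩

theorem IsPres.hom_equiv {A : Type u} [CommRing A] {a b : ℕ} {φ : Matrix (Fin b) (Fin a) A}
    {g : Fin a → A} {J : Ideal A} (h : IsPres φ g J) (W : Type v) [AddCommGroup W] [Module A W] :
    ∃ e : ((J : Submodule A A) →ₗ[A] W) ≃ₗ[A] Kf φ W,
      ∀ (f : (J : Submodule A A) →ₗ[A] W) (i : Fin a), (e f).1 i = f ⟨g i, h.mem i⟩ := by
  classical
  have hval : ∀ (f : (J : Submodule A A) →ₗ[A] W) (c : Fin a → A) (x : (J : Submodule A A)),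
      ∑ i, c i * g i = x.1 → f x = ∑ i, c i • f ⟨g i, h.mem i⟩ := by
    intro f c x hx
    have h1 : x = ∑ i, c i • (⟨g i, h.mem i⟩ : (J : Submodule A A)) := by
      apply Subtype.ext
      rw [← hx]
      simp
    rw [h1, map_sum]
    exact Finset.sum_congr rfl fun i _ => map_smul f _ _
  let Φ : ((J : Submodule A A) →ₗ[A] W) →ₗ[A] Kf φ W :=
    { toFun := fun f => ⟨fun i => f ⟨g i, h.mem i⟩, by
        rw [LinearMap.mem_ker]
        funext j
        change ∑ i, φ j i • f ⟨g i, h.mem i⟩ = 0
        rw [← hval f (φ j) 0 (by simpa using h.rel j), map_zero]⟩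
      map_add' := fun f f' => rfl
      map_smul' := fun c f => rfl }
  have hinj : Function.Injective Φ := by
    rw [injective_iff_map_eq_zero]
    intro f hf
    have hf' : ∀ i, f ⟨g i, h.mem i⟩ = 0 := fun i => congrFun (congrArg Subtype.val hf) i
    ext x
    obtain ⟨c, hc⟩ := comb67 h x.2
    rw [hval f c x hc]
    simp [hf']
  have hsur : Function.Surjective Φ := by
    rintro ⟨q, hq⟩
    have hq' : ∀ j, ∑ i, φ j i • q i = 0 := fun j => congrFun (LinearMap.mem_ker.mp hq) j
    choose c hc using fun x : (J : Submodule A A) => comb67 h x.2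
    have hwd : ∀ (x : (J : Submodule A A)) (c' : Fin a → A), ∑ i, c' i * g i = x.1 →
        ∑ i, c x i • q i = ∑ i, c' i • q i := by
      intro x c' hc'
      have h1 : ∑ i, (c x i - c' i) • q i = 0 := by
        refine kill67 h hq' ?_
        simp only [sub_mul, Finset.sum_sub_distrib]
        rw [hc x, hc', sub_self]
      simp only [sub_smul, Finset.sum_sub_distrib] at h1
      exact sub_eq_zero.mp h1
    let f : (J : Submodule A A) →ₗ[A] W :=
      { toFun := fun x => ∑ i, c x i • q i
        map_add' := fun x y => by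
          rw [← Finset.sum_add_distrib, hwd (x + y) (fun i => c x i + c y i) ?_]
          · exact Finset.sum_congr rfl fun i _ => add_smul _ _ _
          · simp only [add_mul, Finset.sum_add_distrib]
            rw [hc x, hc y]
            rfl
        map_smul' := fun r x => by
          rw [hwd (r • x) (fun i => r * c x i) ?_]
          · simp only [mul_smul, RingHom.id_apply, Finset.smul_sum]
          · simp only [mul_assoc]
            rw [← Finset.mul_sum, hc x]
            rfl }
    refine ⟨f, ?_⟩
    apply Subtype.ext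
    funext i
    change ∑ k, c ⟨g i, h.mem i⟩ k • q k = q i
    rw [hwd ⟨g i, h.mem i⟩ (Pi.single i 1) ?_]
    · rw [Finset.sum_eq_single i]
      · simp
      · intro k _ hk
        simp [Pi.single_eq_of_ne hk]
      · intro hi
        exact absurd (Finset.mem_univ i) hi
    · rw [Finset.sum_eq_single i]
      · simp
      · intro k _ hk
        simp [Pi.single_eq_of_ne hk]
      · intro hi
        exact absurd (Finset.mem_univ i) hi
  exact ⟨LinearEquiv.ofBijective Φ ⟨hinj, hsur⟩, fun f i => rfl⟩

theorem IsPres.map {A : Type u} [CommRing A] {R : Type u} [CommRing R] [Algebra A R] {a b : ℕ}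
    {φ : Matrix (Fin b) (Fin a) A} {g : Fin a → A} {J : Ideal A} (h : IsPres φ g J)
    {rs : List A} (hsurj : Function.Surjective (algebraMap A R))
    (hker : RingHom.ker (algebraMap A R) = Ideal.ofList rs)
    (hJ : J ⊓ Ideal.ofList rs ≤ Ideal.ofList rs * J) :
    IsPres (φ.map (algebraMap A R)) (fun i => algebraMap A R (g i))
      (J.map (algebraMap A R)) := by
  classical
  refine ⟨?_, ?_, ?_⟩
  · rw [← h.span_eq, Ideal.map_span]
    congr 1
    ext y
    constructor
    · rintro ⟨i, rfl⟩
      exact ⟨g i, ⟨i, rfl⟩, rfl⟩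
    · rintro ⟨_, ⟨i, rfl⟩, rfl⟩
      exact ⟨i, rfl⟩
  · intro j
    have h1 := congrArg (algebraMap A R) (h.rel j)
    rw [map_sum, map_zero] at h1
    simpa [map_mul] using h1
  · intro ρ hρ
    choose c hc using fun i => hsurj (ρ i)
    have hxJ : ∑ i, c i * g i ∈ J :=
      Ideal.sum_mem _ fun i _ => J.mul_mem_left _ (h.mem i)
    have hxk : ∑ i, c i * g i ∈ Ideal.ofList rs := by
      rw [← hker, RingHom.mem_ker, map_sum, ← hρ]
      exact Finset.sum_congr rfl fun i _ => by rw [map_mul, hc i]
    have hxm : ∑ i, c i * g i ∈ Ideal.ofList rs • Submodule.span A (Set.range g) := by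
      have h1 := hJ ⟨hxJ, hxk⟩
      rw [← h.span_eq] at h1
      exact h1
    rw [Submodule.mem_ideal_smul_span_iff_exists_sum] at hxm
    obtain ⟨t, ht, hts⟩ := hxm
    rw [Finsupp.sum_fintype _ _ (fun i => by simp)] at hts
    have hrel : ∑ i, (c i - t i) * g i = 0 := by
      simp only [sub_mul, Finset.sum_sub_distrib]
      rw [← hts]
      simp
    obtain ⟨d, hd⟩ := h.complete _ hrel
    refine ⟨fun j => algebraMap A R (d j), fun i => ?_⟩
    have h0 : algebraMap A R (t i) = 0 := by
      rw [← RingHom.mem_ker, hker]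
      exact ht i
    have h1 := congrArg (algebraMap A R) (hd i)
    rw [map_sub, h0, sub_zero, hc i, map_sum] at h1
    rw [h1]
    exact Finset.sum_congr rfl fun j _ => by rw [map_mul, Matrix.map_apply]

end Pool.Helper49.DP
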