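import Mathlib
import Pool.Agent.Helper49.DP.Defs
import Pool.Agent.Helper49.DP.Pres

/-!
Project DP (MP_f60bb9_ag).  Block DP-21: flat base change.  `B` is a flat `A`-algebra.

* `IsPres.flat`: a presentation of `J` over `A` gives one of `J B` over `B`.  Completeness: a relation
  `∑ i, ρ i * ḡ i = 0` in `B` is a relation `∑ i, g i • ρ i = 0` in the flat module `B`; by the
  equational criterion (`Module.Flat.isTrivialRelation_of_sum_smul_eq_zero` or
  `Module.Flat.iff_forall_isTrivialRelation`) `ρ i = ∑ j, c i j • y j` with `∑ i, g i * c i j = 0` for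
  each `j`; the columns `c · j` are relations over `A`, so combinations of the rows of `φ`.
* `weaklyRegular_quot`: `B ⊗[A] (A ⧸ I) ≃ₗ[B] B ⧸ I B`.
* `weaklyRegular_Df`: there is a `B`-linear equivalence
  `B ⊗[A] Df φ (QuoMod J I) ≃ Df (φ.map (algebraMap A B)) (QuoMod (J B) (I B))`:
  (i) `B ⊗ I ≃ I B` for an ideal `I` (flatness: `B ⊗ I → B ⊗ A = B` is injective with image `I B`), and
  compatibly for `J ≤ I`, so `B ⊗ (I / J) ≃ I B / J B` (right exactness);
  (ii) `B ⊗ (Fin b → Q) ≃ Fin b → B ⊗ Q` (`TensorProduct.piScalarRight`-like, or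
  `TensorProduct.piRight`), and the cokernel commutes with the tensor product
  (`lTensor_exact`, `LinearMap.quotKerEquivOfSurjective`).
-/

namespace Pool.Helper49.DP

open RingTheory.Sequence TensorProduct

universe u

variable {A B : Type u} [CommRing A] [CommRing B] [Algebra A B]

theorem IsPres.flat [Module.Flat A B] {a b : ℕ} {φ : Matrix (Fin b) (Fin a) A} {g : Fin a → A}
    {J : Ideal A} (h : IsPres φ g J) :
    IsPres (φ.map (algebraMap A B)) (fun i => algebraMap A B (g i))
      (J.map (algebraMap A B)) := by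
  refine ⟨?_, ?_, ?_⟩
  · rw [← h.span_eq, Ideal.map_span]
    congr 1
    ext y
    constructor
    · rintro ⟨i, rfl⟩
      exact ⟨g i, ⟨i, rfl⟩, rfl⟩
    · rintro ⟨_, ⟨i, rfl⟩, rfl⟩
      exact ⟨i, rfl⟩
  · intro j
    have h1 := congrArg (algebraMap A B) (h.rel j)
    rw [map_sum, map_zero] at h1
    simpa [map_mul] using h1
  · intro c hc
    have hc' : ∑ i, g i • c i = 0 := by
      rw [← hc]
      exact Finset.sum_congr rfl fun i _ => by rw [Algebra.smul_def, mul_comm]
    obtain ⟨k, α, y, hy, hα⟩ := Module.Flat.isTrivialRelation_of_sum_smul_eq_zero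
      (R := A) (M := B) (f := g) (x := c) hc'
    have hα' : ∀ j, ∑ i, α i j * g i = 0 := fun j => by
      rw [← hα j]
      exact Finset.sum_congr rfl fun i _ => mul_comm _ _
    choose d hd using fun j => h.complete (fun i => α i j) (hα' j)
    refine ⟨fun l => ∑ j, algebraMap A B (d j l) * y j, fun i => ?_⟩
    rw [hy i]
    simp only [Algebra.smul_def, Finset.sum_mul, Matrix.map_apply]
    rw [Finset.sum_comm]
    refine Finset.sum_congr rfl fun j _ => ?_
    rw [hd j i, map_sum, Finset.sum_mul]
    refine Finset.sum_congr rfl fun l _ => ?_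
    rw [map_mul]
    ring

theorem weaklyRegular_quot (rs : List B)
    (h : ∀ (E : Type u) [AddCommGroup E] [Module A E], IsWeaklyRegular (B ⊗[A] E) rs)
    (I : Ideal A) : IsWeaklyRegular (B ⧸ I.map (algebraMap A B)) rs :=
  ((Algebra.TensorProduct.quotIdealMapEquivTensorQuot B I).toLinearEquiv.isWeaklyRegular_congr
    rs).2 (h (A ⧸ I))

/-- Two surjections with the same kernel. -/
private theorem exists_equiv_h54 {R : Type*} [CommRing R] {M N P : Type*} [AddCommGroup M]
    [AddCommGroup N] [AddCommGroup P] [Module R M] [Module R N] [Module R P] (f : M →ₗ[R] N)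
    (g : M →ₗ[R] P) (hf : Function.Surjective f) (hg : Function.Surjective g)
    (hfg : LinearMap.ker f = LinearMap.ker g) : ∃ e : N ≃ₗ[R] P, ∀ m, e (f m) = g m := by
  refine ⟨(f.quotKerEquivOfSurjective hf).symm.trans
    ((Submodule.quotEquivOfEq _ _ hfg).trans (g.quotKerEquivOfSurjective hg)), fun m => ?_⟩
  have h1 : (f.quotKerEquivOfSurjective hf).symm (f m) = Submodule.Quotient.mk m := by
    rw [LinearEquiv.symm_apply_eq]
    rfl
  rw [LinearEquiv.trans_apply, h1]
  rfl

/-- The multiplication `B ⊗ I → B`. -/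
private noncomputable def mulMap_h54 (B : Type u) [CommRing B] [Algebra A B] (I : Ideal A) :
    B ⊗[A] (I : Submodule A A) →ₗ[B] B :=
  (AlgebraTensorModule.rid A B B).toLinearMap ∘ₗ
    LinearMap.baseChange B (Submodule.subtype (I : Submodule A A))

private theorem mulMap_tmul_h54 (I : Ideal A) (β : B) (x : (I : Submodule A A)) :
    mulMap_h54 B I (β ⊗ₜ x) = algebraMap A B x.1 * β := by
  change (AlgebraTensorModule.rid A B B) (β ⊗ₜ x.1) = _
  rw [AlgebraTensorModule.rid_tmul, Algebra.smul_def]

private theorem mulMap_injective_h54 [Module.Flat A B] (I : Ideal A) :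
    Function.Injective (mulMap_h54 B I) := by
  refine (AlgebraTensorModule.rid A B B).injective.comp ?_
  exact Module.Flat.lTensor_preserves_injective_linearMap (M := B)
    (Submodule.subtype (I : Submodule A A)) Subtype.val_injective

private theorem mulMap_mem_h54 (I : Ideal A) (w : B ⊗[A] (I : Submodule A A)) :
    mulMap_h54 B I w ∈ I.map (algebraMap A B) := by
  induction w using TensorProduct.induction_on with
  | zero => rw [map_zero]; exact Submodule.zero_mem _
  | tmul β x =>
    rw [mulMap_tmul_h54]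
    exact Ideal.mul_mem_right _ _ (Ideal.mem_map_of_mem _ x.2)
  | add a b ha hb => rw [map_add]; exact Submodule.add_mem _ ha hb

private theorem exists_mulMap_h54 (I : Ideal A) {y : B} (hy : y ∈ I.map (algebraMap A B)) :
    ∃ w, mulMap_h54 B I w = y := by
  have h : I.map (algebraMap A B) ≤ LinearMap.range (mulMap_h54 B I) := by
    refine Ideal.map_le_iff_le_comap.2 fun x hx => ?_
    refine ⟨1 ⊗ₜ ⟨x, hx⟩, ?_⟩
    rw [mulMap_tmul_h54, mul_one]
  exact h hy

/-- `B ⊗ (I / J) ≃ I B / J B`. -/
private theorem exists_quoEquiv_h54 [Module.Flat A B] {J I : Ideal A} (hJI : J ≤ I) :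
    Nonempty ((B ⊗[A] QuoMod J I) ≃ₗ[B]
      QuoMod (J.map (algebraMap A B)) (I.map (algebraMap A B))) := by
  let f : B ⊗[A] (I : Submodule A A) →ₗ[B] B ⊗[A] QuoMod J I :=
    LinearMap.baseChange B (Submodule.mkQ (Submodule.submoduleOf J I))
  have hf : Function.Surjective f :=
    LinearMap.baseChange_surjective B (Submodule.mkQ_surjective _)
  let g0 : B ⊗[A] (I : Submodule A A) →ₗ[B] (I.map (algebraMap A B) : Submodule B B) :=
    (mulMap_h54 B I).codRestrict _ (mulMap_mem_h54 I)
  have hg0 : Function.Surjective g0 := by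
    rintro ⟨y, hy⟩
    obtain ⟨w, hw⟩ := exists_mulMap_h54 I hy
    exact ⟨w, Subtype.ext hw⟩
  let g : B ⊗[A] (I : Submodule A A) →ₗ[B]
      QuoMod (J.map (algebraMap A B)) (I.map (algebraMap A B)) :=
    (Submodule.mkQ (Submodule.submoduleOf (J.map (algebraMap A B))
      (I.map (algebraMap A B)))) ∘ₗ g0
  have hg : Function.Surjective g := (Submodule.mkQ_surjective _).comp hg0
  have hker : LinearMap.ker f = LinearMap.ker g := by
    ext w
    have h1 : w ∈ LinearMap.ker f ↔
        ∃ v, LinearMap.lTensor B (Submodule.subtype (Submodule.submoduleOf J I)) v = w := by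
      have h2 := lTensor_mkQ B (Submodule.submoduleOf J I)
      have h3 : w ∈ LinearMap.ker (LinearMap.lTensor B
          (Submodule.mkQ (Submodule.submoduleOf J I))) ↔
        w ∈ LinearMap.range (LinearMap.lTensor B
          (Submodule.subtype (Submodule.submoduleOf J I))) := by rw [h2]
      exact h3
    have h4 : w ∈ LinearMap.ker g ↔ mulMap_h54 B I w ∈ J.map (algebraMap A B) := by
      rw [LinearMap.mem_ker]
      change Submodule.Quotient.mk (g0 w) = 0 ↔ _
      rw [Submodule.Quotient.mk_eq_zero]
      rfl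
    rw [h1, h4]
    constructor
    · clear h1 h4
      rintro ⟨v, rfl⟩
      induction v using TensorProduct.induction_on with
      | zero => rw [map_zero, map_zero]; exact Submodule.zero_mem _
      | tmul β x =>
        rw [LinearMap.lTensor_tmul, mulMap_tmul_h54]
        exact Ideal.mul_mem_right _ _ (Ideal.mem_map_of_mem _ x.2)
      | add a b ha hb => rw [map_add, map_add]; exact Submodule.add_mem _ ha hb
    · intro hw
      obtain ⟨v, hv⟩ := exists_mulMap_h54 J hw
      let ι : (J : Submodule A A) →ₗ[A] (Submodule.submoduleOf J I) :=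
        { toFun := fun x => ⟨⟨x.1, hJI x.2⟩, x.2⟩
          map_add' := fun _ _ => rfl
          map_smul' := fun _ _ => rfl }
      refine ⟨LinearMap.lTensor B ι v, mulMap_injective_h54 I ?_⟩
      rw [← hv]
      clear hv hw h1 h4
      induction v using TensorProduct.induction_on with
      | zero => simp only [map_zero]
      | tmul β x =>
        rw [LinearMap.lTensor_tmul, LinearMap.lTensor_tmul, mulMap_tmul_h54, mulMap_tmul_h54]
        rfl
      | add a b ha hb => rw [map_add, map_add, map_add, map_add, ha, hb]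
  obtain ⟨e, -⟩ := exists_equiv_h54 f g hf hg hker
  exact ⟨e⟩

theorem weaklyRegular_Df [Module.Flat A B] (rs : List B)
    (h : ∀ (E : Type u) [AddCommGroup E] [Module A E], IsWeaklyRegular (B ⊗[A] E) rs)
    {J I : Ideal A} (hJI : J ≤ I) {a b : ℕ} (φ : Matrix (Fin b) (Fin a) A) :
    IsWeaklyRegular (Df (φ.map (algebraMap A B))
      (QuoMod (J.map (algebraMap A B)) (I.map (algebraMap A B)))) rs := by
  obtain ⟨eQ⟩ := exists_quoEquiv_h54 (B := B) hJI
  let E : ∀ n : ℕ, (B ⊗[A] (Fin n → QuoMod J I)) ≃ₗ[B]
      (Fin n → QuoMod (J.map (algebraMap A B)) (I.map (algebraMap A B))) := fun n =>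
    (TensorProduct.piRight A B B (fun _ : Fin n => QuoMod J I)).trans
      (LinearEquiv.piCongrRight fun _ => eQ)
  have hE : ∀ (n : ℕ) (β : B) (q : Fin n → QuoMod J I) (j : Fin n),
      E n (β ⊗ₜ q) j = eQ (β ⊗ₜ q j) := fun n β q j => rfl
  have hnat : ∀ w : B ⊗[A] (Fin a → QuoMod J I),
      E b (LinearMap.baseChange B (Lf φ (QuoMod J I)) w) =
        Lf (φ.map (algebraMap A B)) (QuoMod (J.map (algebraMap A B))
          (I.map (algebraMap A B))) (E a w) := by
    intro w
    induction w using TensorProduct.induction_on with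
    | zero => simp only [map_zero]
    | tmul β q =>
      funext j
      rw [LinearMap.baseChange_tmul, hE]
      change eQ (β ⊗ₜ ∑ i, φ j i • q i) = ∑ i, (algebraMap A B (φ j i)) • E a (β ⊗ₜ q) i
      rw [TensorProduct.tmul_sum, map_sum]
      refine Finset.sum_congr rfl fun i _ => ?_
      rw [hE, ← map_smul, TensorProduct.tmul_smul, algebraMap_smul]
    | add x y hx hy => rw [map_add, map_add, map_add, map_add, hx, hy]
  let f : (B ⊗[A] (Fin b → QuoMod J I)) →ₗ[B] B ⊗[A] Df φ (QuoMod J I) :=
    LinearMap.baseChange B (Submodule.mkQ (LinearMap.range (Lf φ (QuoMod J I))))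
  have hf : Function.Surjective f :=
    LinearMap.baseChange_surjective B (Submodule.mkQ_surjective _)
  let g : (B ⊗[A] (Fin b → QuoMod J I)) →ₗ[B] Df (φ.map (algebraMap A B))
      (QuoMod (J.map (algebraMap A B)) (I.map (algebraMap A B))) :=
    Submodule.mkQ (LinearMap.range (Lf (φ.map (algebraMap A B))
      (QuoMod (J.map (algebraMap A B)) (I.map (algebraMap A B))))) ∘ₗ (E b).toLinearMap
  have hg : Function.Surjective g := (Submodule.mkQ_surjective _).comp (E b).surjective
  have hker : LinearMap.ker f = LinearMap.ker g := by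
    ext w
    have h1 : w ∈ LinearMap.ker f ↔
        ∃ v, LinearMap.baseChange B (Lf φ (QuoMod J I)) v = w :=
      lTensor_exact B (LinearMap.exact_map_mkQ_range (Lf φ (QuoMod J I)))
        (Submodule.mkQ_surjective _) w
    have h2 : w ∈ LinearMap.ker g ↔ ∃ v, Lf (φ.map (algebraMap A B))
        (QuoMod (J.map (algebraMap A B)) (I.map (algebraMap A B))) v = E b w := by
      rw [LinearMap.mem_ker]
      change Submodule.Quotient.mk (E b w) = 0 ↔ _
      rw [Submodule.Quotient.mk_eq_zero, LinearMap.mem_range]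
    rw [h1, h2]
    constructor
    · rintro ⟨v, rfl⟩
      exact ⟨E a v, (hnat v).symm⟩
    · rintro ⟨v, hv⟩
      refine ⟨(E a).symm v, (E b).injective ?_⟩
      rw [hnat, LinearEquiv.apply_symm_apply, hv]
  obtain ⟨e, -⟩ := exists_equiv_h54 f g hf hg hker
  exact (e.isWeaklyRegular_congr rs).1 (h _)

end Pool.Helper49.DP
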