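import Mathlib
import Pool.Agent.Helper49.DP.Defs

/-!
Project DP (MP_f60bb9_ag).  Definitions: the polynomial rings localised at the origin, the
generic matrix and the homogeneous matrices with given entry degrees.
-/

namespace Pool.Helper49.DP

open MvPolynomial

universe u

/-- The ideal of the polynomials with constant term `0`. -/
noncomputable def irr (σ : Type) (k : Type u) [Field k] : Ideal (MvPolynomial σ k) :=
  RingHom.ker (constantCoeff : MvPolynomial σ k →+* k)

instance (σ : Type) (k : Type u) [Field k] : (irr σ k).IsPrime :=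
  RingHom.ker_isPrime _

/-- The polynomial ring over `k` in the variables `σ`, localised at the origin. -/
abbrev Loc (σ : Type) (k : Type u) [Field k] : Type u := Localization.AtPrime (irr σ k)

/-- The exponents of degree `d` in `n` variables. -/
abbrev Expo (n d : ℕ) : Type := {μ : Fin n →₀ ℕ // μ.degree = d}

instance (n d : ℕ) : Finite (Expo n d) := by
  have : Set.Finite {μ : Fin n →₀ ℕ | μ.degree = d} := by
    refine Set.Finite.subset (Set.finite_Iic (Finsupp.equivFunOnFinite.symm fun _ : Fin n => d)) ?_
    intro μ hμ i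
    simp only [Set.mem_setOf_eq] at hμ
    simp only [Finsupp.equivFunOnFinite_symm_apply_apply]
    rw [← hμ]
    exact Finsupp.le_degree i μ
  exact this.to_subtype

noncomputable instance (n d : ℕ) : Fintype (Expo n d) := Fintype.ofFinite _

/-- The coefficients of a `t × (m + 1)` matrix of forms in `n` variables, the entry `(i, j)` of
degree `dg i j`. -/
abbrev Coef {t m : ℕ} (n : ℕ) (dg : Fin t → Fin (m + 1) → ℕ) : Type :=
  Σ p : Fin t × Fin (m + 1), Expo n (dg p.1 p.2)

/-- The form with index `p` with the coefficients `α`. -/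
noncomputable def form {t m n : ℕ} {dg : Fin t → Fin (m + 1) → ℕ} {k : Type u} [Field k]
    (α : Coef n dg → k) (p : Fin t × Fin (m + 1)) : MvPolynomial (Fin n) k :=
  ∑ μ : Expo n (dg p.1 p.2), monomial μ.1 (α ⟨p, μ⟩)

/-- The matrix of forms with the coefficients `α`, over the polynomial ring in `n` variables
localised at the origin. -/
noncomputable def formMatrix {t m n : ℕ} {dg : Fin t → Fin (m + 1) → ℕ} {k : Type u} [Field k]
    (α : Coef n dg → k) : Matrix (Fin t) (Fin (m + 1)) (Loc (Fin n) k) :=
  fun i j => algebraMap (MvPolynomial (Fin n) k) (Loc (Fin n) k) (form α (i, j))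

/-- The generic `t × (m + 1)` matrix, over the polynomial ring in its entries and `n` further
variables, localised at the origin. -/
noncomputable def genMatrix (t m n : ℕ) (k : Type u) [Field k] :
    Matrix (Fin t) (Fin (m + 1)) (Loc ((Fin t × Fin (m + 1)) ⊕ Fin n) k) :=
  fun i j => algebraMap (MvPolynomial ((Fin t × Fin (m + 1)) ⊕ Fin n) k) _ (X (Sum.inl (i, j)))

/-- The further variables. -/
noncomputable def extra (t m n : ℕ) (k : Type u) [Field k] (j : Fin n) :
    Loc ((Fin t × Fin (m + 1)) ⊕ Fin n) k :=
  algebraMap (MvPolynomial ((Fin t × Fin (m + 1)) ⊕ Fin n) k) _ (X (Sum.inr j))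

/-- The polynomial `X_p - form α p`. -/
noncomputable def thetaPoly {t m n : ℕ} {dg : Fin t → Fin (m + 1) → ℕ} {k : Type u} [Field k]
    (α : Coef n dg → k) (p : Fin t × Fin (m + 1)) :
    MvPolynomial ((Fin t × Fin (m + 1)) ⊕ Fin n) k :=
  X (Sum.inl p) - rename Sum.inr (form α p)

/-- The list of all index pairs. -/
noncomputable def pairs (t m : ℕ) : List (Fin t × Fin (m + 1)) :=
  (Finset.univ : Finset (Fin t × Fin (m + 1))).toList

theorem pairs_nodup (t m : ℕ) : (pairs t m).Nodup := Finset.nodup_toList _

theorem mem_pairs {t m : ℕ} (p : Fin t × Fin (m + 1)) : p ∈ pairs t m := by simp [pairs]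

theorem pairs_length (t m : ℕ) : (pairs t m).length = t * (m + 1) := by
  simp [pairs]

/-- The list of the elements `X_p - form α p` in the local ring. -/
noncomputable def theta {t m n : ℕ} {dg : Fin t → Fin (m + 1) → ℕ} {k : Type u} [Field k]
    (α : Coef n dg → k) : List (Loc ((Fin t × Fin (m + 1)) ⊕ Fin n) k) :=
  (pairs t m).map fun p =>
    algebraMap (MvPolynomial ((Fin t × Fin (m + 1)) ⊕ Fin n) k) _ (thetaPoly α p)

theorem theta_length {t m n : ℕ} {dg : Fin t → Fin (m + 1) → ℕ} {k : Type u} [Field k]
    (α : Coef n dg → k) : (theta α).length = t * (m + 1) := by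
  rw [theta, List.length_map, pairs_length]

end Pool.Helper49.DP
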