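import Mathlib
import Pool.Agent.Helper49.DP.Defs

/-!
Project DP (MP_f60bb9_ag).  Block DP-15: distinct variables form a weakly regular sequence on
`MvPolynomial σ B ⊗[B] U` for every `B`-module `U`.

Proof.  `MvPolynomial σ B` is free over `B` on the monomials, so
`MvPolynomial σ B ⊗[B] U ≃ (σ →₀ ℕ) →₀ U` (`TensorProduct.equivFinsuppOfBasisLeft` with
`MvPolynomial.basisMonomials`, or build the coefficient maps `coeff μ ⊗ id : _ → U` and show that
they are jointly injective and that every element is `∑ μ, monomial μ 1 ⊗ u_μ`).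
Multiplication by `X i` shifts the coefficients: the coefficient of `X i • w` at `μ + single i 1` is
that of `w` at `μ`, and at `μ` with `μ i = 0` it is zero.
Claim: for a list `l` of distinct variables, `w ∈ (ofList (l.map X)) • ⊤` iff the coefficients
of `w` at all `μ` with `μ i = 0` for every `i ∈ l` vanish.  (→: `Submodule.smul_induction_on`,
the condition is closed under addition and holds for `X i • w`.  ←: split `w` into its monomial
parts; a part `monomial μ 1 ⊗ u` with `μ i ≠ 0`, `i ∈ l`, is `X i • (monomial (μ - single i 1) 1 ⊗ u)`.)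
Now let `l₁ ++ i :: l₂` be the list, `X i • w ∈ (ofList (l₁.map X)) • ⊤`.  For `μ` with `μ j = 0` for
`j ∈ l₁`: `μ + single i 1` also vanishes on `l₁` (`i ∉ l₁`), so the coefficient of `X i • w` at
`μ + single i 1`, i.e. that of `w` at `μ`, is zero.  So `w ∈ (ofList (l₁.map X)) • ⊤`.
-/

namespace Pool.Helper49.DP

open RingTheory.Sequence TensorProduct

universe u v w

section Var

variable {B : Type u} [CommRing B] {σ : Type w} {U : Type v} [AddCommGroup U] [Module B U]

open Classical in
/-- elements of `MvPolynomial σ B ⊗[B] U` as families of coefficients -/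
private noncomputable def eqv (B : Type u) [CommRing B] (σ : Type w) (U : Type v) [AddCommGroup U]
    [Module B U] : MvPolynomial σ B ⊗[B] U ≃ₗ[B] (σ →₀ ℕ) →₀ U :=
  TensorProduct.equivFinsuppOfBasisLeft (MvPolynomial.basisMonomials σ B)

/-- the coefficient of an element of `MvPolynomial σ B ⊗[B] U` at the monomial `μ` -/
private noncomputable def cf (μ : σ →₀ ℕ) (w : MvPolynomial σ B ⊗[B] U) : U :=
  eqv B σ U w μ

private theorem cf_zero (μ : σ →₀ ℕ) : cf μ (0 : MvPolynomial σ B ⊗[B] U) = 0 := by
  simp [cf]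

private theorem cf_add (μ : σ →₀ ℕ) (w w' : MvPolynomial σ B ⊗[B] U) :
    cf μ (w + w') = cf μ w + cf μ w' := by
  simp [cf]

private theorem cf_tmul (μ : σ →₀ ℕ) (p : MvPolynomial σ B) (u : U) :
    cf μ (p ⊗ₜ[B] u) = MvPolynomial.coeff μ p • u := by
  classical
  rw [cf, eqv, TensorProduct.equivFinsuppOfBasisLeft_apply_tmul_apply]
  rfl

private theorem X_smul_tmul (i : σ) (p : MvPolynomial σ B) (u : U) :
    (MvPolynomial.X i : MvPolynomial σ B) • (p ⊗ₜ[B] u) = (MvPolynomial.X i * p) ⊗ₜ[B] u := by
  rw [TensorProduct.smul_tmul', smul_eq_mul]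

private theorem cf_X_smul (i : σ) (μ : σ →₀ ℕ) (w : MvPolynomial σ B ⊗[B] U) :
    cf (Finsupp.single i 1 + μ) ((MvPolynomial.X i : MvPolynomial σ B) • w) = cf μ w := by
  induction w with
  | zero => simp [cf_zero]
  | add x y hx hy => rw [smul_add, cf_add, cf_add, hx, hy]
  | tmul p u => rw [X_smul_tmul, cf_tmul, cf_tmul, MvPolynomial.coeff_X_mul]

private theorem cf_X_smul_zero (i : σ) (μ : σ →₀ ℕ) (h : μ i = 0) (w : MvPolynomial σ B ⊗[B] U) :
    cf μ ((MvPolynomial.X i : MvPolynomial σ B) • w) = 0 := by
  classical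
  induction w with
  | zero => simp [cf_zero]
  | add x y hx hy => rw [smul_add, cf_add, hx, hy, add_zero]
  | tmul p u =>
    rw [X_smul_tmul, cf_tmul, MvPolynomial.coeff_X_mul', if_neg (by simp [h]), zero_smul]

private theorem mem_iff (l : List σ) (w : MvPolynomial σ B ⊗[B] U) :
    w ∈ (Ideal.ofList (l.map (MvPolynomial.X : σ → MvPolynomial σ B)) • ⊤ :
      Submodule (MvPolynomial σ B) (MvPolynomial σ B ⊗[B] U)) ↔
      ∀ μ : σ →₀ ℕ, (∀ i ∈ l, μ i = 0) → cf μ w = 0 := by
  classical
  constructor
  · intro hw μ hμ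
    refine Submodule.smul_induction_on (p := fun w => cf μ w = 0) hw ?_ ?_
    · intro r hr n _
      have key : ∀ n : MvPolynomial σ B ⊗[B] U, cf μ (r • n) = 0 := by
        refine Submodule.span_induction (p := fun r _ => ∀ n : MvPolynomial σ B ⊗[B] U,
          cf μ (r • n) = 0) ?_ ?_ ?_ ?_ hr
        · intro x hx n
          obtain ⟨i, hi, rfl⟩ := List.mem_map.mp hx
          exact cf_X_smul_zero i μ (hμ i hi) n
        · intro n
          rw [zero_smul, cf_zero]
        · intro x y _ _ hx hy n
          rw [add_smul, cf_add, hx, hy, add_zero]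
        · intro a x _ hx n
          rw [smul_eq_mul, mul_comm, mul_smul]
          exact hx (a • n)
      exact key n
    · intro x y hx hy
      rw [cf_add, hx, hy, add_zero]
  · intro h
    have hw : w = (eqv B σ U w).sum fun μ u => (MvPolynomial.basisMonomials σ B) μ ⊗ₜ[B] u := by
      conv_lhs => rw [← (eqv B σ U).symm_apply_apply w]
      rw [eqv, TensorProduct.equivFinsuppOfBasisLeft_symm_apply]
    rw [hw]
    refine Submodule.sum_mem _ fun μ hμ => ?_
    have hne : cf μ w ≠ 0 := by
      simpa [cf] using hμ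
    have hex : ∃ i ∈ l, μ i ≠ 0 := by
      by_contra hcon
      push Not at hcon
      exact hne (h μ hcon)
    obtain ⟨i, hi, hμi⟩ := hex
    have hle : Finsupp.single i 1 ≤ μ := by
      rw [Finsupp.single_le_iff]
      omega
    have hmon : (MvPolynomial.basisMonomials σ B) μ =
        MvPolynomial.X i * MvPolynomial.monomial (μ - Finsupp.single i 1) (1 : B) := by
      rw [MvPolynomial.coe_basisMonomials, MvPolynomial.X, MvPolynomial.monomial_mul, one_mul,
        add_tsub_cancel_of_le hle]
    dsimp only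
    rw [hmon, ← X_smul_tmul]
    refine Submodule.smul_mem_smul (Ideal.subset_span ?_) Submodule.mem_top
    exact List.mem_map.mpr ⟨i, hi, rfl⟩

end Var

theorem isWeaklyRegular_X {B : Type u} [CommRing B] {σ : Type w} (U : Type v) [AddCommGroup U]
    [Module B U] (l : List σ) (hl : l.Nodup) :
    IsWeaklyRegular (MvPolynomial σ B ⊗[B] U) (l.map (MvPolynomial.X : σ → MvPolynomial σ B)) := by
  induction l using List.reverseRecOn with
  | nil => exact IsWeaklyRegular.nil _ _
  | append_singleton l i ih =>
    rw [List.nodup_append] at hl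
    obtain ⟨hl1, -, hdis⟩ := hl
    have hi : i ∉ l := fun h => hdis i h i (List.mem_singleton_self i) rfl
    rw [List.map_append, isWeaklyRegular_append_iff]
    refine ⟨ih hl1, ?_⟩
    rw [List.map_singleton, isWeaklyRegular_singleton_iff,
      isSMulRegular_quotient_iff_mem_of_smul_mem]
    intro w hw
    rw [mem_iff] at hw ⊢
    intro μ hμ
    rw [← cf_X_smul i μ w]
    refine hw _ fun j hj => ?_
    have hne : i ≠ j := fun h => hi (h ▸ hj)
    rw [Finsupp.add_apply, Finsupp.single_eq_of_ne hne.symm, hμ j hj]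

end Pool.Helper49.DP
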