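import Mathlib
import Pool.Agent.Helper49.DP.RingDefs
import Pool.Agent.Helper49.DP.Var

/-!
Project DP (MP_f60bb9_ag).  Block DP-22: adding variables to the generic ring.

`S₀ = Loc (Fin t × Fin (m + 1)) k`, `T₀ = Loc ((Fin t × Fin (m + 1)) ⊕ Fin n) k`.

* `extMap : S₀ → T₀`, the localisation of `rename Sum.inl` (`Localization.localRingHom`; the
  hypothesis `irr = comap (rename Sum.inl) irr` is `constantCoeff (rename f p) = constantCoeff p`).
* `extMap_flat`: `T = MvPolynomial (σ ⊕ Fin n) k ≃ MvPolynomial (Fin n) S` (`MvPolynomial.sumAlgEquiv`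
  and `sumComm`) is free over `S = MvPolynomial σ k`, and localisations are flat
  (`Module.Flat` of `T₀` over `S`, hence over `S₀`: `Module.flat_iff_of_isLocalization` or
  `RingHom.Flat.localRingHom`).
* `exists_retraction`: `ρ : T₀ → S₀`, the localisation of `X (inl p) ↦ X p`, `X (inr j) ↦ 0`,
  surjective, kernel generated by the `extra j`, `ρ ∘ extMap = id`, `ρ (genMatrix) = genMatrix0`.
  (As in block DP-19.)
* `extras_regular`: for every `S₀`-module `E` the list of the `extra j` is weakly regular on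
  `T₀ ⊗[S₀] E`.  As `T₀`-modules `T₀ ⊗[S₀] E ≃ T₀ ⊗[S] E ≃ T₀ ⊗[T] (T ⊗[S] E)` (`E` as an `S`-module;
  for the first, `S₀ ⊗[S] E ≃ E` as `E` is already an `S₀`-module).  On
  `T ⊗[S] E`, `T = MvPolynomial (Fin n) S`, the variables are weakly regular by
  `isWeaklyRegular_X`, and `T → T₀` is flat (`IsWeaklyRegular.of_flat_of_isBaseChange` or
  `IsWeaklyRegular.of_isLocalizedModule`).
-/

namespace Pool.Helper49.DP

open RingTheory.Sequence MvPolynomial TensorProduct

universe u

private theorem gen_regular {S T S₀ T₀ : Type u} [CommRing S] [CommRing T] [CommRing S₀]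
    [CommRing T₀] [Algebra S T] [Algebra S S₀] [Algebra T T₀] [Algebra S₀ T₀] [Algebra S T₀]
    [IsScalarTower S T T₀] [IsScalarTower S S₀ T₀] (M : Submonoid S) [IsLocalization M S₀]
    [Module.Flat T T₀] (E : Type u) [AddCommGroup E] [Module S₀ E] [Module S E]
    [IsScalarTower S S₀ E] (l : List T) (h : IsWeaklyRegular (T ⊗[S] E) l) :
    IsWeaklyRegular (T₀ ⊗[S₀] E) (l.map (algebraMap T T₀)) := by
  have h2 : IsWeaklyRegular (T₀ ⊗[T] (T ⊗[S] E)) (l.map (algebraMap T T₀)) :=
    h.of_flat_of_isBaseChange (TensorProduct.isBaseChange T (T ⊗[S] E) T₀)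
  have h3 : IsWeaklyRegular (T₀ ⊗[S] E) (l.map (algebraMap T T₀)) :=
    ((AlgebraTensorModule.cancelBaseChange S T T₀ T₀ E).isWeaklyRegular_congr _).1 h2
  have := IsLocalization.tensorProduct_compatibleSMul M S₀ T₀ E
  exact ((TensorProduct.equivOfCompatibleSMul S S₀ T₀ T₀ E).isWeaklyRegular_congr _).2 h3

/-- Polynomials in two kinds of variables, as polynomials in the second. -/
private noncomputable def swapEquiv (σ τ : Type) (k : Type u) [Field k] :
    MvPolynomial (σ ⊕ τ) k ≃ₐ[k] MvPolynomial τ (MvPolynomial σ k) :=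
  (renameEquiv k (Equiv.sumComm σ τ)).trans (sumAlgEquiv k τ σ)

private theorem swapEquiv_inr (σ τ : Type) (k : Type u) [Field k] (j : τ) :
    swapEquiv σ τ k (X (.inr j)) = X j := by
  simp [swapEquiv]

private theorem swapEquiv_rename (σ τ : Type) (k : Type u) [Field k] (p : MvPolynomial σ k) :
    swapEquiv σ τ k (rename Sum.inl p) = C p := by
  induction p using MvPolynomial.induction_on with
  | C a => simp [swapEquiv]
  | add p q hp hq => simp [hp, hq]
  | mul_X p i hp => rw [map_mul, map_mul, hp, map_mul]; simp [swapEquiv]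

private theorem rename_flat (σ τ : Type) (k : Type u) [Field k] :
    ((rename (Sum.inl : σ → σ ⊕ τ) : MvPolynomial σ k →ₐ[k]
      MvPolynomial (σ ⊕ τ) k).toRingHom).Flat := by
  have h : ((rename (Sum.inl : σ → σ ⊕ τ) : MvPolynomial σ k →ₐ[k]
      MvPolynomial (σ ⊕ τ) k).toRingHom) =
      ((swapEquiv σ τ k).symm.toRingEquiv.toRingHom).comp
        (algebraMap (MvPolynomial σ k) (MvPolynomial τ (MvPolynomial σ k))) := by
    refine RingHom.ext fun p => ?_
    apply (swapEquiv σ τ k).injective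
    have := swapEquiv_rename σ τ k p
    change swapEquiv σ τ k (rename Sum.inl p) = swapEquiv σ τ k ((swapEquiv σ τ k).symm (C p))
    rw [this, AlgEquiv.apply_symm_apply]
  rw [h]
  exact RingHom.Flat.comp (RingHom.flat_algebraMap_iff.2 inferInstance)
    (RingHom.Flat.of_bijective (swapEquiv σ τ k).symm.bijective)

/-- The generic `t × (m + 1)` matrix over the polynomial ring in its entries, localised at the
origin. -/
noncomputable def genMatrix0 (t m : ℕ) (k : Type u) [Field k] :
    Matrix (Fin t) (Fin (m + 1)) (Loc (Fin t × Fin (m + 1)) k) :=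
  fun i j => algebraMap (MvPolynomial (Fin t × Fin (m + 1)) k) _ (X (i, j))

/-- The list of the additional variables. -/
noncomputable def extras (t m n : ℕ) (k : Type u) [Field k] :
    List (Loc ((Fin t × Fin (m + 1)) ⊕ Fin n) k) :=
  (List.finRange n).map (extra t m n k)

theorem extras_length (t m n : ℕ) (k : Type u) [Field k] : (extras t m n k).length = n := by
  simp [extras]

theorem irr_comap (t m n : ℕ) (k : Type u) [Field k] :
    irr (Fin t × Fin (m + 1)) k =
      Ideal.comap (rename (Sum.inl : Fin t × Fin (m + 1) → (Fin t × Fin (m + 1)) ⊕ Fin n) :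
        MvPolynomial (Fin t × Fin (m + 1)) k →ₐ[k]
          MvPolynomial ((Fin t × Fin (m + 1)) ⊕ Fin n) k).toRingHom
        (irr ((Fin t × Fin (m + 1)) ⊕ Fin n) k) := by
  ext p
  simp [irr, RingHom.mem_ker, Ideal.mem_comap, constantCoeff_rename]

/-- The inclusion of the local rings. -/
noncomputable def extMap (t m n : ℕ) (k : Type u) [Field k] :
    Loc (Fin t × Fin (m + 1)) k →+* Loc ((Fin t × Fin (m + 1)) ⊕ Fin n) k :=
  Localization.localRingHom (irr (Fin t × Fin (m + 1)) k)
    (irr ((Fin t × Fin (m + 1)) ⊕ Fin n) k) _ (irr_comap t m n k)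

theorem extMap_flat (t m n : ℕ) (k : Type u) [Field k] : (extMap t m n k).Flat :=
  RingHom.Flat.localRingHom (rename_flat _ _ k) _ _ (irr_comap t m n k)

theorem extMap_genMatrix (t m n : ℕ) (k : Type u) [Field k] (i : Fin t) (j : Fin (m + 1)) :
    extMap t m n k (genMatrix0 t m k i j) = genMatrix t m n k i j := by
  unfold extMap genMatrix0 genMatrix
  rw [Localization.localRingHom_to_map]
  simp

theorem extras_mem (t m n : ℕ) (k : Type u) [Field k] :
    ∀ r ∈ extras t m n k,
      r ∈ IsLocalRing.maximalIdeal (Loc ((Fin t × Fin (m + 1)) ⊕ Fin n) k) := by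
  intro r hr
  obtain ⟨j, -, rfl⟩ := List.mem_map.1 hr
  unfold extra
  rw [IsLocalization.AtPrime.to_map_mem_maximal_iff
    (Loc ((Fin t × Fin (m + 1)) ⊕ Fin n) k) (irr ((Fin t × Fin (m + 1)) ⊕ Fin n) k)]
  simp [irr, RingHom.mem_ker]

private theorem poly_regular (σ : Type) (n : ℕ) (k : Type u) [Field k] (E : Type u)
    [AddCommGroup E] [Module (MvPolynomial σ k) E]
    [Algebra (MvPolynomial σ k) (MvPolynomial (σ ⊕ Fin n) k)]
    (halg : ∀ p : MvPolynomial σ k,
      algebraMap (MvPolynomial σ k) (MvPolynomial (σ ⊕ Fin n) k) p = rename Sum.inl p) :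
    IsWeaklyRegular (MvPolynomial (σ ⊕ Fin n) k ⊗[MvPolynomial σ k] E)
      ((List.finRange n).map fun j => (X (Sum.inr j) : MvPolynomial (σ ⊕ Fin n) k)) := by
  have hreg := isWeaklyRegular_X (B := MvPolynomial σ k) E (List.finRange n)
    (List.nodup_finRange n)
  let e : MvPolynomial (σ ⊕ Fin n) k ≃ₐ[MvPolynomial σ k] MvPolynomial (Fin n) (MvPolynomial σ k) :=
    AlgEquiv.ofRingEquiv (f := (swapEquiv σ (Fin n) k).toRingEquiv) (fun r => by
      rw [halg]
      exact swapEquiv_rename σ (Fin n) k r)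
  let f : MvPolynomial (σ ⊕ Fin n) k ⊗[MvPolynomial σ k] E ≃ₗ[MvPolynomial σ k]
      MvPolynomial (Fin n) (MvPolynomial σ k) ⊗[MvPolynomial σ k] E :=
    LinearEquiv.rTensor E e.toLinearEquiv
  refine (AddEquiv.isWeaklyRegular_congr (e := f.toAddEquiv) ?_).2 hreg
  rw [List.forall₂_map_left_iff, List.forall₂_map_right_iff, List.forall₂_same]
  intro j _ x
  change f _ = X j • f x
  induction x using TensorProduct.induction_on with
  | zero => simp
  | add x y hx hy => rw [smul_add, map_add, hx, hy, map_add, smul_add]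
  | tmul a b =>
    have h1 : f (a ⊗ₜ b) = (e a) ⊗ₜ b := rfl
    have h2 : f ((X (Sum.inr j) : MvPolynomial (σ ⊕ Fin n) k) • (a ⊗ₜ[MvPolynomial σ k] b)) =
      (e (X (Sum.inr j) * a)) ⊗ₜ b := rfl
    rw [h1, h2, map_mul, TensorProduct.smul_tmul', smul_eq_mul]
    congr 2
    exact swapEquiv_inr σ (Fin n) k j

/-- Putting the second kind of variables equal to zero. -/
private noncomputable def retr (σ τ : Type) (k : Type u) [Field k] :
    MvPolynomial (σ ⊕ τ) k →ₐ[k] MvPolynomial σ k :=
  aeval (Sum.elim X 0)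

private theorem retr_rename (σ τ : Type) (k : Type u) [Field k] (p : MvPolynomial σ k) :
    retr σ τ k (rename Sum.inl p) = p := by
  unfold retr
  rw [aeval_rename]
  have : (Sum.elim X 0 : σ ⊕ τ → MvPolynomial σ k) ∘ Sum.inl = X := by
    ext1 s
    simp
  rw [this, aeval_X_left_apply]

private theorem retr_inr (σ τ : Type) (k : Type u) [Field k] (j : τ) :
    retr σ τ k (X (Sum.inr j)) = 0 := by
  simp [retr]

private theorem retr_const (σ τ : Type) (k : Type u) [Field k] (p : MvPolynomial (σ ⊕ τ) k) :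
    constantCoeff (retr σ τ k p) = constantCoeff p := by
  induction p using MvPolynomial.induction_on with
  | C a => simp [retr]
  | add p q hp hq => rw [map_add, map_add, map_add, hp, hq]
  | mul_X p i hp =>
    rw [map_mul, map_mul, map_mul]
    rcases i with i | i <;> simp [retr]

private theorem retr_ker (σ τ : Type) (k : Type u) [Field k] (p : MvPolynomial (σ ⊕ τ) k) :
    p - rename Sum.inl (retr σ τ k p) ∈
      Ideal.span (Set.range fun j : τ => (X (Sum.inr j) : MvPolynomial (σ ⊕ τ) k)) := by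
  induction p using MvPolynomial.induction_on with
  | C a => simp [retr]
  | add p q hp hq =>
    have := add_mem hp hq
    rw [map_add, map_add]
    convert! this using 1
    ring
  | mul_X p i hp =>
    rcases i with i | i
    · have := Ideal.mul_mem_right (X (Sum.inl i)) _ hp
      convert! this using 1
      rw [map_mul, map_mul, sub_mul]
      simp [retr]
    · rw [map_mul, retr_inr, mul_zero, map_zero, sub_zero]
      exact Ideal.mul_mem_left _ _ (Ideal.subset_span ⟨i, rfl⟩)

private theorem retr_comap (σ τ : Type) (k : Type u) [Field k] :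
    irr (σ ⊕ τ) k = Ideal.comap (retr σ τ k).toRingHom (irr σ k) := by
  ext p
  change constantCoeff p = 0 ↔ constantCoeff (retr σ τ k p) = 0
  rw [retr_const]

theorem exists_retraction (t m n : ℕ) (k : Type u) [Field k] :
    ∃ ρ : Loc ((Fin t × Fin (m + 1)) ⊕ Fin n) k →+* Loc (Fin t × Fin (m + 1)) k,
      Function.Surjective ρ ∧ RingHom.ker ρ = Ideal.ofList (extras t m n k) ∧
      (∀ z, ρ (extMap t m n k z) = z) := by
  let ρ := Localization.localRingHom (irr ((Fin t × Fin (m + 1)) ⊕ Fin n) k)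
    (irr (Fin t × Fin (m + 1)) k) (retr (Fin t × Fin (m + 1)) (Fin n) k).toRingHom
    (retr_comap (Fin t × Fin (m + 1)) (Fin n) k)
  have hρ : ∀ p, ρ (algebraMap _ _ p) =
      algebraMap _ _ (retr (Fin t × Fin (m + 1)) (Fin n) k p) := fun p =>
    Localization.localRingHom_to_map _ _ _ _ p
  have hid : ∀ z, ρ (extMap t m n k z) = z := by
    have : ρ.comp (extMap t m n k) = RingHom.id _ := by
      apply IsLocalization.ringHom_ext (irr (Fin t × Fin (m + 1)) k).primeCompl
      refine RingHom.ext fun p => ?_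
      change ρ (extMap t m n k (algebraMap _ _ p)) = algebraMap _ _ p
      unfold extMap
      rw [Localization.localRingHom_to_map]
      change ρ (algebraMap _ _ (rename Sum.inl p)) = _
      rw [hρ, retr_rename]
    intro z
    exact congrArg (fun g : Loc (Fin t × Fin (m + 1)) k →+* Loc (Fin t × Fin (m + 1)) k => g z) this
  refine ⟨ρ, fun z => ⟨_, hid z⟩, le_antisymm ?_ ?_, hid⟩
  · intro z hz
    obtain ⟨a, s, rfl⟩ := IsLocalization.exists_mk'_eq
      (irr ((Fin t × Fin (m + 1)) ⊕ Fin n) k).primeCompl z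
    have h1 : ρ (algebraMap _ _ a) = 0 := by
      rw [← IsLocalization.mk'_spec' (Loc ((Fin t × Fin (m + 1)) ⊕ Fin n) k) a s, map_mul,
        RingHom.mem_ker.1 hz, mul_zero]
    rw [hρ] at h1
    have h2 : retr (Fin t × Fin (m + 1)) (Fin n) k a = 0 := by
      apply IsLocalization.injective (Loc (Fin t × Fin (m + 1)) k)
        (Ideal.primeCompl_le_nonZeroDivisors (irr (Fin t × Fin (m + 1)) k))
      rw [h1, map_zero]
    have h3 := retr_ker (Fin t × Fin (m + 1)) (Fin n) k a
    rw [h2, map_zero, sub_zero] at h3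
    rw [IsLocalization.mk'_eq_mul_mk'_one]
    apply Ideal.mul_mem_right
    have h4 := Ideal.mem_map_of_mem (algebraMap (MvPolynomial ((Fin t × Fin (m + 1)) ⊕ Fin n) k)
      (Loc ((Fin t × Fin (m + 1)) ⊕ Fin n) k)) h3
    rw [Ideal.map_span] at h4
    refine Ideal.span_mono ?_ h4
    rintro _ ⟨_, ⟨j, rfl⟩, rfl⟩
    exact List.mem_map.2 ⟨j, List.mem_finRange j, rfl⟩
  · refine Ideal.span_le.2 ?_
    intro r hr
    obtain ⟨j, -, rfl⟩ := List.mem_map.1 hr
    change ρ _ = 0
    unfold extra
    rw [hρ, retr_inr, map_zero]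

theorem extras_regular (t m n : ℕ) (k : Type u) [Field k] (E : Type u) [AddCommGroup E]
    [Module (Loc (Fin t × Fin (m + 1)) k) E] :
    letI := (extMap t m n k).toAlgebra
    IsWeaklyRegular (Loc ((Fin t × Fin (m + 1)) ⊕ Fin n) k ⊗[Loc (Fin t × Fin (m + 1)) k] E)
      (extras t m n k) := by
  let a1 : Algebra (Loc (Fin t × Fin (m + 1)) k) (Loc ((Fin t × Fin (m + 1)) ⊕ Fin n) k) :=
    (extMap t m n k).toAlgebra
  let a2 : Algebra (MvPolynomial (Fin t × Fin (m + 1)) k)
      (MvPolynomial ((Fin t × Fin (m + 1)) ⊕ Fin n) k) :=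
    (rename (Sum.inl : Fin t × Fin (m + 1) → (Fin t × Fin (m + 1)) ⊕ Fin n) :
      MvPolynomial (Fin t × Fin (m + 1)) k →ₐ[k]
        MvPolynomial ((Fin t × Fin (m + 1)) ⊕ Fin n) k).toRingHom.toAlgebra
  let a4 : Module (MvPolynomial (Fin t × Fin (m + 1)) k) E :=
    Module.compHom E (algebraMap (MvPolynomial (Fin t × Fin (m + 1)) k)
      (Loc (Fin t × Fin (m + 1)) k))
  have t1 : IsScalarTower (MvPolynomial (Fin t × Fin (m + 1)) k) (Loc (Fin t × Fin (m + 1)) k)
      (Loc ((Fin t × Fin (m + 1)) ⊕ Fin n) k) := IsScalarTower.of_algebraMap_eq fun x => by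
    change _ = extMap t m n k (algebraMap _ _ x)
    unfold extMap
    rw [Localization.localRingHom_to_map]
    rfl
  have t3 : IsScalarTower (MvPolynomial (Fin t × Fin (m + 1)) k) (Loc (Fin t × Fin (m + 1)) k)
      E := ⟨fun x y z => by
    change (x • y) • z = (algebraMap _ (Loc (Fin t × Fin (m + 1)) k) x) • y • z
    rw [smul_smul, Algebra.smul_def]⟩
  have t4 : Module.Flat (MvPolynomial ((Fin t × Fin (m + 1)) ⊕ Fin n) k)
      (Loc ((Fin t × Fin (m + 1)) ⊕ Fin n) k) := IsLocalization.flat _ (irr _ k).primeCompl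
  have hp := poly_regular (Fin t × Fin (m + 1)) n k E (fun p => rfl)
  have := gen_regular (S₀ := Loc (Fin t × Fin (m + 1)) k)
    (T₀ := Loc ((Fin t × Fin (m + 1)) ⊕ Fin n) k) (irr (Fin t × Fin (m + 1)) k).primeCompl E _ hp
  rw [List.map_map] at this
  exact this

end Pool.Helper49.DP
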