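import Mathlib

/-!
Project DP (MP_f60bb9_ag).  Block DP-12: flatness up to powers of an element `F`
(element form of: `V[1/F]` is flat over `C`).

`TorFlat F V`: for every ideal `𝔞` of `C`, every element of the kernel of `𝔞 ⊗ V → C ⊗ V` is killed by
a power of `F`.

* `of_flat`: the kernel is zero (`Module.Flat.rTensor_preserves_injective_linearMap`).
* `mul_right`: `F ^ e • z = 0` gives `(F * G) ^ e • z = 0`.
* `of_equiv`: transport along `TensorProduct.congr`.
* `of_exact`: `0 → V' → V → V'' → 0` exact, both ends `TorFlat F`.  Let `z ∈ 𝔞 ⊗ V` map to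
  `0 ∈ C ⊗ V`.  Its image in `𝔞 ⊗ V''` maps to `0`, so is killed by `F ^ e`; so `F ^ e • z` comes from
  `z' ∈ 𝔞 ⊗ V'` (`lTensor_exact`: right exactness of `𝔞 ⊗ _`).  The image of `z'` in
  `C ⊗ V'` maps to `0` in `C ⊗ V`, and `C ⊗ V' → C ⊗ V` is injective (`C` is flat, or
  `TensorProduct.lid`), so `F ^ e' • z' = 0` and `F ^ (e' + e) • z = 0`.
* `of_iSup`: an increasing sequence of submodules with union `V`.  `z ∈ 𝔞 ⊗ V` comes from
  some `z_i ∈ 𝔞 ⊗ V_i` (induction on `z`: `TensorProduct.induction_on`, monotone).  The image of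
  `z_i` in `C ⊗ V_i` is zero, since `C ⊗ V_i → C ⊗ V` is injective.  So `F ^ e • z_i = 0`,
  `F ^ e • z = 0`.
* `of_smul_eq_zero`: if `F • v = 0` for all `v` then `F • z = 0` for all `z ∈ 𝔞 ⊗ V`.
* `exists_of_finite`: `C` a domain, `V` finite over `C`.  There is a linearly independent
  family `v_1 .. v_r` in `V` with `V / span v` torsion (a maximal linearly independent subset of a
  finite generating set; for every generator `s`, some nonzero `c_s` with `c_s • s ∈ span v`); with
  `F` the product of the `c_s`, `F • V ⊆ span v`.  `span v` is free, hence flat; `V / span v` is killed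
  by `F`; conclude by `of_exact`.
-/

namespace Pool.Helper49.DP

open TensorProduct

universe u v w

/-- `V[1/F]` is flat over `C`, in terms of elements. -/
def TorFlat {C : Type u} [CommRing C] (F : C) (V : Type v) [AddCommGroup V] [Module C V] : Prop :=
  ∀ (𝔞 : Ideal C) (z : (𝔞 : Submodule C C) ⊗[C] V),
    LinearMap.rTensor V (Submodule.subtype (𝔞 : Submodule C C)) z = 0 → ∃ e : ℕ, F ^ e • z = 0

variable {C : Type u} [CommRing C]

theorem TorFlat.of_flat (F : C) (V : Type v) [AddCommGroup V] [Module C V] [Module.Flat C V] :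
    TorFlat F V := by
  intro 𝔞 z hz
  refine ⟨0, ?_⟩
  have h := Module.Flat.rTensor_preserves_injective_linearMap (M := V)
    (Submodule.subtype (𝔞 : Submodule C C)) (Submodule.injective_subtype _)
  have h0 : z = 0 := h (by rw [hz, map_zero])
  rw [h0, smul_zero]

theorem TorFlat.mul_right {F : C} (G : C) {V : Type v} [AddCommGroup V] [Module C V]
    (h : TorFlat F V) : TorFlat (F * G) V := by
  intro 𝔞 z hz
  obtain ⟨e, he⟩ := h 𝔞 z hz
  refine ⟨e, ?_⟩
  rw [mul_pow, mul_comm, mul_smul, he, smul_zero]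

theorem TorFlat.of_equiv {F : C} {V : Type v} [AddCommGroup V] [Module C V] {V' : Type w}
    [AddCommGroup V'] [Module C V'] (e : V ≃ₗ[C] V') (h : TorFlat F V) : TorFlat F V' := by
  intro 𝔞 z hz
  have h1 : LinearMap.rTensor V (Submodule.subtype (𝔞 : Submodule C C))
      (LinearMap.lTensor (𝔞 : Submodule C C) e.symm.toLinearMap z) = 0 := by
    rw [← LinearMap.comp_apply, LinearMap.rTensor_comp_lTensor,
      ← LinearMap.lTensor_comp_rTensor, LinearMap.comp_apply, hz, map_zero]
  obtain ⟨k, hk⟩ := h 𝔞 _ h1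
  refine ⟨k, ?_⟩
  have h2 : LinearMap.lTensor (𝔞 : Submodule C C) e.toLinearMap
      (LinearMap.lTensor (𝔞 : Submodule C C) e.symm.toLinearMap z) = z := by
    rw [← LinearMap.comp_apply, ← LinearMap.lTensor_comp, LinearEquiv.comp_symm,
      LinearMap.lTensor_id, LinearMap.id_apply]
  rw [← h2, ← map_smul, hk, map_zero]

theorem TorFlat.of_exact {F : C} {V' : Type v} [AddCommGroup V'] [Module C V'] {V : Type v}
    [AddCommGroup V] [Module C V] {V'' : Type v} [AddCommGroup V''] [Module C V'']
    (f : V' →ₗ[C] V) (g : V →ₗ[C] V'') (hf : Function.Injective f) (hfg : Function.Exact f g)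
    (hg : Function.Surjective g) (h' : TorFlat F V') (h'' : TorFlat F V'') : TorFlat F V := by
  intro 𝔞 z hz
  have h1 : LinearMap.rTensor V'' (Submodule.subtype (𝔞 : Submodule C C))
      (LinearMap.lTensor (𝔞 : Submodule C C) g z) = 0 := by
    rw [← LinearMap.comp_apply, LinearMap.rTensor_comp_lTensor,
      ← LinearMap.lTensor_comp_rTensor, LinearMap.comp_apply, hz, map_zero]
  obtain ⟨e, he⟩ := h'' 𝔞 _ h1
  rw [← map_smul] at he
  obtain ⟨z', hz'⟩ := (lTensor_exact (𝔞 : Submodule C C) hfg hg _).1 he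
  have h2 : LinearMap.lTensor C f
      (LinearMap.rTensor V' (Submodule.subtype (𝔞 : Submodule C C)) z') = 0 := by
    rw [← LinearMap.comp_apply, LinearMap.lTensor_comp_rTensor,
      ← LinearMap.rTensor_comp_lTensor, LinearMap.comp_apply, hz', map_smul, hz, smul_zero]
  have h3 := Module.Flat.lTensor_preserves_injective_linearMap (M := C) f hf
  have h4 : LinearMap.rTensor V' (Submodule.subtype (𝔞 : Submodule C C)) z' = 0 :=
    h3 (by rw [h2, map_zero])
  obtain ⟨e', he'⟩ := h' 𝔞 z' h4
  refine ⟨e' + e, ?_⟩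
  rw [pow_add, mul_smul, ← hz', ← map_smul, he', map_zero]

theorem TorFlat.of_iSup {F : C} {V : Type v} [AddCommGroup V] [Module C V]
    (W : ℕ → Submodule C V) (hmono : Monotone W) (hW : ∀ v : V, ∃ i, v ∈ W i)
    (h : ∀ i, TorFlat F (W i)) : TorFlat F V := by
  intro 𝔞 z hz
  have key : ∀ z : (𝔞 : Submodule C C) ⊗[C] V, ∃ (i : ℕ) (y : (𝔞 : Submodule C C) ⊗[C] (W i)),
      LinearMap.lTensor (𝔞 : Submodule C C) (W i).subtype y = z := by
    intro z
    induction z using TensorProduct.induction_on with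
    | zero => exact ⟨0, 0, map_zero _⟩
    | tmul a v =>
      obtain ⟨i, hi⟩ := hW v
      exact ⟨i, a ⊗ₜ[C] (⟨v, hi⟩ : W i), by simp⟩
    | add x y hx hy =>
      obtain ⟨i, x', hx'⟩ := hx
      obtain ⟨j, y', hy'⟩ := hy
      have hi := hmono (le_max_left i j)
      have hj := hmono (le_max_right i j)
      refine ⟨max i j, LinearMap.lTensor (𝔞 : Submodule C C) (Submodule.inclusion hi) x' +
        LinearMap.lTensor (𝔞 : Submodule C C) (Submodule.inclusion hj) y', ?_⟩
      rw [map_add, ← LinearMap.comp_apply, ← LinearMap.comp_apply (LinearMap.lTensor _ _)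
        (LinearMap.lTensor _ (Submodule.inclusion hj)), ← LinearMap.lTensor_comp,
        ← LinearMap.lTensor_comp, Submodule.subtype_comp_inclusion,
        Submodule.subtype_comp_inclusion, hx', hy']
  obtain ⟨i, y, hy⟩ := key z
  have h2 : LinearMap.lTensor C (W i).subtype
      (LinearMap.rTensor (W i) (Submodule.subtype (𝔞 : Submodule C C)) y) = 0 := by
    rw [← LinearMap.comp_apply, LinearMap.lTensor_comp_rTensor,
      ← LinearMap.rTensor_comp_lTensor, LinearMap.comp_apply, hy, hz]
  have h3 := Module.Flat.lTensor_preserves_injective_linearMap (M := C) (W i).subtype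
    (Submodule.injective_subtype _)
  have h4 : LinearMap.rTensor (W i) (Submodule.subtype (𝔞 : Submodule C C)) y = 0 :=
    h3 (by rw [h2, map_zero])
  obtain ⟨e, he⟩ := h i 𝔞 y h4
  refine ⟨e, ?_⟩
  rw [← hy, ← map_smul, he, map_zero]

private theorem torFlat_of_smul24 {F : C} {V : Type v} [AddCommGroup V] [Module C V]
    (hF : ∀ v : V, F • v = 0) : TorFlat F V := by
  intro 𝔞 z _
  refine ⟨1, ?_⟩
  rw [pow_one]
  clear * - hF
  induction z using TensorProduct.induction_on with
  | zero => exact smul_zero _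
  | tmul a v => rw [← TensorProduct.tmul_smul, hF, TensorProduct.tmul_zero]
  | add x y hx hy => rw [smul_add, hx, hy, add_zero]

theorem TorFlat.exists_of_finite [IsDomain C] (V : Type v) [AddCommGroup V] [Module C V]
    [Module.Finite C V] : ∃ F : C, F ≠ 0 ∧ TorFlat F V := by
  classical
  obtain ⟨n, s, hs⟩ := Module.Finite.exists_fin (R := C) (M := V)
  obtain ⟨I, hI, hmax⟩ := exists_maximal_linearIndepOn C s
  set N : Submodule C V := Submodule.span C (s '' I) with hN
  have hc : ∀ i : Fin n, ∃ a : C, a ≠ 0 ∧ a • s i ∈ N := by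
    intro i
    by_cases hi : i ∈ I
    · exact ⟨1, one_ne_zero, by
        rw [one_smul]
        exact Submodule.subset_span ⟨i, hi, rfl⟩⟩
    · exact hmax i hi
  choose c hc0 hcN using hc
  have hFs : ∀ i, (∏ j, c j) • s i ∈ N := by
    intro i
    rw [← Finset.mul_prod_erase Finset.univ c (Finset.mem_univ i), mul_comm, mul_smul]
    exact N.smul_mem _ (hcN i)
  have hFV : ∀ v : V, (∏ j, c j) • v ∈ N := by
    intro v
    have hv : v ∈ Submodule.span C (Set.range s) := by rw [hs]; trivial
    induction hv using Submodule.span_induction with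
    | mem x hx =>
      obtain ⟨i, rfl⟩ := hx
      exact hFs i
    | zero => rw [smul_zero]; exact N.zero_mem
    | add x y _ _ hx hy => rw [smul_add]; exact N.add_mem hx hy
    | smul a x _ hx => rw [smul_comm]; exact N.smul_mem _ hx
  have hfree : Module.Free C N := by
    have hN' : N = Submodule.span C (Set.range fun i : I => s i) := by
      rw [hN, Set.image_eq_range]
    rw [hN']
    exact Module.Free.of_basis (Module.Basis.span (v := fun i : I => s i) hI)
  refine ⟨∏ j, c j, Finset.prod_ne_zero_iff.2 fun j _ => hc0 j, ?_⟩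
  refine TorFlat.of_exact N.subtype N.mkQ N.injective_subtype
    (LinearMap.exact_subtype_mkQ N) N.mkQ_surjective (TorFlat.of_flat _ _)
    (torFlat_of_smul24 ?_)
  intro q
  obtain ⟨v, rfl⟩ := N.mkQ_surjective q
  rw [← map_smul, Submodule.mkQ_apply, Submodule.Quotient.mk_eq_zero]
  exact hFV v

end Pool.Helper49.DP
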