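import Mathlib
import Pool.Agent.Helper49.DP.GF1

/-!
Project DP (MP_f60bb9_ag).  Block DP-14: specialisation of an injective endomorphism with
almost flat cokernel.

`C` a commutative ring, `V` a `C`-module, `Θ : V → V` linear and injective, `TorFlat F (V / range Θ)`,
`𝔞` an ideal of `C`, `Θ v ∈ 𝔞 V`.  Then `F ^ e • v ∈ 𝔞 V` for some `e`.

Proof.  `Θ v` is the image of some `ξ ∈ 𝔞 ⊗ V` under `𝔞 ⊗ V → V` (`a ⊗ v ↦ a • v`; the image of this
map is `𝔞 • ⊤`: e.g. `Submodule.smul_induction_on`, or `Ideal.…` `TensorProduct` lemmas).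
The image `ξ'` of `ξ` in `𝔞 ⊗ (V / range Θ)` maps to the class of `Θ v`, which is `0`.  So
`F ^ e • ξ' = 0` by `TorFlat` (the map `𝔞 ⊗ V'' → V''` is `rTensor` followed by the isomorphism
`TensorProduct.lid`).  By right exactness (`lTensor_exact 𝔞`, for `V → V → V / range Θ`),
`F ^ e • ξ = (id ⊗ Θ) η` with `η ∈ 𝔞 ⊗ V`.  Apply `𝔞 ⊗ V → V`:
`F ^ e • Θ v = Θ (η₀)` where `η₀ ∈ 𝔞 • ⊤` is the image of `η`.  `Θ` is injective, so
`F ^ e • v = η₀ ∈ 𝔞 • ⊤`.
-/

namespace Pool.Helper49.DP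

open TensorProduct

universe u v

/-- The multiplication map `𝔞 ⊗ V → V`. -/
private noncomputable def act61 {C : Type u} [CommRing C] (𝔞 : Ideal C) {V : Type v}
    [AddCommGroup V] [Module C V] : (𝔞 : Submodule C C) ⊗[C] V →ₗ[C] V :=
  (TensorProduct.lid C V).toLinearMap ∘ₗ
    LinearMap.rTensor V (Submodule.subtype (𝔞 : Submodule C C))

private theorem act_tmul61 {C : Type u} [CommRing C] (𝔞 : Ideal C) {V : Type v}
    [AddCommGroup V] [Module C V] (a : (𝔞 : Submodule C C)) (v : V) :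
    act61 𝔞 (a ⊗ₜ[C] v) = (a : C) • v := by
  simp [act61]

private theorem act_mem61 {C : Type u} [CommRing C] (𝔞 : Ideal C) {V : Type v}
    [AddCommGroup V] [Module C V] (z : (𝔞 : Submodule C C) ⊗[C] V) :
    act61 𝔞 z ∈ (𝔞 • ⊤ : Submodule C V) := by
  induction z using TensorProduct.induction_on with
  | zero => rw [map_zero]; exact Submodule.zero_mem _
  | tmul a v =>
    rw [act_tmul61]
    exact Submodule.smul_mem_smul a.2 Submodule.mem_top
  | add x y hx hy => rw [map_add]; exact Submodule.add_mem _ hx hy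

private theorem exists_tensor61 {C : Type u} [CommRing C] (𝔞 : Ideal C) {V : Type v}
    [AddCommGroup V] [Module C V] {v : V} (hv : v ∈ (𝔞 • ⊤ : Submodule C V)) :
    ∃ z : (𝔞 : Submodule C C) ⊗[C] V, act61 𝔞 z = v := by
  refine Submodule.smul_induction_on hv ?_ ?_
  · intro a ha w _
    exact ⟨(⟨a, ha⟩ : (𝔞 : Submodule C C)) ⊗ₜ[C] w, act_tmul61 𝔞 _ _⟩
  · rintro x y ⟨z, hz⟩ ⟨z', hz'⟩
    exact ⟨z + z', by rw [map_add, hz, hz']⟩

private theorem act_nat61 {C : Type u} [CommRing C] (𝔞 : Ideal C) {V : Type v}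
    [AddCommGroup V] [Module C V] {V' : Type v} [AddCommGroup V'] [Module C V'] (f : V →ₗ[C] V')
    (z : (𝔞 : Submodule C C) ⊗[C] V) :
    TensorProduct.lid C V' (LinearMap.rTensor V' (Submodule.subtype (𝔞 : Submodule C C))
      (LinearMap.lTensor (𝔞 : Submodule C C) f z)) = f (act61 𝔞 z) := by
  induction z using TensorProduct.induction_on with
  | zero => simp
  | tmul a v =>
    rw [act_tmul61, LinearMap.lTensor_tmul, LinearMap.rTensor_tmul, TensorProduct.lid_tmul,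
      map_smul]
    rfl
  | add x y hx hy => rw [map_add, map_add, map_add, hx, hy, map_add, map_add]

private theorem act_end61 {C : Type u} [CommRing C] (𝔞 : Ideal C) {V : Type v}
    [AddCommGroup V] [Module C V] (f : V →ₗ[C] V) (z : (𝔞 : Submodule C C) ⊗[C] V) :
    act61 𝔞 (LinearMap.lTensor (𝔞 : Submodule C C) f z) = f (act61 𝔞 z) :=
  act_nat61 𝔞 f z

theorem exists_pow_smul_mem {C : Type u} [CommRing C] {V : Type v} [AddCommGroup V] [Module C V]
    (Θ : V →ₗ[C] V) (hΘ : Function.Injective Θ) {F : C}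
    (hF : TorFlat F (V ⧸ LinearMap.range Θ)) (𝔞 : Ideal C) {v : V}
    (hv : Θ v ∈ (𝔞 • ⊤ : Submodule C V)) : ∃ e : ℕ, F ^ e • v ∈ (𝔞 • ⊤ : Submodule C V) := by
  obtain ⟨ξ, hξ⟩ := exists_tensor61 𝔞 hv
  set Q := (LinearMap.range Θ).mkQ with hQ
  -- image in the quotient
  have h1 : LinearMap.rTensor (V ⧸ LinearMap.range Θ)
      (Submodule.subtype (𝔞 : Submodule C C))
      (LinearMap.lTensor (𝔞 : Submodule C C) Q ξ) = 0 := by
    apply (TensorProduct.lid C (V ⧸ LinearMap.range Θ)).injective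
    rw [map_zero]
    have h2 : TensorProduct.lid C (V ⧸ LinearMap.range Θ)
        (LinearMap.rTensor (V ⧸ LinearMap.range Θ) (Submodule.subtype (𝔞 : Submodule C C))
          (LinearMap.lTensor (𝔞 : Submodule C C) Q ξ)) = Q (act61 𝔞 ξ) := act_nat61 𝔞 Q ξ
    rw [h2, hξ]
    exact (Submodule.Quotient.mk_eq_zero _).2 ⟨v, rfl⟩
  obtain ⟨e, he⟩ := hF 𝔞 _ h1
  refine ⟨e, ?_⟩
  have hex : Function.Exact Θ Q := by
    intro y
    rw [hQ]
    constructor
    · intro hy
      exact (Submodule.Quotient.mk_eq_zero _).1 hy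
    · rintro ⟨w, rfl⟩
      exact (Submodule.Quotient.mk_eq_zero _).2 ⟨w, rfl⟩
  have hexT := lTensor_exact (𝔞 : Submodule C C) hex (Submodule.mkQ_surjective _)
  have hz : LinearMap.lTensor (𝔞 : Submodule C C) Q (F ^ e • ξ) = 0 := by
    rw [map_smul, he]
  obtain ⟨η, hη⟩ := (hexT _).1 hz
  have h3 : Θ (F ^ e • v) = Θ (act61 𝔞 η) := by
    rw [← act_end61 𝔞 Θ η, hη, map_smul, map_smul, hξ]
  rw [hΘ h3]
  exact act_mem61 𝔞 η

end Pool.Helper49.DP
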