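import Mathlib
import Pool.Agent.Helper49.DP.GF1

/-!
Project DP (MP_f60bb9_ag).  Block DP-13: generic flatness.

Let `C` be a Noetherian domain, `A'` a finite type commutative `C`-algebra, `V` a finite `A'`-module.
There is `F ≠ 0` in `C` with `TorFlat F V`.

Proof by induction on the number of generators of `A'`.  Statement `P n`: for all `A'`, all finite
sets `s ⊆ A'` with `s.card = n` and `Algebra.adjoin C s = ⊤`, and all `V`.  (The statement in
Lean is `generic_flat_adjoin`.)
* `n = 0`: every element of `A'` is in the range of `C → A'`, so `V` is a finite `C`-module: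
  `TorFlat.exists_of_finite`.
* `n + 1`: `s = insert y s'`, `B = Algebra.adjoin C s'`, a subalgebra of `A'`, Noetherian
  (`Algebra.FiniteType` over a Noetherian ring; `isNoetherianRing_adjoin_finset`).  `V` is a
  `B`-module.  Let `G` be a finite generating set of `V` over `A'`, and for `i : ℕ` let
  `W i = B-span of {y ^ j • g : j ≤ i, g ∈ G}`.  Monotone, with union `V`
  (`A' = ⋃ sum_j B y ^ j`, because `Algebra.adjoin C (insert y s') = ⊤`:
  `Algebra.adjoin_insert_adjoin`/`Algebra.adjoin_union`, or: the set of all `a : A'` with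
  `a • W i ⊆ W (i + k)` for some `k`, is a subalgebra containing `y` and `B`).
  `y • W i ⊆ W (i + 1)` and `W (i + 1) = y ^ (i + 1) • W 0 + W i`.
  Let `N i = {v ∈ W 0 : y ^ (i + 1) • v ∈ W i}`, `B`-submodules of `W 0`, increasing in `i`
  (multiply by `y`); `W 0` is a finite module over the Noetherian ring `B`, so `N i = N i₀` for
  `i ≥ i₀` (`monotone_stabilizes_iff_noetherian`).  The map `v ↦ y ^ (i + 1) • v` induces
  `W 0 / N i ≃ W (i + 1) / W i` (`B`-linear).
  By the induction hypothesis for `B`, generated by the `n` elements of `s'` (as a subset of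
  the subtype `B`: `Algebra.adjoin_adjoin_coe_preimage`), applied to the finitely many modules `W 0`
  and `W 0 / N i` (`i ≤ i₀`), and `mul_right` (take the product of the `F`s), there is one `F ≠ 0`
  with `TorFlat F (W 0)` and `TorFlat F (W 0 / N i)` for all `i`.  By `of_exact` and induction
  `TorFlat F (W i)` for all `i`, and by `of_iSup` `TorFlat F V` (submodules over `C` obtained by
  `Submodule.restrictScalars C`).
-/

namespace Pool.Helper49.DP

universe u v

section Filtration88

variable {B : Type u} [CommRing B] {V : Type u} [AddCommGroup V] [Module B V]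

/-- The filtration by powers of an endomorphism. -/
private def filt88 (φ : V →ₗ[B] V) (W₀ : Submodule B V) : ℕ → Submodule B V
  | 0 => W₀
  | i + 1 => filt88 φ W₀ i ⊔ W₀.map (φ ^ (i + 1))

private lemma filt_mono88 (φ : V →ₗ[B] V) (W₀ : Submodule B V) : Monotone (filt88 φ W₀) :=
  monotone_nat_of_le_succ fun _ => le_sup_left

private lemma filt_pow88 (φ : V →ₗ[B] V) (W₀ : Submodule B V) (i : ℕ) : W₀.map (φ ^ i) ≤ filt88 φ W₀ i := by
  cases i with
  | zero =>
    intro v hv
    obtain ⟨w, hw, rfl⟩ := Submodule.mem_map.mp hv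
    simpa [filt88] using hw
  | succ i => exact le_sup_right

private lemma filt_step88 (φ : V →ₗ[B] V) (W₀ : Submodule B V) (i : ℕ) :
    (filt88 φ W₀ i).map φ ≤ filt88 φ W₀ (i + 1) := by
  induction i with
  | zero =>
    refine le_trans ?_ (filt_pow88 φ W₀ 1)
    rw [pow_one]
    exact le_rfl
  | succ i ih =>
    change (filt88 φ W₀ i ⊔ W₀.map (φ ^ (i + 1))).map φ ≤ _
    rw [Submodule.map_sup]
    refine sup_le (ih.trans (filt_mono88 φ W₀ (Nat.le_succ _))) ?_
    rw [← Submodule.map_comp]
    have : φ ∘ₗ (φ ^ (i + 1)) = φ ^ (i + 1 + 1) := by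
      rw [pow_succ' φ (i + 1)]
      rfl
    rw [this]
    exact filt_pow88 φ W₀ (i + 1 + 1)

/-- The map `W₀ → W (i+1) / W i`. -/
private noncomputable def gr88 (φ : V →ₗ[B] V) (W₀ : Submodule B V) (i : ℕ) :
    W₀ →ₗ[B] ((filt88 φ W₀ (i + 1)) ⧸ (filt88 φ W₀ i).submoduleOf (filt88 φ W₀ (i + 1))) :=
  (Submodule.mkQ _) ∘ₗ
    (LinearMap.codRestrict (filt88 φ W₀ (i + 1)) ((φ ^ (i + 1)) ∘ₗ W₀.subtype) fun v =>
      filt_pow88 φ W₀ (i + 1) (Submodule.mem_map_of_mem v.2))

private lemma gr_ker88 (φ : V →ₗ[B] V) (W₀ : Submodule B V) (i : ℕ) (v : W₀) :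
    v ∈ LinearMap.ker (gr88 φ W₀ i) ↔ (φ ^ (i + 1)) (v : V) ∈ filt88 φ W₀ i := by
  rw [LinearMap.mem_ker]
  unfold gr88
  rw [LinearMap.comp_apply, Submodule.mkQ_apply, Submodule.Quotient.mk_eq_zero]
  rfl

private lemma gr_surj88 (φ : V →ₗ[B] V) (W₀ : Submodule B V) (i : ℕ) : Function.Surjective (gr88 φ W₀ i) := by
  intro z
  obtain ⟨⟨w, hw⟩, rfl⟩ := Submodule.Quotient.mk_surjective _ z
  obtain ⟨a, ha, b, hb, hab⟩ := Submodule.mem_sup.mp hw
  obtain ⟨v, hv, rfl⟩ := Submodule.mem_map.mp hb
  refine ⟨⟨v, hv⟩, ?_⟩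
  unfold gr88
  rw [LinearMap.comp_apply, Submodule.mkQ_apply, Submodule.Quotient.eq]
  change (φ ^ (i + 1)) v - w ∈ filt88 φ W₀ i
  have : (φ ^ (i + 1)) v - w = -a := by
    rw [← hab]
    abel
  rw [this]
  exact neg_mem ha

private lemma gr_mono88 (φ : V →ₗ[B] V) (W₀ : Submodule B V) : Monotone fun i => LinearMap.ker (gr88 φ W₀ i) := by
  refine monotone_nat_of_le_succ fun i v hv => ?_
  rw [gr_ker88] at hv ⊢
  refine filt_step88 φ W₀ i ⟨_, hv, ?_⟩
  rw [pow_succ' φ (i + 1)]
  rfl

variable {C : Type u} [CommRing C] [Algebra C B] [Module C V] [IsScalarTower C B V]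

private lemma of_equiv88 (F : C) {V₁ V₂ : Type u} [AddCommGroup V₁] [Module C V₁] [Module B V₁] [IsScalarTower C B V₁]
    [AddCommGroup V₂] [Module C V₂] [Module B V₂] [IsScalarTower C B V₂] (e : V₁ ≃ₗ[B] V₂) (h : TorFlat F V₁) :
    TorFlat F V₂ := h.of_equiv (e.restrictScalars C)

private lemma step88 (F : C) (P Q : Submodule B V) (hPQ : P ≤ Q) (h1 : TorFlat F P)
    (h2 : TorFlat F (Q ⧸ P.submoduleOf Q)) : TorFlat F Q := by
  let f : P →ₗ[C] Q := (Submodule.inclusion hPQ).restrictScalars C
  let g : Q →ₗ[C] (Q ⧸ P.submoduleOf Q) := (Submodule.mkQ (P.submoduleOf Q)).restrictScalars C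
  have hf : Function.Injective f := Submodule.inclusion_injective hPQ
  have hg : Function.Surjective g := by
    intro z
    obtain ⟨w, hw⟩ := Submodule.mkQ_surjective (P.submoduleOf Q) z
    exact ⟨w, hw⟩
  refine TorFlat.of_exact f g hf ?_ hg h1 h2
  intro z
  constructor
  · intro hz
    have h3 : z ∈ P.submoduleOf Q := by
      rw [← Submodule.Quotient.mk_eq_zero]
      exact hz
    exact ⟨⟨z.1, h3⟩, rfl⟩
  · rintro ⟨w, rfl⟩
    change Submodule.Quotient.mk _ = _
    rw [Submodule.Quotient.mk_eq_zero]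
    exact w.2

private lemma union88 (F : C) (W : ℕ → Submodule B V) (hWm : Monotone W) (hunion : ∀ v : V, ∃ i, v ∈ W i)
    (hW : ∀ i, TorFlat F (W i)) : TorFlat F V := by
  refine TorFlat.of_iSup (fun i => (W i).restrictScalars C) (fun i j hij v hv => hWm hij hv) hunion fun i => ?_
  exact (hW i).of_equiv ((Submodule.restrictScalarsEquiv C B V (W i)).symm.restrictScalars C)

end Filtration88

theorem generic_flat_adjoin {C : Type u} [CommRing C] [IsDomain C] [IsNoetherianRing C] (n : ℕ) :
    ∀ (A' : Type u) [CommRing A'] [Algebra C A'] (s : Finset A'), s.card = n →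
      Algebra.adjoin C (s : Set A') = ⊤ →
      ∀ (V : Type u) [AddCommGroup V] [Module C V] [Module A' V] [IsScalarTower C A' V]
        [Module.Finite A' V], ∃ F : C, F ≠ 0 ∧ TorFlat F V := by
  classical
  induction n with
  | zero =>
    intro A' _ _ s hs hadj V _ _ _ _ _
    have h1 : Module.Finite C A' := by
      refine Module.Finite.of_surjective (Algebra.linearMap C A') fun a => ?_
      have h2 : a ∈ Algebra.adjoin C (s : Set A') := by rw [hadj]; trivial
      rw [Finset.card_eq_zero.mp hs, Finset.coe_empty, Algebra.adjoin_empty, Algebra.mem_bot] at h2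
      exact h2
    have h2 : Module.Finite C V := Module.Finite.trans A' V
    exact TorFlat.exists_of_finite V
  | succ n ih =>
    intro A' _ _ s hs hadj V _ _ _ _ _
    obtain ⟨y, s', hy, hins, hs'⟩ := Finset.card_eq_succ.mp hs
    set B : Subalgebra C A' := Algebra.adjoin C (s' : Set A') with hB
    -- the Noetherian ring `B`
    have hBft : Algebra.FiniteType C B := (Subalgebra.fg_iff_finiteType B).mp (Subalgebra.fg_adjoin_finset s')
    have hBN : IsNoetherianRing B := Algebra.FiniteType.isNoetherianRing C B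
    -- generators of `B`
    obtain ⟨t, ht, htadj⟩ : ∃ t : Finset B, t.card = n ∧ Algebra.adjoin C (t : Set B) = ⊤ := by
      let ι : {x // x ∈ s'} ↪ B := ⟨fun x => ⟨x.1, Algebra.subset_adjoin x.2⟩, fun a b hab =>
        Subtype.ext (congrArg (fun z : B => (z : A')) hab)⟩
      refine ⟨s'.attach.map ι, ?_, ?_⟩
      · rw [Finset.card_map, Finset.card_attach]
        exact hs'
      · have h3 : ((s'.attach.map ι : Finset B) : Set B) = ((↑) : B → A') ⁻¹' (s' : Set A') := by
          ext z
          rw [Finset.mem_coe, Finset.mem_map, Set.mem_preimage, Finset.mem_coe]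
          constructor
          · rintro ⟨a, _, rfl⟩
            exact a.2
          · intro hz
            exact ⟨⟨z, hz⟩, Finset.mem_attach _ _, rfl⟩
        rw [h3]
        exact Algebra.adjoin_adjoin_coe_preimage
    -- the endomorphism `y`
    let φ : V →ₗ[B] V :=
      { toFun := fun v => y • v
        map_add' := fun v w => smul_add y v w
        map_smul' := fun b v => by
          change y • ((b : A') • v) = (b : A') • (y • v)
          rw [smul_smul, smul_smul, mul_comm] }
    obtain ⟨G, hG⟩ := (Module.Finite.fg_top : (⊤ : Submodule A' V).FG)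
    let W₀ : Submodule B V := Submodule.span B (G : Set V)
    have hW₀ : Module.Finite B W₀ := Module.Finite.span_finset B G
    have hNoeth : IsNoetherian B W₀ := isNoetherian_of_isNoetherianRing_of_finite B W₀
    let W : ℕ → Submodule B V := filt88 φ W₀
    have hWm : Monotone W := filt_mono88 φ W₀
    -- the union of the filtration
    have hact : ∀ a : A', ∃ k, ∀ i, ∀ w ∈ W i, a • w ∈ W (i + k) := by
      intro a
      have ha : a ∈ Algebra.adjoin C ((insert y s' : Finset A') : Set A') := by
        rw [hins, hadj]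
        trivial
      induction ha using Algebra.adjoin_induction with
      | mem x hx =>
        rw [Finset.coe_insert, Set.mem_insert_iff] at hx
        rcases hx with rfl | hx
        · exact ⟨1, fun i w hw => filt_step88 φ W₀ i ⟨w, hw, rfl⟩⟩
        · exact ⟨0, fun i w hw => (W i).smul_mem (⟨x, Algebra.subset_adjoin hx⟩ : B) hw⟩
      | algebraMap c =>
        refine ⟨0, fun i w hw => ?_⟩
        exact (W i).smul_mem (algebraMap C B c) hw
      | add x z _ _ hx hz =>
        obtain ⟨k, hk⟩ := hx
        obtain ⟨l, hl⟩ := hz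
        refine ⟨k + l, fun i w hw => ?_⟩
        rw [add_smul]
        exact (W _).add_mem (hWm (by omega) (hk i w hw)) (hWm (by omega) (hl i w hw))
      | mul x z _ _ hx hz =>
        obtain ⟨k, hk⟩ := hx
        obtain ⟨l, hl⟩ := hz
        refine ⟨l + k, fun i w hw => ?_⟩
        rw [mul_smul, ← add_assoc]
        exact hk _ _ (hl i w hw)
    have hunion : ∀ v : V, ∃ i, v ∈ W i := by
      intro v
      have hv : v ∈ Submodule.span A' (G : Set V) := by rw [hG]; trivial
      induction hv using Submodule.span_induction with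
      | mem x hx => exact ⟨0, Submodule.subset_span hx⟩
      | zero => exact ⟨0, (W 0).zero_mem⟩
      | add x z _ _ hx hz =>
        obtain ⟨k, hk⟩ := hx
        obtain ⟨l, hl⟩ := hz
        exact ⟨k + l, (W _).add_mem (hWm (by omega) hk) (hWm (by omega) hl)⟩
      | smul a x _ hx =>
        obtain ⟨k, hk⟩ := hx
        obtain ⟨l, hl⟩ := hact a
        exact ⟨k + l, hl k x hk⟩
    -- the stable kernels
    let N : ℕ → Submodule B W₀ := fun i => LinearMap.ker (gr88 φ W₀ i)
    obtain ⟨i₀, hi₀⟩ := monotone_stabilizes_iff_noetherian.mpr hNoeth ⟨N, gr_mono88 φ W₀⟩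
    obtain ⟨F₀, hF₀, hT₀⟩ := ih B t ht htadj W₀
    have hq : ∀ i, ∃ F : C, F ≠ 0 ∧ TorFlat F (W₀ ⧸ N i) := fun i => ih B t ht htadj (W₀ ⧸ N i)
    choose Fq hFq hTq using hq
    let F : C := F₀ * ∏ i ∈ Finset.range (i₀ + 1), Fq i
    have hF : F ≠ 0 := mul_ne_zero hF₀ (Finset.prod_ne_zero_iff.mpr fun i _ => hFq i)
    have hTF₀ : TorFlat F W₀ := hT₀.mul_right _
    have hTFle : ∀ i ≤ i₀, TorFlat F (W₀ ⧸ N i) := by
      intro i hi
      have h1 : F = Fq i * (F₀ * ∏ k ∈ (Finset.range (i₀ + 1)).erase i, Fq k) := by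
        change F₀ * ∏ i ∈ Finset.range (i₀ + 1), Fq i = _
        rw [← Finset.mul_prod_erase (Finset.range (i₀ + 1)) Fq (Finset.mem_range.mpr (by omega : i < i₀ + 1))]
        ring
      rw [h1]
      exact (hTq i).mul_right _
    have hTF : ∀ i, TorFlat F (W₀ ⧸ N i) := by
      intro i
      rcases Nat.le_total i i₀ with h | h
      · exact hTFle i h
      · have h2 : N i₀ = N i := hi₀ i h
        rw [← h2]
        exact hTFle i₀ le_rfl
    -- all steps of the filtration
    have hW : ∀ i, TorFlat F (W i) := by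
      intro i
      induction i with
      | zero => exact hTF₀
      | succ i ihi =>
        have e : (W₀ ⧸ N i) ≃ₗ[B] (W (i + 1) ⧸ (W i).submoduleOf (W (i + 1))) :=
          LinearMap.quotKerEquivOfSurjective (gr88 φ W₀ i) (gr_surj88 φ W₀ i)
        exact step88 F (W i) (W (i + 1)) (hWm (Nat.le_succ i)) ihi (of_equiv88 F e (hTF i))
    exact ⟨F, hF, union88 F W hWm hunion hW⟩

theorem generic_flat {C : Type u} [CommRing C] [IsDomain C] [IsNoetherianRing C]
    {A' : Type u} [CommRing A'] [Algebra C A'] [Algebra.FiniteType C A']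
    (V : Type u) [AddCommGroup V] [Module C V] [Module A' V] [IsScalarTower C A' V]
    [Module.Finite A' V] : ∃ F : C, F ≠ 0 ∧ TorFlat F V := by
  obtain ⟨s, hs⟩ := (Algebra.FiniteType.out : (⊤ : Subalgebra C A').FG)
  exact generic_flat_adjoin s.card A' s rfl hs V

end Pool.Helper49.DP
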