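import Mathlib
import Pool.Agent.Helper49.DP.Var

/-!
Project DP (MP_f60bb9_ag).  Block DP-16: the universal general elements form a weakly regular
sequence.

`B` a commutative ring, `ι` a type, `K p` finite types, `S = Σ p, K p` the index set of the
coefficients, `y p, z p κ ∈ B`, and for each `p` one `κ0 p` with `z p (κ0 p)` a unit.  In
`P = MvPolynomial S B` put `Θ p = C (y p) - ∑ κ, X ⟨p, κ⟩ * C (z p κ)`.

There is a `B`-algebra automorphism `τ` of `P` with `τ (X ⟨p, κ⟩) = X ⟨p, κ⟩` for `κ ≠ κ0 p` and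
`τ (X ⟨p, κ0 p⟩) = Θ p`.  Both `τ` and its inverse are `MvPolynomial.aeval`s; the inverse sends
`X ⟨p, κ0 p⟩` to `C z⁻¹ * (C (y p) - ∑ κ ≠ κ0 p, X ⟨p, κ⟩ * C (z p κ) - X ⟨p, κ0 p⟩)`, `z = z p (κ0 p)`
(check both compositions on the variables, `AlgEquiv.ofAlgHom`, `MvPolynomial.algHom_ext`).

`isWeaklyRegular_Theta`: for a list `L` of distinct indices, the list of the `Θ p`, `p ∈ L`, is
weakly regular on `P ⊗[B] U`: `isWeaklyRegular_X` for the list of the variables
`⟨p, κ0 p⟩` (distinct), transported by the semilinear (for `τ`) equivalence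
`τ ⊗ id : P ⊗[B] U → P ⊗[B] U` (`TensorProduct.congr τ.toLinearEquiv (LinearEquiv.refl)`), with
`AddEquiv.isWeaklyRegular_congr` (`List.Forall₂` between `L.map X` and `L.map Θ`;
`(τ ⊗ id) (X • w) = τ X • (τ ⊗ id) w`, by `TensorProduct.induction_on`).
-/

namespace Pool.Helper49.DP

open RingTheory.Sequence TensorProduct MvPolynomial

universe u v w

/-- The universal general element with index `p`. -/
noncomputable def bigTheta {B : Type u} [CommRing B] {ι : Type w} {K : ι → Type w}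
    [∀ p, Fintype (K p)] (y : ι → B) (z : ∀ p, K p → B) (p : ι) :
    MvPolynomial (Σ p, K p) B :=
  C (y p) - ∑ κ, X ⟨p, κ⟩ * C (z p κ)

section Aut

variable {B : Type u} [CommRing B] {ι : Type w} {K : ι → Type w} [∀ p, Fintype (K p)]

open Classical in
/-- The sum over the indices different from `κ0 p`. -/
private noncomputable def rest_h54 (z : ∀ p, K p → B) (κ0 : ∀ p, K p) (p : ι) :
    MvPolynomial (Σ p, K p) B :=
  ∑ κ ∈ Finset.univ.erase (κ0 p), X ⟨p, κ⟩ * C (z p κ)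

private theorem bigTheta_eq_h54 (y : ι → B) (z : ∀ p, K p → B) (κ0 : ∀ p, K p) (p : ι) :
    bigTheta y z p = C (y p) - (X ⟨p, κ0 p⟩ * C (z p (κ0 p)) + rest_h54 z κ0 p) := by
  classical
  unfold bigTheta rest_h54
  have h := Finset.add_sum_erase Finset.univ
    (fun κ : K p => (X (⟨p, κ⟩ : Σ p, K p) * C (z p κ) : MvPolynomial (Σ p, K p) B))
    (Finset.mem_univ (κ0 p))
  rw [← h]

open Classical in
/-- The forward map. -/
private noncomputable def tau_h54 (y : ι → B) (z : ∀ p, K p → B) (κ0 : ∀ p, K p) :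
    MvPolynomial (Σ p, K p) B →ₐ[B] MvPolynomial (Σ p, K p) B :=
  aeval fun s => if s.2 = κ0 s.1 then bigTheta y z s.1 else X s

open Classical in
/-- The backward map. -/
private noncomputable def sig_h54 (y : ι → B) (z : ∀ p, K p → B) (κ0 : ∀ p, K p)
    (zi : ι → B) : MvPolynomial (Σ p, K p) B →ₐ[B] MvPolynomial (Σ p, K p) B :=
  aeval fun s => if s.2 = κ0 s.1 then C (zi s.1) * (C (y s.1) - rest_h54 z κ0 s.1 - X s)
    else X s

private theorem tau_X_h54 (y : ι → B) (z : ∀ p, K p → B) (κ0 : ∀ p, K p) (p : ι) :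
    tau_h54 y z κ0 (X ⟨p, κ0 p⟩) = bigTheta y z p := by
  simp [tau_h54]

private theorem tau_X_ne_h54 (y : ι → B) (z : ∀ p, K p → B) (κ0 : ∀ p, K p) (p : ι) (κ : K p)
    (h : κ ≠ κ0 p) : tau_h54 y z κ0 (X ⟨p, κ⟩) = X ⟨p, κ⟩ := by
  simp [tau_h54, h]

private theorem sig_X_h54 (y : ι → B) (z : ∀ p, K p → B) (κ0 : ∀ p, K p) (zi : ι → B) (p : ι) :
    sig_h54 y z κ0 zi (X ⟨p, κ0 p⟩) =
      C (zi p) * (C (y p) - rest_h54 z κ0 p - X ⟨p, κ0 p⟩) := by
  simp [sig_h54]

private theorem sig_X_ne_h54 (y : ι → B) (z : ∀ p, K p → B) (κ0 : ∀ p, K p) (zi : ι → B)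
    (p : ι) (κ : K p) (h : κ ≠ κ0 p) : sig_h54 y z κ0 zi (X ⟨p, κ⟩) = X ⟨p, κ⟩ := by
  simp [sig_h54, h]

private theorem tau_rest_h54 (y : ι → B) (z : ∀ p, K p → B) (κ0 : ∀ p, K p) (p : ι) :
    tau_h54 y z κ0 (rest_h54 z κ0 p) = rest_h54 z κ0 p := by
  classical
  unfold rest_h54
  rw [map_sum]
  refine Finset.sum_congr rfl fun κ hκ => ?_
  rw [map_mul, tau_X_ne_h54 y z κ0 p κ (Finset.ne_of_mem_erase hκ), algHom_C]
  rfl

private theorem sig_rest_h54 (y : ι → B) (z : ∀ p, K p → B) (κ0 : ∀ p, K p) (zi : ι → B)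
    (p : ι) : sig_h54 y z κ0 zi (rest_h54 z κ0 p) = rest_h54 z κ0 p := by
  classical
  unfold rest_h54
  rw [map_sum]
  refine Finset.sum_congr rfl fun κ hκ => ?_
  rw [map_mul, sig_X_ne_h54 y z κ0 zi p κ (Finset.ne_of_mem_erase hκ), algHom_C]
  rfl

/-- The automorphism `τ`. -/
private noncomputable def tauEquiv_h54 (y : ι → B) (z : ∀ p, K p → B) (κ0 : ∀ p, K p)
    (zi : ι → B) (hzi : ∀ p, z p (κ0 p) * zi p = 1) :
    MvPolynomial (Σ p, K p) B ≃ₐ[B] MvPolynomial (Σ p, K p) B :=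
  AlgEquiv.ofAlgHom (tau_h54 y z κ0) (sig_h54 y z κ0 zi)
    (by
      refine MvPolynomial.algHom_ext fun s => ?_
      obtain ⟨p, κ⟩ := s
      rw [AlgHom.comp_apply, AlgHom.id_apply]
      by_cases h : κ = κ0 p
      · subst h
        have hC : (C (z p (κ0 p)) * C (zi p) : MvPolynomial (Σ p, K p) B) = 1 := by
          rw [← C_mul, hzi, C_1]
        rw [sig_X_h54, map_mul, map_sub, map_sub, tau_rest_h54, tau_X_h54,
          bigTheta_eq_h54 y z κ0 p, algHom_C, algHom_C]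
        change C (zi p) * (C (y p) - rest_h54 z κ0 p -
          (C (y p) - (X ⟨p, κ0 p⟩ * C (z p (κ0 p)) + rest_h54 z κ0 p))) = X ⟨p, κ0 p⟩
        linear_combination (X ⟨p, κ0 p⟩ : MvPolynomial (Σ p, K p) B) * hC
      · rw [sig_X_ne_h54 y z κ0 zi p κ h, tau_X_ne_h54 y z κ0 p κ h])
    (by
      refine MvPolynomial.algHom_ext fun s => ?_
      obtain ⟨p, κ⟩ := s
      rw [AlgHom.comp_apply, AlgHom.id_apply]
      by_cases h : κ = κ0 p
      · subst h
        have hC : (C (z p (κ0 p)) * C (zi p) : MvPolynomial (Σ p, K p) B) = 1 := by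
          rw [← C_mul, hzi, C_1]
        rw [tau_X_h54, bigTheta_eq_h54 y z κ0 p, map_sub, map_add, map_mul, sig_rest_h54,
          sig_X_h54, algHom_C, algHom_C]
        change C (y p) - (C (zi p) * (C (y p) - rest_h54 z κ0 p - X ⟨p, κ0 p⟩) *
          C (z p (κ0 p)) + rest_h54 z κ0 p) = X ⟨p, κ0 p⟩
        linear_combination (-(C (y p) - rest_h54 z κ0 p - X ⟨p, κ0 p⟩) :
          MvPolynomial (Σ p, K p) B) * hC
      · rw [tau_X_ne_h54 y z κ0 p κ h, sig_X_ne_h54 y z κ0 zi p κ h])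

private theorem tauEquiv_X_h54 (y : ι → B) (z : ∀ p, K p → B) (κ0 : ∀ p, K p)
    (zi : ι → B) (hzi : ∀ p, z p (κ0 p) * zi p = 1) (p : ι) :
    tauEquiv_h54 y z κ0 zi hzi (X ⟨p, κ0 p⟩) = bigTheta y z p :=
  tau_X_h54 y z κ0 p

end Aut

theorem isWeaklyRegular_Theta {B : Type u} [CommRing B] {ι : Type w} {K : ι → Type w}
    [∀ p, Fintype (K p)] (y : ι → B) (z : ∀ p, K p → B) (κ0 : ∀ p, K p)
    (hz : ∀ p, IsUnit (z p (κ0 p))) (U : Type v) [AddCommGroup U] [Module B U] (L : List ι)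
    (hL : L.Nodup) :
    IsWeaklyRegular (MvPolynomial (Σ p, K p) B ⊗[B] U) (L.map (bigTheta y z)) := by
  choose zi hzi using fun p => (hz p).exists_right_inv
  let e : (MvPolynomial (Σ p, K p) B ⊗[B] U) ≃ₗ[B] (MvPolynomial (Σ p, K p) B ⊗[B] U) :=
    TensorProduct.congr (tauEquiv_h54 y z κ0 zi hzi).toLinearEquiv (LinearEquiv.refl B U)
  have he : ∀ (f : MvPolynomial (Σ p, K p) B) (w : MvPolynomial (Σ p, K p) B ⊗[B] U),
      e (f • w) = tauEquiv_h54 y z κ0 zi hzi f • e w := by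
    intro f w
    induction w using TensorProduct.induction_on with
    | zero => simp
    | tmul g u =>
      rw [TensorProduct.smul_tmul', smul_eq_mul]
      change TensorProduct.congr _ _ _ = _ • TensorProduct.congr _ _ _
      rw [TensorProduct.congr_tmul, TensorProduct.congr_tmul, TensorProduct.smul_tmul',
        smul_eq_mul]
      change (tauEquiv_h54 y z κ0 zi hzi (f * g)) ⊗ₜ[B] u =
        (tauEquiv_h54 y z κ0 zi hzi f * tauEquiv_h54 y z κ0 zi hzi g) ⊗ₜ[B] u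
      rw [map_mul]
    | add a b ha hb => rw [smul_add, map_add, ha, hb, map_add, smul_add]
  have hX : IsWeaklyRegular (MvPolynomial (Σ p, K p) B ⊗[B] U)
      ((L.map fun p => (⟨p, κ0 p⟩ : Σ p, K p)).map
        (X : (Σ p, K p) → MvPolynomial (Σ p, K p) B)) := by
    refine isWeaklyRegular_X U _ (hL.map ?_)
    intro p q h
    exact congrArg Sigma.fst h
  refine (AddEquiv.isWeaklyRegular_congr (e := e.toAddEquiv) ?_).1 hX
  rw [List.map_map, List.forall₂_map_left_iff, List.forall₂_map_right_iff]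
  refine List.forall₂_same.2 fun p _ w => ?_
  have := he (X ⟨p, κ0 p⟩) w
  rw [tauEquiv_X_h54] at this
  exact this

end Pool.Helper49.DP
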