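import Mathlib
import Pool.Agent.Helper49.DP.GF2
import Pool.Agent.Helper49.DP.FL
import Pool.Agent.Helper49.DP.Theta

/-!
Project DP (MP_f60bb9_ag).  Block DP-17: general position.

`k` a field, `B` a finite type commutative `k`-algebra, `U` a finite `B`-module, `y p, z p κ ∈ B`
(`p ∈ ι`, `κ ∈ K p`, finite), one `z p (κ0 p)` a unit for every `p`.  For coefficients
`α : (Σ p, K p) → k` put `θ_α p = y p - ∑ κ, α ⟨p, κ⟩ • z p κ ∈ B`.  Then there is a nonzero
polynomial `F` over `k` in the coefficients such that for all `α` with `F(α) ≠ 0`, the list of the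
`θ_α p`, `p ∈ L`, is weakly regular on `U`.

Proof.  `S = Σ p, K p` is finite.  `C = MvPolynomial S k`, a Noetherian domain.
`P = MvPolynomial S B` is a `C`-algebra of finite type (Mathlib has the algebra instance
`MvPolynomial S k → MvPolynomial S B`, `MvPolynomial.algebraMvPolynomial`; or use
`(MvPolynomial.map (algebraMap k B)).toAlgebra`): generated by the `C b`, `b` in a finite
generating set of `B` over `k`.  `W = P ⊗[B] U`, a finite `P`-module.  The list `Θ` of the
`bigTheta y z p`, `p ∈ L`, is weakly regular on `W` (`isWeaklyRegular_Theta`).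
For each decomposition `L = L₁ ++ p :: L₂` let `V = W ⧸ (Θ(L₁)) • ⊤`; multiplication by `Θ p` on `V`
is injective, and `V ⧸ range` is a finite `P`-module, so by `generic_flat` some `F_{L₁} ≠ 0` in
`C` has `TorFlat F_{L₁} (V ⧸ range)`.  `F` = the product over the finitely many prefixes `L₁`.
(Modules over `C`: `Module.compHom`, or restriction of scalars; `W` is a `P`-module and `P` a
`C`-algebra.)
Let `F(α) ≠ 0`, i.e. `eval α F ≠ 0`.  Let `ev : P → B` be the `B`-algebra map `X s ↦ algebraMap k B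
(α s)`; `ev (bigTheta y z p) = θ_α p`; `ev` restricted to `C` is `eval α : C → k → B`.  Let
`ε : W → U` be `ev ⊗ id` (followed by `B ⊗ U ≃ U`): `ε (f • w) = ev f • ε w` for `f ∈ P`,
`ε (1 ⊗ u) = u`.  Let `𝔞 = ker (eval α : C → k)`.  For `f ∈ P`: `f - C (ev f)` is in the ideal
`𝔞 P` (it is generated by the `X s - C (α s)`; prove by `MvPolynomial.induction_on`), so
`f • (1 ⊗ u) - 1 ⊗ (ev f • u) ∈ 𝔞 • ⊤` (as `C (ev f) • (1 ⊗ u) = 1 ⊗ (ev f • u)`).
Let `u ∈ U` with `θ_α p • u ∈ (θ_α(L₁)) U`, `θ_α p • u = ∑_{q ∈ L₁} θ_α q • u_q`.  Then in `W`,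
`Θ p • (1 ⊗ u) - ∑_q Θ q • (1 ⊗ u_q) ∈ 𝔞 • ⊤`.  So in `V`: `Θ p • [1 ⊗ u] ∈ 𝔞 • ⊤`, and
by `exists_pow_smul_mem` `F_{L₁} ^ e • [1 ⊗ u] ∈ 𝔞 • ⊤` in `V`, i.e.
`F_{L₁} ^ e • (1 ⊗ u) ∈ (Θ(L₁)) • ⊤ + 𝔞 • ⊤` in `W`.  Apply `ε`: `F_{L₁}(α) ^ e • u ∈ (θ_α(L₁)) U`
(`ε` kills `𝔞 • ⊤`), and `F_{L₁}(α)` is a nonzero element of `k`, so `u ∈ (θ_α(L₁)) U`.
Hence `θ_α p` is regular on `U ⧸ (θ_α(L₁)) • ⊤`.
-/

namespace Pool.Helper49.DP

open RingTheory.Sequence TensorProduct MvPolynomial

universe u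

private theorem abs_step4 {C P : Type u} [CommRing C] [IsDomain C] [IsNoetherianRing C] [CommRing P]
    [Algebra C P] [Algebra.FiniteType C P] {W : Type u} [AddCommGroup W] [Module C W] [Module P W]
    [IsScalarTower C P W] [Module.Finite P W] (J : Submodule P W) (θ : P)
    (hθ : IsSMulRegular (W ⧸ J) θ) :
    ∃ F : C, F ≠ 0 ∧ ∀ (𝔞 : Ideal C) (w : W),
      θ • w ∈ J.restrictScalars C ⊔ (𝔞 • ⊤ : Submodule C W) →
        ∃ e : ℕ, F ^ e • w ∈ J.restrictScalars C ⊔ (𝔞 • ⊤ : Submodule C W) := by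
  let g : (W ⧸ J) →ₗ[P] (W ⧸ J) := LinearMap.lsmul P (W ⧸ J) θ
  let f : (W ⧸ J) →ₗ[C] (W ⧸ J) := g.restrictScalars C
  obtain ⟨F, hF0, hF⟩ := generic_flat (C := C) (A' := P) ((W ⧸ J) ⧸ LinearMap.range g)
  have hrange : LinearMap.range f = (LinearMap.range g).restrictScalars C :=
    LinearMap.range_restrictScalars g
  have hF' : TorFlat F ((W ⧸ J) ⧸ LinearMap.range f) := by
    rw [hrange]
    exact hF.of_equiv (Submodule.Quotient.restrictScalarsEquiv C (LinearMap.range g)).symm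
  have hinj : Function.Injective f := by
    intro x y hxy
    exact hθ hxy
  refine ⟨F, hF0, ?_⟩
  intro 𝔞 w hw
  let q : W →ₗ[C] (W ⧸ J) := J.mkQ.restrictScalars C
  have hq : Function.Surjective q := Submodule.mkQ_surjective J
  have hmap : (𝔞 • ⊤ : Submodule C (W ⧸ J)) = (𝔞 • ⊤ : Submodule C W).map q := by
    rw [Submodule.map_smul'', Submodule.map_top, LinearMap.range_eq_top.2 hq]
  have hker : ∀ v, v ∈ J.restrictScalars C → q v = 0 := by
    intro v hv
    exact (Submodule.Quotient.mk_eq_zero J).2 hv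
  have h1 : f (q w) ∈ (𝔞 • ⊤ : Submodule C (W ⧸ J)) := by
    obtain ⟨a, ha, b, hb, hab⟩ := Submodule.mem_sup.1 hw
    have h2 : f (q w) = q (θ • w) := rfl
    rw [h2, ← hab, map_add, hker a ha, zero_add, hmap]
    exact ⟨b, hb, rfl⟩
  obtain ⟨e, he⟩ := exists_pow_smul_mem f hinj hF' 𝔞 h1
  refine ⟨e, ?_⟩
  rw [hmap] at he
  obtain ⟨b, hb, hbe⟩ := he
  have h3 : F ^ e • w - b ∈ J.restrictScalars C := by
    have h4 : q (F ^ e • w - b) = 0 := by rw [map_sub, hbe, map_smul, sub_self]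
    exact (Submodule.Quotient.mk_eq_zero J).1 h4
  have h5 : F ^ e • w = (F ^ e • w - b) + b := by abel
  rw [h5]
  exact Submodule.add_mem_sup h3 hb

private theorem abs_main4 {C P B : Type u} [CommRing C] [IsDomain C] [IsNoetherianRing C]
    [CommRing P] [Algebra C P] [Algebra.FiniteType C P] [CommRing B] {W U : Type u}
    [AddCommGroup W] [Module C W] [Module P W] [IsScalarTower C P W] [Module.Finite P W]
    [AddCommGroup U] [Module B U] (Θ : List P) (hΘ : IsWeaklyRegular W Θ) :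
    ∃ F : C, F ≠ 0 ∧ ∀ (ev : P →+* B), Function.Surjective ev → ∀ (ε : W →+ U),
      (∀ (f : P) (w : W), ε (f • w) = ev f • ε w) → ∀ (η : U →+ W), (∀ u, ε (η u) = u) →
      ∀ (𝔞 : Ideal C), (∀ c ∈ 𝔞, ev (algebraMap C P c) = 0) →
      (∀ (f : P) (u : U), f • η u - η (ev f • u) ∈ (𝔞 • ⊤ : Submodule C W)) →
      IsUnit (ev (algebraMap C P F)) → IsWeaklyRegular U (Θ.map ev) := by
  classical
  have hstep : ∀ i : Fin Θ.length, ∃ F : C, F ≠ 0 ∧ ∀ (𝔞 : Ideal C) (w : W),
      Θ[i] • w ∈ (Ideal.ofList (Θ.take i) • ⊤ : Submodule P W).restrictScalars C ⊔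
        (𝔞 • ⊤ : Submodule C W) →
        ∃ e : ℕ, F ^ e • w ∈ (Ideal.ofList (Θ.take i) • ⊤ : Submodule P W).restrictScalars C ⊔
          (𝔞 • ⊤ : Submodule C W) := by
    intro i
    exact abs_step4 _ _ ((isWeaklyRegular_iff_Fin W Θ).1 hΘ i)
  choose F hF0 hF using hstep
  refine ⟨∏ i, F i, Finset.prod_ne_zero_iff.2 fun i _ => hF0 i, ?_⟩
  intro ev hev ε hε η hεη 𝔞 h𝔞 hη hunit
  rw [map_prod, map_prod] at hunit
  have hunit' : ∀ i, IsUnit (ev (algebraMap C P (F i))) := by
    intro i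
    exact isUnit_of_dvd_unit (Finset.dvd_prod_of_mem
      (fun x => ev (algebraMap C P (F x))) (Finset.mem_univ i)) hunit
  have hεC : ∀ (c : C) (w : W), ε (c • w) = ev (algebraMap C P c) • ε w := by
    intro c w
    rw [← hε, algebraMap_smul]
  have hε𝔞 : ∀ w ∈ (𝔞 • ⊤ : Submodule C W), ε w = 0 := by
    intro w hw
    refine Submodule.smul_induction_on hw ?_ ?_
    · intro c hc v _
      rw [hεC, h𝔞 c hc, zero_smul]
    · intro a b ha hb
      rw [map_add, ha, hb, add_zero]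
  rw [isWeaklyRegular_iff_Fin]
  intro i
  rw [isSMulRegular_iff_right_eq_zero_of_smul]
  intro x hx
  have hi : (i : ℕ) < Θ.length := by
    simpa using i.2
  obtain ⟨u, rfl⟩ := Submodule.mkQ_surjective _ x
  have hget : (Θ.map ev)[i] = ev (Θ[(⟨i, hi⟩ : Fin Θ.length)]) := by
    simp
  have htake : (Θ.map ev).take i = (Θ.take i).map ev := by
    rw [List.map_take]
  have hmem : ev (Θ[(⟨i, hi⟩ : Fin Θ.length)]) • u ∈
      (Ideal.ofList ((Θ.map ev).take i) • ⊤ : Submodule B U) := by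
    rw [← hget]
    rw [← map_smul] at hx
    exact (Submodule.Quotient.mk_eq_zero _).1 hx
  have hmapI : Ideal.ofList ((Θ.map ev).take i) = (Ideal.ofList (Θ.take i)).map ev := by
    rw [htake, Ideal.map_ofList]
  -- lift
  have hlift : ∀ v ∈ (Ideal.ofList ((Θ.map ev).take i) • ⊤ : Submodule B U),
      η v ∈ (Ideal.ofList (Θ.take i) • ⊤ : Submodule P W).restrictScalars C ⊔
        (𝔞 • ⊤ : Submodule C W) := by
    intro v hv
    refine Submodule.smul_induction_on hv ?_ ?_
    · intro r hr v _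
      rw [hmapI, Ideal.mem_map_iff_of_surjective ev hev] at hr
      obtain ⟨f, hf, rfl⟩ := hr
      have h1 := hη f v
      have h2 : η (ev f • v) = f • η v - (f • η v - η (ev f • v)) := by abel
      have h3 : f • η v ∈ (Ideal.ofList (Θ.take i) • ⊤ : Submodule P W) :=
        Submodule.smul_mem_smul hf Submodule.mem_top
      rw [h2]
      exact Submodule.sub_mem _ (Submodule.mem_sup_left
        ((Submodule.restrictScalars_mem C _ _).2 h3)) (Submodule.mem_sup_right h1)
    · intro a b ha hb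
      rw [map_add]
      exact Submodule.add_mem _ ha hb
  have hdown : ∀ w ∈ (Ideal.ofList (Θ.take i) • ⊤ : Submodule P W).restrictScalars C ⊔
        (𝔞 • ⊤ : Submodule C W),
        ε w ∈ (Ideal.ofList ((Θ.map ev).take i) • ⊤ : Submodule B U) := by
    intro w hw
    obtain ⟨a, ha, b, hb, rfl⟩ := Submodule.mem_sup.1 hw
    rw [map_add, hε𝔞 b hb, add_zero]
    have ha' : a ∈ (Ideal.ofList (Θ.take i) • ⊤ : Submodule P W) := ha
    refine Submodule.smul_induction_on ha' ?_ ?_
    · intro f hf v _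
      rw [hε, hmapI]
      exact Submodule.smul_mem_smul (Ideal.mem_map_of_mem ev hf) Submodule.mem_top
    · intro x y hx hy
      rw [map_add]
      exact Submodule.add_mem _ hx hy
  obtain ⟨e, he⟩ := hF ⟨i, hi⟩ 𝔞 (η u) (by
    have h1 := hη (Θ[(⟨i, hi⟩ : Fin Θ.length)]) u
    have h2 : Θ[(⟨i, hi⟩ : Fin Θ.length)] • η u =
        η (ev (Θ[(⟨i, hi⟩ : Fin Θ.length)]) • u) +
        (Θ[(⟨i, hi⟩ : Fin Θ.length)] • η u - η (ev (Θ[(⟨i, hi⟩ : Fin Θ.length)]) • u)) := by abel
    rw [h2]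
    exact Submodule.add_mem _ (hlift _ hmem) (Submodule.mem_sup_right h1))
  have h3 := hdown _ he
  rw [hεC, hεη, map_pow, map_pow] at h3
  obtain ⟨c, hc⟩ := (hunit' ⟨i, hi⟩).pow e
  rw [← hc] at h3
  have h4 := Submodule.smul_mem _ ((c⁻¹ : Bˣ) : B) h3
  rw [smul_smul, Units.inv_mul, one_smul] at h4
  exact (Submodule.Quotient.mk_eq_zero _).2 h4

private theorem abs_tensor4 {C P B : Type u} [CommRing C] [IsDomain C] [IsNoetherianRing C]
    [CommRing P] [Algebra C P] [Algebra.FiniteType C P] [CommRing B] [Algebra B P] {U : Type u}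
    [AddCommGroup U] [Module B U] [Module.Finite B U] (Θ : List P)
    (hΘ : IsWeaklyRegular (P ⊗[B] U) Θ) :
    ∃ F : C, F ≠ 0 ∧ ∀ (ev : P →ₐ[B] B) (𝔞 : Ideal C), (∀ c ∈ 𝔞, ev (algebraMap C P c) = 0) →
      (∀ f : P, f - algebraMap B P (ev f) ∈ 𝔞.map (algebraMap C P)) →
      IsUnit (ev (algebraMap C P F)) → IsWeaklyRegular U (Θ.map ev) := by
  have hsm : ∀ (c : C) (w : P ⊗[B] U), c • w = (algebraMap C P c) • w := fun c w =>
    (algebraMap_smul P c w).symm
  obtain ⟨F, hF0, hF⟩ := abs_main4 (C := C) (P := P) (B := B) (W := P ⊗[B] U) (U := U) Θ hΘ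
  refine ⟨F, hF0, ?_⟩
  intro ev 𝔞 h𝔞 hmap hunit
  let ε : (P ⊗[B] U) →ₗ[B] U :=
    (TensorProduct.lid B U).toLinearMap ∘ₗ (LinearMap.rTensor U ev.toLinearMap)
  have hεt : ∀ (f : P) (u : U), ε (f ⊗ₜ[B] u) = ev f • u := fun f u => rfl
  have hPsub : ∀ f ∈ 𝔞.map (algebraMap C P), ∀ (w : P ⊗[B] U),
      f • w ∈ (𝔞 • ⊤ : Submodule C (P ⊗[B] U)) := by
    intro f hf
    refine Submodule.span_induction ?_ ?_ ?_ ?_ hf
    · rintro _ ⟨c, hc, rfl⟩ w
      rw [← hsm]
      exact Submodule.smul_mem_smul hc Submodule.mem_top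
    · intro w
      rw [zero_smul]
      exact Submodule.zero_mem _
    · intro a b _ _ ha hb w
      rw [add_smul]
      exact Submodule.add_mem _ (ha w) (hb w)
    · intro g a _ ha w
      rw [smul_eq_mul, mul_comm, mul_smul]
      exact ha _
  have hmod : ∀ (f : P) (w : P ⊗[B] U), ε (f • w) = ev f • ε w := by
    intro f w
    induction w using TensorProduct.induction_on with
    | zero => rw [smul_zero, map_zero, smul_zero]
    | tmul g u => rw [TensorProduct.smul_tmul', smul_eq_mul, hεt, hεt, map_mul, mul_smul]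
    | add a b ha hb => rw [smul_add, map_add, ha, hb, map_add, smul_add]
  refine hF (ev : P →+* B) ?_ ε.toAddMonoidHom hmod
    (TensorProduct.mk B P U 1).toAddMonoidHom ?_ 𝔞 h𝔞 ?_ hunit
  · intro b
    exact ⟨algebraMap B P b, ev.commutes b⟩
  · intro u
    change ε (1 ⊗ₜ[B] u) = u
    rw [hεt, map_one, one_smul]
  · intro f u
    change f • (1 ⊗ₜ[B] u) - (1 ⊗ₜ[B] (ev f • u)) ∈ _
    have h1 : (1 ⊗ₜ[B] (ev f • u) : P ⊗[B] U) = (algebraMap B P (ev f)) • (1 ⊗ₜ[B] u) := by
      rw [TensorProduct.smul_tmul', smul_eq_mul, mul_one, ← TensorProduct.smul_tmul,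
        Algebra.smul_def, mul_one]
    rw [h1, ← sub_smul]
    exact hPsub _ (hmap f) _

theorem exists_general {k : Type u} [Field k] {B : Type u} [CommRing B] [Algebra k B]
    [Algebra.FiniteType k B] {ι : Type} [Finite ι] {K : ι → Type} [∀ p, Fintype (K p)]
    (y : ι → B) (z : ∀ p, K p → B) (κ0 : ∀ p, K p) (hz : ∀ p, IsUnit (z p (κ0 p)))
    (U : Type u) [AddCommGroup U] [Module B U] [Module.Finite B U] (L : List ι)
    (hL : L.Nodup) :
    ∃ F : MvPolynomial (Σ p, K p) k, F ≠ 0 ∧ ∀ α : (Σ p, K p) → k, eval α F ≠ 0 →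
      IsWeaklyRegular U (L.map fun p => y p - ∑ κ, algebraMap k B (α ⟨p, κ⟩) * z p κ) := by
  classical
  haveI : Fintype ι := Fintype.ofFinite ι
  letI algCP : Algebra (MvPolynomial (Σ p, K p) k) (MvPolynomial (Σ p, K p) B) :=
    (MvPolynomial.map (algebraMap k B)).toAlgebra
  have halg : ∀ f : MvPolynomial (Σ p, K p) k,
      algebraMap (MvPolynomial (Σ p, K p) k) (MvPolynomial (Σ p, K p) B) f =
        MvPolynomial.map (algebraMap k B) f := fun _ => rfl
  haveI : IsScalarTower k (MvPolynomial (Σ p, K p) k) (MvPolynomial (Σ p, K p) B) := by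
    apply IsScalarTower.of_algebraMap_eq
    intro c
    rw [halg, MvPolynomial.algebraMap_eq, MvPolynomial.map_C, MvPolynomial.algebraMap_apply]
  haveI : Algebra.FiniteType k (MvPolynomial (Σ p, K p) B) :=
    Algebra.FiniteType.trans (S := B) inferInstance inferInstance
  haveI : Algebra.FiniteType (MvPolynomial (Σ p, K p) k) (MvPolynomial (Σ p, K p) B) :=
    Algebra.FiniteType.of_restrictScalars_finiteType k _ _
  obtain ⟨F, hF0, hF⟩ := abs_tensor4 (C := MvPolynomial (Σ p, K p) k)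
    (P := MvPolynomial (Σ p, K p) B) (B := B) (U := U)
    (L.map (bigTheta y z)) (isWeaklyRegular_Theta y z κ0 hz U L hL)
  refine ⟨F, hF0, ?_⟩
  intro α hα
  let ev : MvPolynomial (Σ p, K p) B →ₐ[B] B := MvPolynomial.aeval fun s => algebraMap k B (α s)
  have hevC : ∀ c : MvPolynomial (Σ p, K p) k,
      ev (algebraMap (MvPolynomial (Σ p, K p) k) (MvPolynomial (Σ p, K p) B) c) =
        algebraMap k B (eval α c) := by
    intro c
    rw [halg]
    change MvPolynomial.aeval (fun s => algebraMap k B (α s)) (MvPolynomial.map (algebraMap k B) c)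
      = _
    rw [MvPolynomial.aeval_map_algebraMap]
    exact MvPolynomial.aeval_algebraMap_apply B α c
  have hlist : (L.map (bigTheta y z)).map ev =
      L.map fun p => y p - ∑ κ, algebraMap k B (α ⟨p, κ⟩) * z p κ := by
    rw [List.map_map]
    apply List.map_congr_left
    intro p _
    change ev (bigTheta y z p) = _
    rw [bigTheta, map_sub, map_sum]
    have h1 : ∀ b : B, ev (MvPolynomial.C b) = b := fun b => MvPolynomial.aeval_C _ b
    have h2 : ∀ s, ev (MvPolynomial.X s) = algebraMap k B (α s) := fun s =>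
      MvPolynomial.aeval_X _ s
    simp only [map_mul, h1, h2]
  rw [← hlist]
  refine hF ev (RingHom.ker (eval α)) ?_ ?_ ?_
  · intro c hc
    rw [hevC]
    rw [RingHom.mem_ker] at hc
    rw [hc, map_zero]
  · intro f
    rw [MvPolynomial.algebraMap_eq]
    induction f using MvPolynomial.induction_on with
    | C b =>
      have : ev (MvPolynomial.C b) = b := MvPolynomial.aeval_C _ b
      rw [this, sub_self]
      exact Submodule.zero_mem _
    | add f g hf hg =>
      have : f + g - MvPolynomial.C (ev (f + g)) =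
          (f - MvPolynomial.C (ev f)) + (g - MvPolynomial.C (ev g)) := by
        rw [map_add, map_add]; ring
      rw [this]
      exact Submodule.add_mem _ hf hg
    | mul_X f s hf =>
      have hXs : ev (MvPolynomial.X s) = algebraMap k B (α s) := MvPolynomial.aeval_X _ s
      have : f * MvPolynomial.X s - MvPolynomial.C (ev (f * MvPolynomial.X s)) =
          MvPolynomial.X s * (f - MvPolynomial.C (ev f)) + MvPolynomial.C (ev f) *
            algebraMap (MvPolynomial (Σ p, K p) k) (MvPolynomial (Σ p, K p) B)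
              (MvPolynomial.X s - MvPolynomial.C (α s)) := by
        rw [map_mul, hXs, halg, map_sub, MvPolynomial.map_X, MvPolynomial.map_C, map_mul]
        ring
      rw [this]
      refine Ideal.add_mem _ (Ideal.mul_mem_left _ _ hf) (Ideal.mul_mem_left _ _
        (Ideal.mem_map_of_mem _ ?_))
      rw [RingHom.mem_ker, map_sub, MvPolynomial.eval_X, MvPolynomial.eval_C, sub_self]
  · rw [hevC]
    exact (IsUnit.mk0 _ hα).map (algebraMap k B)

end Pool.Helper49.DP
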