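import Mathlib
import Pool.Agent.Helper49.DP.RingDefs
import Pool.Agent.Helper49.DP.GPabs

/-!
Project DP (MP_f60bb9_ag).  Block DP-18: general position in the local ring.

`T = MvPolynomial ((Fin t × Fin (m + 1)) ⊕ Fin n) k`, `T₀ = Loc _ k` its localisation at the
origin, `E` a finite `T₀`-module.  For a general coefficient vector `α` the list `theta α` is almost
regular on `E` with respect to the variables `extra j`.

Proof.  Let `E'` be the `T`-submodule of `E` generated by a finite set of generators of `E` over `T₀`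
(`E` is a `T`-module by restriction of scalars, `Module.compHom`/`Algebra T T₀`); for every
`z ∈ E` there is `s ∈ T` outside `irr` (nonzero constant term) with `s • z ∈ E'`, and one `s` works for
finitely many `z`.
Fix `j : Fin n`, `x = X (inr j) ∈ T`, `B = Localization.Away x` (a finite type `k`-algebra),
`U = LocalizedModule (Submonoid.powers x) E'`, a finite `B`-module.  Apply `exists_general` with
`ι = Fin t × Fin (m + 1)`, `K p = Expo n (dg p.1 p.2)`, `y p` = image of `X (inl p)`,
`z p μ` = image of `rename inr (monomial μ 1)`, `κ0 p` = `Finsupp.single j (dg p.1 p.2)`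
(`z p (κ0 p) = x ^ dg` is a unit of `B`), `L = pairs t m`.  It gives `F_j ≠ 0`; the element
`y p - ∑ μ, algebraMap (α ⟨p, μ⟩) * z p μ` is the image of `thetaPoly α p`
(`monomial μ c = C c * monomial μ 1`).  `F = ∏ j, F_j` (`F = 1` when `n = 0`).
Let `eval α F ≠ 0`, `theta α = l₁ ++ r :: l₂`; it comes from `pairs t m = L₁ ++ p :: L₂`.  Let
`r • z ∈ (l₁) • ⊤` in `E`: `thetaPoly α p • z = ∑_{q ∈ L₁} thetaPoly α q • z_q`.  Choose `s` with `s • z`
and all `s • z_q` in `E'`.  In `U`: `θ_p • [s z] ∈ (θ(L₁)) • ⊤`, and weak regularity on `U` gives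
`[s z] ∈ (θ(L₁)) • ⊤` in `U`, i.e. `x ^ e • s • z ∈ (θ(L₁)) E'` for some `e` (common denominators;
`E' → U` has kernel the `x`-power torsion).  In `E`, `s` acts invertibly, so
`x ^ e • z ∈ (l₁) • ⊤`.
-/

namespace Pool.Helper49.DP

open RingTheory.Sequence MvPolynomial

universe u

/-- Elements of `I M'` are, up to denominators, images of elements of `I M`. -/
private theorem mem_map75 {R R' M M' : Type u} [CommRing R] (S : Submonoid R) [CommRing R'] [Algebra R R']
    [IsLocalization S R'] [AddCommGroup M] [Module R M] [AddCommGroup M'] [Module R M'] [Module R' M']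
    [IsScalarTower R R' M'] (f : M →ₗ[R] M') [IsLocalizedModule S f] (I : Ideal R) (w : M')
    (hw : w ∈ (I.map (algebraMap R R') • ⊤ : Submodule R' M')) :
    ∃ s : S, ∃ w' ∈ (I • ⊤ : Submodule R M), f w' = (s : R) • w := by
  refine Submodule.smul_induction_on hw ?_ ?_
  · intro a ha z _
    obtain ⟨⟨a', s1⟩, h1⟩ := (IsLocalization.mem_map_algebraMap_iff S R').1 ha
    obtain ⟨⟨z', s2⟩, h2⟩ := IsLocalizedModule.surj S f z
    simp only at h1 h2
    refine ⟨s1 * s2, (a' : R) • z', Submodule.smul_mem_smul a'.2 trivial, ?_⟩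
    have e1 : ∀ (c : R) (y : M'), c • y = algebraMap R R' c • y := fun c y => (algebraMap_smul R' c y).symm
    rw [map_smul, ← h2, e1 (a' : R), ← h1, Submonoid.coe_mul, Submonoid.smul_def, e1, e1, smul_smul, smul_smul, map_mul]
    congr 1
    ring
  · rintro x y ⟨s1, x', hx, h1⟩ ⟨s2, y', hy, h2⟩
    refine ⟨s1 * s2, (s2 : R) • x' + (s1 : R) • y', ?_, ?_⟩
    · exact Submodule.add_mem _ (Submodule.smul_mem _ _ hx) (Submodule.smul_mem _ _ hy)
    · rw [map_add, map_smul, map_smul, h1, h2, Submonoid.coe_mul, smul_add, smul_smul, smul_smul, mul_comm (s2 : R)]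

private theorem map_mem75 {R R' M M' : Type u} [CommRing R] [CommRing R'] [Algebra R R']
    [AddCommGroup M] [Module R M] [AddCommGroup M'] [Module R M'] [Module R' M']
    [IsScalarTower R R' M'] (f : M →ₗ[R] M') (I : Ideal R) (w : M)
    (hw : w ∈ (I • ⊤ : Submodule R M)) : f w ∈ (I.map (algebraMap R R') • ⊤ : Submodule R' M') := by
  refine Submodule.smul_induction_on hw ?_ ?_
  · intro a ha z _
    rw [map_smul, ← algebraMap_smul R' a (f z)]
    exact Submodule.smul_mem_smul (Ideal.mem_map_of_mem _ ha) Submodule.mem_top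
  · intro x y hx hy
    rw [map_add]
    exact Submodule.add_mem _ hx hy

private theorem core75 {T T₀ B : Type u} [CommRing T] [CommRing T₀] [Algebra T T₀] [CommRing B] [Algebra T B]
    (S : Submonoid T) [IsLocalization S T₀] (x : T) [IsLocalization (Submonoid.powers x) B] {E E' U : Type u}
    [AddCommGroup E] [Module T E] [Module T₀ E] [IsScalarTower T T₀ E] [AddCommGroup E'] [Module T E']
    [AddCommGroup U] [Module T U] [Module B U] [IsScalarTower T B U] (f : E' →ₗ[T] E) [IsLocalizedModule S f]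
    (g : E' →ₗ[T] U) [IsLocalizedModule (Submonoid.powers x) g] (L₁ : List T) (r : T) (L₂ : List T)
    (h : IsWeaklyRegular U ((L₁ ++ r :: L₂).map (algebraMap T B))) (z : E)
    (hz : algebraMap T T₀ r • z ∈ (Ideal.ofList (L₁.map (algebraMap T T₀)) • ⊤ : Submodule T₀ E)) :
    ∃ e : ℕ, algebraMap T T₀ x ^ e • z ∈ (Ideal.ofList (L₁.map (algebraMap T T₀)) • ⊤ : Submodule T₀ E) := by
  rw [← Ideal.map_ofList] at hz ⊢
  set I := Ideal.ofList L₁ with hI
  obtain ⟨s1, w1, hw1, h1⟩ := mem_map75 S f I _ hz
  obtain ⟨⟨z0, s0⟩, h0⟩ := IsLocalizedModule.surj S f z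
  simp only at h0
  have h2 : f ((s1 : T) • r • z0) = f ((s0 : T) • w1) := by
    rw [map_smul, map_smul, map_smul, ← h0, h1, algebraMap_smul, Submonoid.smul_def, smul_comm r, smul_comm (s1 : T)]
  obtain ⟨c, hc⟩ := (IsLocalizedModule.eq_iff_exists S f).1 h2
  set z1 : E' := ((c * s1 : S) : T) • z0 with hz1
  have h3 : r • z1 ∈ (I • ⊤ : Submodule T E') := by
    have : r • z1 = (c : T) • ((s1 : T) • r • z0) := by
      rw [hz1, Submonoid.coe_mul, mul_smul, smul_comm r, smul_comm r]
    rw [this]
    have hc' : (c : T) • ((s1 : T) • r • z0) = (c : T) • ((s0 : T) • w1) := hc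
    rw [hc']
    exact Submodule.smul_mem _ _ (Submodule.smul_mem _ _ hw1)
  have h4 := map_mem75 (R' := B) g I _ h3
  rw [map_smul, ← algebraMap_smul B r] at h4
  have h5 : g z1 ∈ (I.map (algebraMap T B) • ⊤ : Submodule B U) := by
    have hreg := h.regular_mod_prev L₁.length (by simp)
    have e1 : (((L₁ ++ r :: L₂).map (algebraMap T B)).take L₁.length) = L₁.map (algebraMap T B) := by
      simp
    have e2 : ((L₁ ++ r :: L₂).map (algebraMap T B))[L₁.length]'(by simp) = algebraMap T B r := by
      simp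
    rw [e2] at hreg
    rw [hI, Ideal.map_ofList, ← e1] at h4 ⊢
    rw [← Submodule.Quotient.mk_eq_zero] at h4 ⊢
    rw [Submodule.Quotient.mk_smul] at h4
    exact hreg (by simpa using h4)
  obtain ⟨⟨_, e3, rfl⟩, w2, hw2, h6⟩ := mem_map75 (Submonoid.powers x) g I _ h5
  rw [← map_smul] at h6
  obtain ⟨⟨_, e4, rfl⟩, h7⟩ := (IsLocalizedModule.eq_iff_exists (Submonoid.powers x) g).1 h6
  have h8 : x ^ (e4 + e3) • z1 ∈ (I • ⊤ : Submodule T E') := by
    rw [pow_add, mul_smul]
    have h7' : x ^ e4 • w2 = x ^ e4 • x ^ e3 • z1 := h7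
    rw [← h7']
    exact Submodule.smul_mem _ _ hw2
  have h9 := map_mem75 (R' := T₀) f I _ h8
  refine ⟨e4 + e3, ?_⟩
  have hu : IsUnit (algebraMap T T₀ ((c * s1 * s0 : S) : T)) := IsLocalization.map_units T₀ (c * s1 * s0)
  obtain ⟨v, hv⟩ := hu
  have h10 : f (x ^ (e4 + e3) • z1) = (v : T₀) • (algebraMap T T₀ x ^ (e4 + e3) • z) := by
    have e1 : ∀ (c : T) (y : E), c • y = algebraMap T T₀ c • y := fun c y => (algebraMap_smul T₀ c y).symm
    rw [hv, map_smul, hz1, map_smul, ← h0, Submonoid.smul_def, ← map_pow, e1, e1, e1, smul_smul, smul_smul, smul_smul]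
    congr 1
    simp only [Submonoid.coe_mul, map_mul]
    ring
  rw [h10] at h9
  have h11 := Submodule.smul_mem _ ((v⁻¹ : T₀ˣ) : T₀) h9
  rwa [smul_smul, Units.inv_mul, one_smul] at h11

/-- Denominators for a finitely generated module over a localisation. -/
private theorem denom75 {T T₀ E : Type u} [CommRing T] [CommRing T₀] [Algebra T T₀] (S : Submonoid T)
    [IsLocalization S T₀] [AddCommGroup E] [Module T E] [Module T₀ E] [IsScalarTower T T₀ E] (s : Set E)
    (hs : Submodule.span T₀ s = ⊤) : IsLocalizedModule S (Submodule.span T s).subtype where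
  map_units x := by
    rw [Module.End.isUnit_iff]
    have hu : IsUnit (algebraMap T T₀ (x : T)) := IsLocalization.map_units T₀ x
    obtain ⟨v, hv⟩ := hu
    have e1 : ∀ y : E, algebraMap T (Module.End T E) (x : T) y = (v : T₀) • y := by
      intro y
      rw [hv, algebraMap_smul]
      rfl
    constructor
    · intro y y' h
      have h' : algebraMap T (Module.End T E) (x : T) y = algebraMap T (Module.End T E) (x : T) y' := h
      rw [e1, e1] at h'
      have h2 := congrArg (fun q => ((v⁻¹ : T₀ˣ) : T₀) • q) h'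
      simpa [smul_smul] using h2
    · intro y
      refine ⟨((v⁻¹ : T₀ˣ) : T₀) • y, ?_⟩
      rw [e1, smul_smul, Units.mul_inv, one_smul]
  surj y := by
    have hy : y ∈ Submodule.span T₀ s := by rw [hs]; exact Submodule.mem_top
    suffices h : ∃ x : S, (x : T) • y ∈ Submodule.span T s by
      obtain ⟨x, hx⟩ := h
      exact ⟨(⟨_, hx⟩, x), rfl⟩
    refine Submodule.span_induction ?_ ?_ ?_ ?_ hy
    · intro z hz
      exact ⟨1, by rw [Submonoid.coe_one, one_smul]; exact Submodule.subset_span hz⟩
    · exact ⟨1, by rw [smul_zero]; exact Submodule.zero_mem _⟩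
    · rintro a b _ _ ⟨x, hx⟩ ⟨x', hx'⟩
      refine ⟨x * x', ?_⟩
      rw [smul_add, Submonoid.coe_mul]
      refine Submodule.add_mem _ ?_ ?_
      · rw [mul_comm, mul_smul]
        exact Submodule.smul_mem _ _ hx
      · rw [mul_smul]
        exact Submodule.smul_mem _ _ hx'
    · rintro c z _ ⟨x, hx⟩
      obtain ⟨⟨a, x'⟩, h⟩ := IsLocalization.surj S c
      simp only at h
      refine ⟨x' * x, ?_⟩
      have e1 : ((x' * x : S) : T) • c • z = a • (x : T) • z := by
        have e2 : ∀ (d : T) (y : E), d • y = algebraMap T T₀ d • y := fun d y => (algebraMap_smul T₀ d y).symm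
        rw [e2, e2 a, e2 (x : T), ← h, Submonoid.coe_mul, smul_smul, smul_smul]
        congr 1
        simp only [map_mul]
        ring
      rw [e1]
      exact Submodule.smul_mem _ _ hx
  exists_of_eq {y y'} h := ⟨1, by rw [Subtype.ext h]⟩

private theorem single75 {n d : ℕ} (j : Fin n) : (Finsupp.single j d).degree = d := by
  simp

theorem exists_general_loc {k : Type u} [Field k] {t m n : ℕ} (dg : Fin t → Fin (m + 1) → ℕ)
    (E : Type u) [AddCommGroup E] [Module (Loc ((Fin t × Fin (m + 1)) ⊕ Fin n) k) E]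
    [Module.Finite (Loc ((Fin t × Fin (m + 1)) ⊕ Fin n) k) E] :
    ∃ F : MvPolynomial (Coef n dg) k, F ≠ 0 ∧ ∀ α : Coef n dg → k, eval α F ≠ 0 →
      AlmostReg (extra t m n k) (theta α) E := by
  classical
  let T : Type u := MvPolynomial ((Fin t × Fin (m + 1)) ⊕ Fin n) k
  let T₀ : Type u := Loc ((Fin t × Fin (m + 1)) ⊕ Fin n) k
  letI : Module T E := Module.compHom E (algebraMap T T₀)
  haveI : IsScalarTower T T₀ E := ⟨fun a b c => by
    rw [Algebra.smul_def, mul_smul]
    rfl⟩
  obtain ⟨s, hs⟩ := Module.Finite.fg_top (R := T₀) (M := E)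
  haveI hloc : IsLocalizedModule (irr ((Fin t × Fin (m + 1)) ⊕ Fin n) k).primeCompl
      (Submodule.span T (s : Set E)).subtype := denom75 (T₀ := T₀) _ _ hs
  haveI : Module.Finite T (Submodule.span T (s : Set E)) := Module.Finite.span_of_finite T s.finite_toSet
  have hj : ∀ j : Fin n, ∃ F : MvPolynomial (Coef n dg) k, F ≠ 0 ∧ ∀ α : Coef n dg → k, eval α F ≠ 0 →
      IsWeaklyRegular (LocalizedModule (Submonoid.powers (X (Sum.inr j) : T)) (Submodule.span T (s : Set E)))
        (((pairs t m).map (thetaPoly α)).map (algebraMap T (Localization.Away (X (Sum.inr j) : T)))) := by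
    intro j
    haveI : Module.Finite (Localization.Away (X (Sum.inr j) : T))
        (LocalizedModule (Submonoid.powers (X (Sum.inr j) : T)) (Submodule.span T (s : Set E))) :=
      Module.Finite.of_isLocalizedModule (Submonoid.powers (X (Sum.inr j) : T))
        (LocalizedModule.mkLinearMap (Submonoid.powers (X (Sum.inr j) : T)) (Submodule.span T (s : Set E)))
    obtain ⟨F, hF, h⟩ := exists_general (k := k) (B := Localization.Away (X (Sum.inr j) : T))
      (ι := Fin t × Fin (m + 1)) (K := fun p => Expo n (dg p.1 p.2))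
      (fun p => algebraMap T _ (X (Sum.inl p)))
      (fun p μ => algebraMap T _ (rename Sum.inr (monomial μ.1 1)))
      (fun p => ⟨Finsupp.single j (dg p.1 p.2), single75 j⟩)
      (fun p => by
        have e1 : (rename Sum.inr (monomial (Finsupp.single j (dg p.1 p.2)) (1 : k)) : T) =
            X (Sum.inr j) ^ (dg p.1 p.2) := by
          rw [← X_pow_eq_monomial, map_pow, rename_X]
        show IsUnit (algebraMap T _ (rename Sum.inr (monomial (Finsupp.single j (dg p.1 p.2)) (1 : k))))
        rw [e1, map_pow]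
        exact (IsLocalization.map_units (Localization.Away (X (Sum.inr j) : T))
          (⟨X (Sum.inr j), Submonoid.mem_powers _⟩ : Submonoid.powers (X (Sum.inr j) : T))).pow _)
      (LocalizedModule (Submonoid.powers (X (Sum.inr j) : T)) (Submodule.span T (s : Set E))) (pairs t m)
      (pairs_nodup t m)
    refine ⟨F, hF, fun α hα => ?_⟩
    have h1 := h α hα
    rw [List.map_map]
    convert h1 using 2
    funext p
    show algebraMap T _ (thetaPoly α p) = _
    rw [thetaPoly, form, map_sub, map_sum, map_sum]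
    congr 1
    refine Finset.sum_congr rfl fun μ _ => ?_
    have e2 : (rename Sum.inr (monomial μ.1 (α ⟨p, μ⟩)) : T) = C (α ⟨p, μ⟩) * rename Sum.inr (monomial μ.1 1) := by
      rw [rename_monomial, rename_monomial, C_mul_monomial, mul_one]
    rw [e2, map_mul]
    congr 1
  choose F hF h using hj
  refine ⟨∏ j, F j, Finset.prod_ne_zero_iff.2 fun j _ => hF j, fun α hα => ?_⟩
  rw [map_prod, Finset.prod_ne_zero_iff] at hα
  intro l₁ r l₂ hl z j hz
  have hreg := h j α (hα j (Finset.mem_univ _))
  have hth : theta α = ((pairs t m).map (thetaPoly α)).map (algebraMap T T₀) := by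
    rw [List.map_map]
    rfl
  rw [hth, List.map_eq_append_iff] at hl
  obtain ⟨M₁, M₂, hM, rfl, hM2⟩ := hl
  rw [List.map_eq_cons_iff] at hM2
  obtain ⟨r', M₃, rfl, rfl, rfl⟩ := hM2
  rw [hM] at hreg
  exact core75 (T := T) (T₀ := T₀) (irr ((Fin t × Fin (m + 1)) ⊕ Fin n) k).primeCompl (X (Sum.inr j) : T)
    (Submodule.span T (s : Set E)).subtype
    (LocalizedModule.mkLinearMap (Submonoid.powers (X (Sum.inr j) : T)) (Submodule.span T (s : Set E)))
    M₁ r' M₃ hreg z hz

end Pool.Helper49.DP
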