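import Mathlib
import Pool.Agent.Helper49.DP.Defs

/-!
Project DP (MP_f60bb9_ag).  Block DP-5: the kernel of a matrix and reduction modulo an almost
regular sequence (pure algebra, any commutative ring).

`Lf φ Q : Q ^ a → Q ^ b`, `Kf φ Q` its kernel, `Df φ Q` its cokernel (Defs.lean).
Write `(l) = Ideal.ofList l`.

`lift_almost`: if `rs` is almost regular on the cokernel `Df φ Q`, and `q : Q ^ a` satisfies
`Lf φ Q q j ∈ (rs) Q` for all `j`, then for every `k` some multiple `x k ^ e • q` is congruent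
modulo `(rs) Q` to an element `q'` of the kernel.

Proof: induction on `rs` from the end (`List.reverseRecOn`), for all `q`; `AlmostReg` for
`l₁ ++ [r]` implies `AlmostReg` for `l₁` (in the definition the tail `l₂` is arbitrary).
`rs = []`: `(rs) Q = ⊥`, so `q` is in the kernel, `e = 0`.
`rs = l₁ ++ [r]`: `Lf φ Q q j ∈ (l₁) Q ⊔ r Q`, so `Lf φ Q q = r • p + h` with `p : Q ^ b` and
`h j ∈ (l₁) Q` for all `j`.  In the cokernel `D = Df φ Q`, `0 = r • [p] + [h]` and
`[h] ∈ (l₁) D` (a vector with entries in `(l₁) Q` is in `(l₁) • ⊤` of `Q ^ b`: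
`h = ∑ j, Pi.single j (h j)`, and `Submodule.smul_induction_on` or
`Submodule.map_smul''`), so `r • [p] ∈ (l₁) D`, and by `AlmostReg`
`x k ^ e • [p] ∈ (l₁) D`: `x k ^ e • p = Lf φ Q q₁ + h₁`, `h₁ j ∈ (l₁) Q` (the submodule
`(l₁) • ⊤` of `D` is the image of `(l₁) • ⊤` of `Q ^ b`, whose entries are in `(l₁) Q`).
Then `q₂ = x k ^ e • q - r • q₁` has `Lf φ Q q₂ = x k ^ e • (r • p + h) - r • Lf φ Q q₁
= r • h₁ + x k ^ e • h`, entries in `(l₁) Q`.  By induction `x k ^ e' • q₂ - q'` has entries in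
`(l₁) Q` with `q'` in the kernel, and
`x k ^ (e' + e) • q - q' = (x k ^ e' • q₂ - q') + x k ^ e' • r • q₁` has entries in `(rs) Q`.

`inj_almost`: if moreover `rs` is weakly regular on `Q`, and `q ∈ Kf φ Q` has entries in
`(rs) Q`, then for every `k` some `x k ^ e • q` is in `(rs) • ⊤` of the module `Kf φ Q`.

Proof: same induction.  `rs = []`: `q = 0`.  `rs = l₁ ++ [r]`: `q = r • p + h` with
`p : Q ^ a`, `h i ∈ (l₁) Q`.  `0 = Lf φ Q q = r • Lf φ Q p + Lf φ Q h`, so
`r • Lf φ Q p j ∈ (l₁) Q`, and since `r` is regular on `Q / (l₁) Q`, `Lf φ Q p j ∈ (l₁) Q`.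
By `lift_almost` for `l₁` and `p`: `x k ^ e • p - p'` has entries in `(l₁) Q`, `p'` in the kernel.
`q₂ = x k ^ e • q - r • p'` is in the kernel and equals `r • (x k ^ e • p - p') + x k ^ e • h`,
entries in `(l₁) Q`.  By induction `x k ^ e' • q₂ ∈ (l₁) • ⊤` in `Kf φ Q`, hence
`x k ^ (e' + e) • q = x k ^ e' • q₂ + r • (x k ^ e' • p')` is in `(rs) • ⊤`.
-/

namespace Pool.Helper49.DP

open RingTheory.Sequence

universe u v w

variable {A : Type u} [CommRing A] {a b : ℕ} (φ : Matrix (Fin b) (Fin a) A)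
  {Q : Type v} [AddCommGroup Q] [Module A Q] {κ : Type w} {x : κ → A}

private theorem mem_entries63 {b : ℕ} (I : Ideal A) {h : Fin b → Q}
    (hh : h ∈ (I • ⊤ : Submodule A (Fin b → Q))) (j : Fin b) : h j ∈ (I • ⊤ : Submodule A Q) := by
  have h1 : (LinearMap.proj j : (Fin b → Q) →ₗ[A] Q) h ∈
      (I • ⊤ : Submodule A (Fin b → Q)).map (LinearMap.proj j : (Fin b → Q) →ₗ[A] Q) :=
    Submodule.mem_map_of_mem hh
  rw [Submodule.map_smul''] at h1
  exact Submodule.smul_mono le_rfl le_top h1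

private theorem mem_of_entries63 {b : ℕ} (I : Ideal A) {h : Fin b → Q}
    (hh : ∀ j, h j ∈ (I • ⊤ : Submodule A Q)) : h ∈ (I • ⊤ : Submodule A (Fin b → Q)) := by
  have h1 : h = ∑ j, Pi.single j (h j) := (Finset.univ_sum_single h).symm
  rw [h1]
  refine Submodule.sum_mem _ fun j _ => ?_
  have h2 : (LinearMap.single A (fun _ : Fin b => Q) j) (h j) ∈
      (I • ⊤ : Submodule A Q).map (LinearMap.single A (fun _ : Fin b => Q) j) :=
    Submodule.mem_map_of_mem (hh j)
  rw [Submodule.map_smul''] at h2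
  exact Submodule.smul_mono le_rfl le_top h2

private theorem mem_concat63 {E : Type*} [AddCommGroup E] [Module A E] (l : List A) (r : A) (z : E) :
    z ∈ (Ideal.ofList (l ++ [r]) • ⊤ : Submodule A E) ↔
      ∃ p : E, ∃ h ∈ (Ideal.ofList l • ⊤ : Submodule A E), z = r • p + h := by
  rw [Ideal.ofList_append, Ideal.ofList_singleton, Submodule.sup_smul,
    Submodule.ideal_span_singleton_smul, Submodule.mem_sup]
  constructor
  · rintro ⟨y, hy, w, hw, rfl⟩
    obtain ⟨p, -, rfl⟩ := (Submodule.mem_smul_pointwise_iff_exists _ _ _).1 hw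
    exact ⟨p, y, hy, add_comm _ _⟩
  · rintro ⟨p, h, hh, rfl⟩
    exact ⟨h, hh, r • p, (Submodule.mem_smul_pointwise_iff_exists _ _ _).2 ⟨p, trivial, rfl⟩,
      add_comm _ _⟩

private theorem init63 {E : Type*} [AddCommGroup E] [Module A E] {l : List A} {r : A}
    (h : AlmostReg x (l ++ [r]) E) : AlmostReg x l E := by
  intro l₁ s l₂ hl z j hz
  exact h l₁ s (l₂ ++ [r]) (by rw [hl]; simp) z j hz

private theorem last63 {E : Type*} [AddCommGroup E] [Module A E] {l : List A} {r : A}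
    (h : AlmostReg x (l ++ [r]) E) (z : E) (j : κ)
    (hz : r • z ∈ (Ideal.ofList l • ⊤ : Submodule A E)) :
    ∃ e : ℕ, x j ^ e • z ∈ (Ideal.ofList l • ⊤ : Submodule A E) :=
  h l r [] rfl z j hz

private theorem mem_mk63 {b : ℕ} (I : Ideal A) (N : Submodule A (Fin b → Q)) (v : Fin b → Q) :
    (Submodule.Quotient.mk v : (Fin b → Q) ⧸ N) ∈ (I • ⊤ : Submodule A ((Fin b → Q) ⧸ N)) ↔
      ∃ n ∈ N, ∃ h : Fin b → Q, (∀ j, h j ∈ (I • ⊤ : Submodule A Q)) ∧ v = n + h := by
  have e : (I • ⊤ : Submodule A ((Fin b → Q) ⧸ N)) = (I • ⊤ : Submodule A (Fin b → Q)).map N.mkQ := by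
    rw [Submodule.map_smul'', Submodule.map_top, Submodule.range_mkQ]
  rw [e]
  constructor
  · rintro ⟨h, hh, h1⟩
    have h2 : v - h ∈ N := by
      rw [← Submodule.Quotient.eq]
      exact h1.symm
    exact ⟨v - h, h2, h, mem_entries63 I hh, by abel⟩
  · rintro ⟨n, hn, h, hh, rfl⟩
    refine ⟨h, mem_of_entries63 I hh, ?_⟩
    rw [Submodule.mkQ_apply]
    refine (Submodule.Quotient.eq N).2 ?_
    have h3 : h - (n + h) = -n := by abel
    rw [h3]
    exact N.neg_mem hn

theorem lift_almost (rs : List A) (h : AlmostReg x rs (Df φ Q)) (q : Fin a → Q)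
    (hq : ∀ j, Lf φ Q q j ∈ (Ideal.ofList rs • ⊤ : Submodule A Q)) (k : κ) :
    ∃ e : ℕ, ∃ q' ∈ Kf φ Q, ∀ i, x k ^ e • q i - q' i ∈ (Ideal.ofList rs • ⊤ : Submodule A Q) := by
  induction rs using List.reverseRecOn generalizing q with
  | nil =>
    refine ⟨0, q, ?_, fun i => by simp⟩
    rw [LinearMap.mem_ker]
    funext j
    have h1 := hq j
    rw [Ideal.ofList_nil, Submodule.bot_smul, Submodule.mem_bot] at h1
    exact h1
  | append_singleton l r ih =>
    have h1 : ∀ j, ∃ p : Q, ∃ t ∈ (Ideal.ofList l • ⊤ : Submodule A Q), Lf φ Q q j = r • p + t :=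
      fun j => (mem_concat63 l r _).1 (hq j)
    choose p t ht h2 using h1
    have h3 : (r • (Submodule.Quotient.mk p : Df φ Q)) ∈ (Ideal.ofList l • ⊤ : Submodule A (Df φ Q)) := by
      rw [← Submodule.Quotient.mk_smul]
      refine (mem_mk63 (Ideal.ofList l) (LinearMap.range (Lf φ Q)) (r • p)).2
        ⟨Lf φ Q q, ⟨q, rfl⟩, -t, fun j => Submodule.neg_mem _ (ht j), ?_⟩
      funext j
      rw [Pi.add_apply, Pi.neg_apply, Pi.smul_apply, h2 j]
      abel
    obtain ⟨e, he⟩ := last63 h _ k h3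
    rw [← Submodule.Quotient.mk_smul] at he
    obtain ⟨n, ⟨q₁, rfl⟩, t₁, ht₁, h4⟩ := (mem_mk63 (Ideal.ofList l) (LinearMap.range (Lf φ Q))
      (x k ^ e • p)).1 he
    obtain ⟨e', q', hq', h5⟩ := ih (init63 h) (x k ^ e • q - r • q₁) (fun j => by
      have h6 : Lf φ Q (x k ^ e • q - r • q₁) j = r • t₁ j + x k ^ e • t j := by
        rw [map_sub, map_smul, map_smul, Pi.sub_apply, Pi.smul_apply, Pi.smul_apply, h2 j]
        have h7 : x k ^ e • p j = Lf φ Q q₁ j + t₁ j := congrFun h4 j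
        rw [smul_add, smul_comm (x k ^ e) r (p j), h7, smul_add]
        abel
      rw [h6]
      exact Submodule.add_mem _ (Submodule.smul_mem _ _ (ht₁ j)) (Submodule.smul_mem _ _ (ht j)))
    refine ⟨e' + e, q', hq', fun i => ?_⟩
    refine (mem_concat63 l r _).2 ⟨x k ^ e' • q₁ i, _, h5 i, ?_⟩
    rw [Pi.sub_apply, Pi.smul_apply, Pi.smul_apply, smul_sub, pow_add, mul_smul,
      smul_comm (x k ^ e') r (q₁ i)]
    abel

theorem inj_almost (rs : List A) (h : AlmostReg x rs (Df φ Q)) (hreg : IsWeaklyRegular Q rs)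
    (q : Kf φ Q) (hq : ∀ i, q.1 i ∈ (Ideal.ofList rs • ⊤ : Submodule A Q)) (k : κ) :
    ∃ e : ℕ, x k ^ e • q ∈ (Ideal.ofList rs • ⊤ : Submodule A (Kf φ Q)) := by
  induction rs using List.reverseRecOn generalizing q with
  | nil =>
    refine ⟨0, ?_⟩
    have h1 : q = 0 := by
      apply Subtype.ext
      funext i
      have h2 := hq i
      rw [Ideal.ofList_nil, Submodule.bot_smul, Submodule.mem_bot] at h2
      exact h2
    rw [h1, smul_zero]
    exact Submodule.zero_mem _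
  | append_singleton l r ih =>
    have h1 : ∀ i, ∃ p : Q, ∃ t ∈ (Ideal.ofList l • ⊤ : Submodule A Q), q.1 i = r • p + t :=
      fun i => (mem_concat63 l r _).1 (hq i)
    choose p t ht h2 using h1
    have hregl : IsWeaklyRegular Q l := ((isWeaklyRegular_append_iff Q l [r]).1 hreg).1
    have hregr : IsSMulRegular (Q ⧸ (Ideal.ofList l • ⊤ : Submodule A Q)) r := by
      exact (isWeaklyRegular_singleton_iff _ _).1 ((isWeaklyRegular_append_iff Q l [r]).1 hreg).2
    have h4 : ∀ j, Lf φ Q p j ∈ (Ideal.ofList l • ⊤ : Submodule A Q) := by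
      intro j
      have h5 : q.1 = r • p + t := funext h2
      have h6 : r • Lf φ Q p j + Lf φ Q t j = 0 := by
        have h7 : Lf φ Q q.1 = 0 := q.2
        rw [h5, map_add, map_smul] at h7
        exact congrFun h7 j
      have h8 : Lf φ Q t j ∈ (Ideal.ofList l • ⊤ : Submodule A Q) := by
        change ∑ i, φ j i • t i ∈ _
        exact Submodule.sum_mem _ fun i _ => Submodule.smul_mem _ _ (ht i)
      have h9 : r • Lf φ Q p j ∈ (Ideal.ofList l • ⊤ : Submodule A Q) := by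
        rw [eq_neg_of_add_eq_zero_left h6]
        exact Submodule.neg_mem _ h8
      have h10 : r • (Submodule.Quotient.mk (Lf φ Q p j) : Q ⧸ (Ideal.ofList l • ⊤ : Submodule A Q)) =
          r • 0 := by
        rw [smul_zero, ← Submodule.Quotient.mk_smul]
        exact (Submodule.Quotient.mk_eq_zero _).2 h9
      exact (Submodule.Quotient.mk_eq_zero _).1 (hregr h10)
    obtain ⟨e, p', hp', h5⟩ := lift_almost φ l (init63 h) p h4 k
    have hK : x k ^ e • q.1 - r • p' ∈ Kf φ Q :=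
      Submodule.sub_mem _ (Submodule.smul_mem _ _ q.2) (Submodule.smul_mem _ _ hp')
    obtain ⟨e', he'⟩ := ih (init63 h) hregl ⟨x k ^ e • q.1 - r • p', hK⟩ (fun i => by
      change x k ^ e • q.1 i - r • p' i ∈ _
      have h6 : x k ^ e • q.1 i - r • p' i = r • (x k ^ e • p i - p' i) + x k ^ e • t i := by
        rw [h2 i, smul_add, smul_sub, smul_comm (x k ^ e) r (p i)]
        abel
      rw [h6]
      exact Submodule.add_mem _ (Submodule.smul_mem _ _ (h5 i)) (Submodule.smul_mem _ _ (ht i)))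
    refine ⟨e' + e, ?_⟩
    refine (mem_concat63 l r _).2 ⟨x k ^ e' • ⟨p', hp'⟩, _, he', ?_⟩
    apply Subtype.ext
    change x k ^ (e' + e) • q.1 = r • (x k ^ e' • p') + x k ^ e' • (x k ^ e • q.1 - r • p')
    rw [smul_sub, pow_add, mul_smul, smul_comm (x k ^ e') r p']
    abel

end Pool.Helper49.DP
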