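import Mathlib
import Pool.Agent.Helper49.DP.Defs

/-!
Project DP (MP_f60bb9_ag).  Block DP-1: trivial facts about `GradeGE`.

`GradeGE J E g` : there is a list `rs` of length `g` in `J`, weakly regular on `E` (Defs.lean).

Proofs in words.
* `mono_left`: the same list.
* `mono_right`: `rs.take g'` (use `RingTheory.Sequence.isWeaklyRegular_append_iff` with
  `rs = rs.take g' ++ rs.drop g'`).
* `eq_zero`: the list is `[r]` with `r ∈ J`, `r` regular on `E / (ofList [] • ⊤) = E`; so
  `r ^ e` is regular on `E` (`IsSMulRegular.pow`), and `r ^ e • z = 0` gives `z = 0`.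
* `of_quot`: append the lists; `isWeaklyRegular_append_iff` says that `rs ++ rs'` is weakly
  regular on `E` iff `rs` is and `rs'` is weakly regular on `E ⧸ (ofList rs • ⊤)`.
* `of_equiv`: transport along a linear equivalence
  (`LinearEquiv.isWeaklyRegular_congr`).
* `of_injective_one`: if `E' → E` is injective linear and `GradeGE J E 1`, and every... only the
  consequence `eq_zero` is used, see `eq_zero_of_injective`.
-/

namespace Pool.Helper49.DP

open RingTheory.Sequence

universe u v w

variable {A : Type u} [CommRing A] {E : Type v} [AddCommGroup E] [Module A E]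

theorem GradeGE.mono_left {J J' : Ideal A} (h : J ≤ J') {g : ℕ} (hg : GradeGE J E g) :
    GradeGE J' E g := by
  obtain ⟨rs, h1, h2, h3⟩ := hg
  exact ⟨rs, h1, fun r hr => h (h2 r hr), h3⟩

theorem GradeGE.mono_right {J : Ideal A} {g g' : ℕ} (h : g' ≤ g) (hg : GradeGE J E g) :
    GradeGE J E g' := by
  obtain ⟨rs, h1, h2, h3⟩ := hg
  refine ⟨rs.take g', ?_, fun r hr => h2 r (List.mem_of_mem_take hr), ?_⟩
  · rw [List.length_take, h1]
    exact min_eq_left h
  · rw [← List.take_append_drop g' rs] at h3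
    exact ((isWeaklyRegular_append_iff E _ _).1 h3).1

theorem GradeGE.eq_zero {J : Ideal A} (h : GradeGE J E 1) {z : E}
    (hz : ∀ a ∈ J, ∃ e : ℕ, a ^ e • z = 0) : z = 0 := by
  obtain ⟨rs, h1, h2, h3⟩ := h
  obtain ⟨r, rfl⟩ := List.length_eq_one_iff.1 h1
  rw [isWeaklyRegular_singleton_iff] at h3
  obtain ⟨e, he⟩ := hz r (h2 r (List.mem_singleton_self r))
  have h4 : IsSMulRegular E (r ^ e) := h3.pow e
  exact h4 (show r ^ e • z = r ^ e • (0 : E) by rw [he, smul_zero])

theorem GradeGE.of_quot {J : Ideal A} {rs : List A} (hrs : ∀ r ∈ rs, r ∈ J)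
    (hreg : IsWeaklyRegular E rs) {g : ℕ}
    (h : GradeGE J (E ⧸ (Ideal.ofList rs • ⊤ : Submodule A E)) g) :
    GradeGE J E (rs.length + g) := by
  obtain ⟨rs', h1, h2, h3⟩ := h
  refine ⟨rs ++ rs', by rw [List.length_append, h1], fun r hr => ?_, ?_⟩
  · rcases List.mem_append.1 hr with h | h
    · exact hrs r h
    · exact h2 r h
  · exact (isWeaklyRegular_append_iff E _ _).2 ⟨hreg, h3⟩

theorem GradeGE.of_equiv {J : Ideal A} {E' : Type w} [AddCommGroup E'] [Module A E']
    (e : E ≃ₗ[A] E') {g : ℕ} (h : GradeGE J E g) : GradeGE J E' g := by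
  obtain ⟨rs, h1, h2, h3⟩ := h
  exact ⟨rs, h1, h2, (e.isWeaklyRegular_congr rs).1 h3⟩

/-- A weakly regular sequence of length `≥ 1` in `J` forbids elements killed by powers of
all elements of `J` in every module that embeds in `E`. -/
theorem GradeGE.eq_zero_of_injective {J : Ideal A} {E' : Type w} [AddCommGroup E'] [Module A E']
    (f : E' →ₗ[A] E) (hf : Function.Injective f) (h : GradeGE J E 1) {z : E'}
    (hz : ∀ a ∈ J, ∃ e : ℕ, a ^ e • z = 0) : z = 0 := by
  apply hf
  rw [map_zero]
  refine h.eq_zero fun a ha => ?_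
  obtain ⟨e, he⟩ := hz a ha
  exact ⟨e, by rw [← map_smul, he, map_zero]⟩

end Pool.Helper49.DP
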