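import Mathlib
import Pool.Agent.Helper49.DP.Defs
import Pool.Agent.Helper49.DP.Grade1

/-!
Project DP (MP_f60bb9_ag).  Block DP-2: the grade drops by one modulo a regular element
(Rees).

Mathlib has the Rees theorem `ModuleCat.exists_isRegular_tfae` (file
`Mathlib/RingTheory/Depth/Rees.lean`): for `A` Noetherian, `E` finite with `J • ⊤ < ⊤`, the
existence of an `E`-regular sequence of length `n` in `J` is equivalent to
`Ext^i (A ⧸ J, E) = 0` for all `i < n` (second item), and to the vanishing of `Ext^i (N, E)` for
all finite `N` supported in `V(J)` (first item).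

Proof of `quotSMulTop`.  If `E` is trivial, everything is weakly regular: the quotient is
trivial too and any list of length `g` in `J` works (for example `List.replicate g 0`; regularity
on a subsingleton module is trivial).  Otherwise `J • ⊤ < ⊤` by Nakayama (`J ≤ maximalIdeal`,
`E` finite and nontrivial: `Submodule.top_ne_ideal_smul_of_le_jacobson_annihilator`,
or see how `IsLocalRing.isRegular_iff_isWeaklyRegular_of_subset_maximalIdeal` is proved), and weakly
regular sequences in the maximal ideal are regular
(`IsLocalRing.isRegular_iff_isWeaklyRegular_of_subset_maximalIdeal`).  So item 4 holds for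
`n = g + 1`, hence `Ext^i (N, E) = 0` for all `i < g + 1`, with `N = Shrink (A ⧸ J)` or
`ModuleCat.of A (A ⧸ J)`.  The long exact sequence of `0 → E → E → QuotSMulTop r E → 0` (first map `r`)
(`IsSMulRegular.smulShortComplex_shortExact`, `Ext.covariant_sequence_exact₃'`) gives
`Ext^i (N, QuotSMulTop r E) = 0` for `i < g`: exactly the argument in the proof of
`ModuleCat.exists_isRegular_of_exists_subsingleton_ext` in that file (variable `h_ext'`), copy it.
Then item 4 for `QuotSMulTop r E` (again `J • ⊤ < ⊤` by Nakayama since `r ∈ J` is in the maximal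
ideal, `nontrivial_quotSMulTop_of_mem_maximalIdeal`) gives a regular sequence of length `g`.

Proof of `quot_ofList`.  Induction on `rs` (generalizing `E`) with
`isWeaklyRegular_cons_iff` and the equivalence
`Submodule.quotOfListConsSMulTopEquivQuotSMulTopInner` :
`E ⧸ (ofList (r :: rs) • ⊤) ≃ QuotSMulTop r E ⧸ (ofList rs • ⊤)`.
-/

namespace Pool.Helper49.DP

open RingTheory.Sequence

universe u

variable {A : Type u} [CommRing A] [IsNoetherianRing A] [IsLocalRing A]
  {E : Type u} [AddCommGroup E] [Module A E] [Module.Finite A E]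

omit [IsNoetherianRing A] [IsLocalRing A] in
private theorem gradeGE_of_subsingleton {J : Ideal A} {E' : Type*} [AddCommGroup E'] [Module A E']
    [Subsingleton E'] (g : ℕ) : GradeGE J E' g := by
  refine ⟨List.replicate g 0, by simp, fun r hr => ?_, ⟨fun i hi => ?_⟩⟩
  · rw [List.eq_of_mem_replicate hr]
    exact zero_mem J
  · have : Subsingleton (E' ⧸ (Ideal.ofList ((List.replicate g (0 : A)).take i) • ⊤ :
        Submodule A E')) := Submodule.Quotient.subsingleton_iff.2 (Subsingleton.elim _ _)
    exact Function.injective_of_subsingleton _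

omit [IsNoetherianRing A] in
private theorem smul_top_lt {J : Ideal A} (hJ : J ≤ IsLocalRing.maximalIdeal A)
    (E' : Type*) [AddCommGroup E'] [Module A E'] [Module.Finite A E'] [Nontrivial E'] :
    J • (⊤ : Submodule A E') < ⊤ :=
  (Submodule.top_ne_ideal_smul_of_le_jacobson_annihilator
    (hJ.trans (IsLocalRing.maximalIdeal_le_jacobson _))).symm.lt_top

open CategoryTheory CategoryTheory.Abelian in
theorem GradeGE.quotSMulTop {J : Ideal A} (hJ : J ≤ IsLocalRing.maximalIdeal A) {r : A}
    (hr : r ∈ J) (reg : IsSMulRegular E r) {g : ℕ} (h : GradeGE J E (g + 1)) :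
    GradeGE J (QuotSMulTop r E) g := by
  rcases subsingleton_or_nontrivial E with hE | hE
  · have : Subsingleton (QuotSMulTop r E) :=
      Submodule.Quotient.subsingleton_iff.2 (Subsingleton.elim _ _)
    exact gradeGE_of_subsingleton g
  · obtain ⟨rs, h1, h2, h3⟩ := h
    have hreg : IsRegular E rs :=
      (IsLocalRing.isRegular_iff_isWeaklyRegular_of_subset_maximalIdeal
        fun a ha => hJ (h2 a ha)).2 h3
    have : Nontrivial (QuotSMulTop r E) := nontrivial_quotSMulTop_of_mem_maximalIdeal E (hJ hr)
    have hT := ModuleCat.exists_isRegular_tfae J (g + 1) (ModuleCat.of A E) (smul_top_lt hJ E)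
    have hex : ∃ rs : List A, rs.length = g + 1 ∧ (∀ r ∈ rs, r ∈ J) ∧
        IsRegular (ModuleCat.of A E) rs := ⟨rs, h1, h2, hreg⟩
    have hext : ∀ i < g + 1, Subsingleton (Ext (ModuleCat.of A (Shrink.{u} (A ⧸ J)))
        (ModuleCat.of A E) i) := (hT.out 3 1).1 hex
    have hext' : ∀ i < g, Subsingleton (Ext (ModuleCat.of A (Shrink.{u} (A ⧸ J)))
        (ModuleCat.of A (QuotSMulTop r E)) i) := by
      intro i hi
      have zero1 := AddCommGrpCat.isZero_of_iff_subsingleton.mpr (hext i (by omega))
      have zero2 := AddCommGrpCat.isZero_of_iff_subsingleton.mpr (hext (i + 1) (by omega))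
      exact AddCommGrpCat.subsingleton_of_isZero <| ShortComplex.Exact.isZero_of_both_zeros
        ((Ext.covariant_sequence_exact₃' _
          (IsSMulRegular.smulShortComplex_shortExact (M := ModuleCat.of A E) reg))
          i (i + 1) rfl)
        (zero1.eq_zero_of_src _) (zero2.eq_zero_of_tgt _)
    have hT' := ModuleCat.exists_isRegular_tfae J g (ModuleCat.of A (QuotSMulTop r E))
      (smul_top_lt hJ (QuotSMulTop r E))
    have hex' : ∃ rs : List A, rs.length = g ∧ (∀ r ∈ rs, r ∈ J) ∧
        IsRegular (ModuleCat.of A (QuotSMulTop r E)) rs := (hT'.out 1 3).1 hext'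
    obtain ⟨rs', h1', h2', h3'⟩ := hex'
    exact ⟨rs', h1', h2', h3'.toIsWeaklyRegular⟩

private theorem quot_ofList_aux {J : Ideal A} (hJ : J ≤ IsLocalRing.maximalIdeal A) (rs : List A) :
    ∀ (E : Type u) [AddCommGroup E] [Module A E] [Module.Finite A E],
      (∀ r ∈ rs, r ∈ J) → IsWeaklyRegular E rs → ∀ g : ℕ, GradeGE J E (rs.length + g) →
        GradeGE J (E ⧸ (Ideal.ofList rs • ⊤ : Submodule A E)) g := by
  induction rs with
  | nil =>
    intro E _ _ _ _ _ g h
    have h0 : (Ideal.ofList ([] : List A) • ⊤ : Submodule A E) = ⊥ := by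
      rw [Ideal.ofList_nil, Submodule.bot_smul]
    have h' : GradeGE J E g := by simpa using h
    exact h'.of_equiv (Submodule.quotEquivOfEqBot _ h0).symm
  | cons r rs ih =>
    intro E _ _ _ hrs reg g h
    rw [isWeaklyRegular_cons_iff] at reg
    have h1 : GradeGE J E ((rs.length + g) + 1) := by
      have h2 : (r :: rs).length + g = (rs.length + g) + 1 := by
        rw [List.length_cons]
        omega
      rwa [h2] at h
    have h3 := h1.quotSMulTop hJ (hrs r List.mem_cons_self) reg.1
    have h4 := ih (QuotSMulTop r E) (fun a ha => hrs a (List.mem_cons_of_mem r ha)) reg.2 g h3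
    exact h4.of_equiv (Submodule.quotOfListConsSMulTopEquivQuotSMulTopInner E r rs).symm

theorem GradeGE.quot_ofList {J : Ideal A} (hJ : J ≤ IsLocalRing.maximalIdeal A) {rs : List A}
    (hrs : ∀ r ∈ rs, r ∈ J) (reg : IsWeaklyRegular E rs) {g : ℕ}
    (h : GradeGE J E (rs.length + g)) :
    GradeGE J (E ⧸ (Ideal.ofList rs • ⊤ : Submodule A E)) g :=
  quot_ofList_aux hJ rs E hrs reg g h

end Pool.Helper49.DP
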