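import Mathlib
import Pool.Agent.Helper49.DP.Defs

/-!
Project DP (MP_f60bb9_ag).  Block DP-8: ideals and weakly regular sequences.

`A` any commutative ring, `(l) = Ideal.ofList l`.

* `inf_ofList_le`: if `rs` is weakly regular on `A ⧸ I` then `I ⊓ (rs) ≤ (rs) * I`.
  Induction from the end (`List.reverseRecOn`, `isWeaklyRegular_append_iff`).  `[]`: clear.
  `l₁ ++ [r]`: let `z ∈ I`, `z = r a + h`, `h ∈ (l₁)`.  `r a = z - h ∈ I + (l₁)`, and `r` is regular on
  `(A ⧸ I) ⧸ (l₁)`, so `a ∈ I + (l₁)`: `a = i + h'`.  `z - r i = r h' + h ∈ (l₁)`, and it is in `I`, so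
  it is in `(l₁) * I` by induction; `r i ∈ (rs) * I`.
  (An element `c : A` has class in `(l₁) • ⊤` of `A ⧸ I` iff `c ∈ I ⊔ (l₁)`.)

* `quoMod_regular`: `J ≤ I` and `rs` weakly regular on `A ⧸ I` and on `A ⧸ J`; then `rs` is weakly
  regular on `QuoMod J I = I / J`.
  It suffices: `l₁ ++ r :: l₂ = rs` (or `isWeaklyRegular` prefix by prefix), `z ∈ I` with
  `r z ∈ J + (l₁) * I`; then `z ∈ J + (l₁) * I`.  (An element `z ∈ I` has class in `(l₁) • ⊤` of
  `I / J` iff `z ∈ J ⊔ (l₁) * I`.)  Since `r z ∈ J + (l₁)` and `r` is regular on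
  `(A ⧸ J) ⧸ (l₁)`, `z = y + h` with `y ∈ J`, `h ∈ (l₁)`; `h = z - y ∈ I ⊓ (l₁) ≤ (l₁) * I` by the first
  statement for `l₁`.

* `exists_quoMap`: `J ≤ I`, `A → R` surjective with kernel `(rs)`, and `I ⊓ (rs) ≤ (rs) * I`.  The
  natural map `c : I / J → I R / J R` is additive, semilinear, surjective, and its kernel is
  `(rs) • (I / J)`.  Kernel: `z ∈ I` with image in `J R = image of J`: `z - y ∈ (rs)` for some `y ∈ J`,
  `z - y ∈ I ⊓ (rs) ≤ (rs) * I`, so `z ∈ J + (rs) * I`.  Surjective: every element of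
  `I.map (algebraMap A R)` is the image of an element of `I` (`Ideal.mem_map_iff_of_surjective`).
-/

namespace Pool.Helper49.DP

open RingTheory.Sequence

universe u

variable {A : Type u} [CommRing A]

private theorem mk_mem_smul_top24 {M : Type*} [AddCommGroup M] [Module A M] (N : Submodule A M)
    (a : Ideal A) (z : M) :
    (Submodule.Quotient.mk z : M ⧸ N) ∈ (a • ⊤ : Submodule A (M ⧸ N)) ↔
      z ∈ N ⊔ a • (⊤ : Submodule A M) := by
  have h : (a • ⊤ : Submodule A (M ⧸ N)) = Submodule.map N.mkQ (a • ⊤) := by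
    rw [Submodule.map_smul'', Submodule.map_top, Submodule.range_mkQ]
  rw [h, ← Submodule.mkQ_apply, ← Submodule.mem_comap, Submodule.comap_map_mkQ]

private theorem wr_elem24 {M : Type*} [AddCommGroup M] [Module A M] {l₁ : List A} {r : A}
    {l₂ : List A} (h : IsWeaklyRegular M (l₁ ++ r :: l₂)) (z : M)
    (hz : r • z ∈ (Ideal.ofList l₁ • ⊤ : Submodule A M)) :
    z ∈ (Ideal.ofList l₁ • ⊤ : Submodule A M) := by
  have h1 := ((isWeaklyRegular_append_iff M l₁ (r :: l₂)).1 h).2
  have h2 := ((isWeaklyRegular_cons_iff _ _ _).1 h1).1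
  rw [← Submodule.Quotient.mk_eq_zero] at hz ⊢
  apply h2
  show r • _ = r • _
  rw [smul_zero, ← Submodule.Quotient.mk_smul]
  exact hz

private theorem wr_of_elem24 {M : Type*} [AddCommGroup M] [Module A M] {rs : List A}
    (h : ∀ (l₁ : List A) (r : A) (l₂ : List A), rs = l₁ ++ r :: l₂ → ∀ z : M,
      r • z ∈ (Ideal.ofList l₁ • ⊤ : Submodule A M) →
        z ∈ (Ideal.ofList l₁ • ⊤ : Submodule A M)) : IsWeaklyRegular M rs := by
  refine ⟨fun i hi => ?_⟩
  have hdec : rs = rs.take i ++ rs[i] :: rs.drop (i + 1) := by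
    rw [List.getElem_cons_drop, List.take_append_drop]
  have h1 := h _ _ _ hdec
  rw [isSMulRegular_iff_right_eq_zero_of_smul]
  intro x hx
  obtain ⟨z, rfl⟩ := Submodule.Quotient.mk_surjective _ x
  rw [← Submodule.Quotient.mk_smul, Submodule.Quotient.mk_eq_zero] at hx
  rw [Submodule.Quotient.mk_eq_zero]
  exact h1 z hx

private theorem mk_quot_mem24 (I a : Ideal A) (c : A) :
    (Submodule.Quotient.mk c : A ⧸ I) ∈ (a • ⊤ : Submodule A (A ⧸ I)) ↔ c ∈ I ⊔ a := by
  rw [mk_mem_smul_top24]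
  simp

private theorem mem_smul_top_sub24 (I a : Ideal A) (z : (I : Submodule A A)) :
    z ∈ (a • ⊤ : Submodule A (I : Submodule A A)) ↔ (z : A) ∈ a * I := by
  have h : Submodule.map (Submodule.subtype (I : Submodule A A))
      (a • ⊤ : Submodule A (I : Submodule A A)) = a * I := by
    rw [Submodule.map_smul'', Submodule.map_top, Submodule.range_subtype]
    rfl
  constructor
  · intro hz
    rw [← h]
    exact ⟨z, hz, rfl⟩
  · intro hz
    rw [← h] at hz
    obtain ⟨w, hw, hwz⟩ := hz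
    have : w = z := Subtype.ext hwz
    rwa [← this]

private theorem mk_quoMod_mem24 (J I a : Ideal A) (z : (I : Submodule A A)) :
    (Submodule.Quotient.mk z : QuoMod J I) ∈ (a • ⊤ : Submodule A (QuoMod J I)) ↔
      ∃ y ∈ J, (z : A) - y ∈ a * I ∧ y ∈ I := by
  rw [mk_mem_smul_top24, Submodule.mem_sup]
  constructor
  · rintro ⟨y, hy, w, hw, rfl⟩
    rw [mem_smul_top_sub24] at hw
    refine ⟨(y : A), hy, ?_, y.2⟩
    rw [Submodule.coe_add, add_sub_cancel_left]
    exact hw
  · rintro ⟨y, hy, hw, hyI⟩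
    refine ⟨⟨y, hyI⟩, hy, z - ⟨y, hyI⟩, ?_, by abel⟩
    rw [mem_smul_top_sub24]
    exact hw

theorem inf_ofList_le {I : Ideal A} {rs : List A} (h : IsWeaklyRegular (A ⧸ I) rs) :
    I ⊓ Ideal.ofList rs ≤ Ideal.ofList rs * I := by
  induction rs using List.reverseRecOn with
  | nil => simp
  | append_singleton l r ih =>
    have ih' := ih ((isWeaklyRegular_append_iff _ _ _).1 h).1
    have hr : ∀ c : A, r * c ∈ I ⊔ Ideal.ofList l → c ∈ I ⊔ Ideal.ofList l := by
      intro c hc
      have := wr_elem24 h (Submodule.Quotient.mk c : A ⧸ I)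
      rw [← Submodule.Quotient.mk_smul, mk_quot_mem24, mk_quot_mem24] at this
      exact this hc
    rintro z ⟨hzI, hz⟩
    rw [SetLike.mem_coe, Ideal.ofList_append, Ideal.ofList_singleton, Submodule.mem_sup] at hz
    obtain ⟨k, hk, w, hw, rfl⟩ := hz
    rw [Ideal.mem_span_singleton'] at hw
    obtain ⟨a, rfl⟩ := hw
    have hzI' : k + a * r ∈ I := hzI
    have ha : a ∈ I ⊔ Ideal.ofList l := by
      apply hr
      have : r * a = (k + a * r) + -k := by ring
      rw [this]
      exact Submodule.add_mem_sup hzI' (neg_mem hk)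
    obtain ⟨i, hi, k', hk', rfl⟩ := Submodule.mem_sup.1 ha
    have h1 : k + k' * r ∈ Ideal.ofList l * I := by
      apply ih'
      refine ⟨?_, add_mem hk (Ideal.mul_mem_right _ _ hk')⟩
      have : k + k' * r = (k + (i + k') * r) - i * r := by ring
      rw [this]
      exact sub_mem hzI' (Ideal.mul_mem_right _ _ hi)
    have h2 : k + (i + k') * r = (k + k' * r) + r * i := by ring
    rw [h2, Ideal.ofList_append]
    refine add_mem (Ideal.mul_mono_left le_sup_left h1) (Ideal.mul_mem_mul ?_ hi)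
    apply Ideal.mem_sup_right
    rw [Ideal.ofList_singleton]
    exact Ideal.mem_span_singleton_self r

theorem quoMod_regular {J I : Ideal A} (hJI : J ≤ I) {rs : List A}
    (hI : IsWeaklyRegular (A ⧸ I) rs) (hJ : IsWeaklyRegular (A ⧸ J) rs) :
    IsWeaklyRegular (QuoMod J I) rs := by
  apply wr_of_elem24
  intro l₁ r l₂ hrs q hq
  subst hrs
  obtain ⟨z, rfl⟩ := Submodule.Quotient.mk_surjective _ q
  have hI1 : IsWeaklyRegular (A ⧸ I) l₁ := ((isWeaklyRegular_append_iff _ _ _).1 hI).1
  rw [← Submodule.Quotient.mk_smul, mk_quoMod_mem24] at hq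
  obtain ⟨y, hy, hw, hyI⟩ := hq
  have h1 : (z : A) ∈ J ⊔ Ideal.ofList l₁ := by
    have h2 := wr_elem24 hJ (Submodule.Quotient.mk (z : A) : A ⧸ J)
    rw [← Submodule.Quotient.mk_smul, mk_quot_mem24, mk_quot_mem24] at h2
    apply h2
    have h3 : r • (z : A) = y + (((r • z : (I : Submodule A A)) : A) - y) := by
      rw [Submodule.coe_smul]
      ring
    have h5 : Ideal.ofList l₁ * I ≤ Ideal.ofList l₁ := Ideal.mul_le_left
    have h6 : ((r • z : (I : Submodule A A)) : A) - y ∈ Ideal.ofList l₁ := h5 hw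
    rw [h3]
    exact Submodule.add_mem_sup hy h6
  obtain ⟨y', hy', k, hk, hyk⟩ := Submodule.mem_sup.1 h1
  rw [mk_quoMod_mem24]
  refine ⟨y', hy', ?_, hJI hy'⟩
  have h4 : (z : A) - y' = k := by rw [← hyk]; ring
  rw [h4]
  apply inf_ofList_le hI1
  refine ⟨?_, hk⟩
  rw [← h4]
  exact sub_mem z.2 (hJI hy')

theorem exists_quoMap {R : Type u} [CommRing R] [Algebra A R] {J I : Ideal A} (hJI : J ≤ I)
    {rs : List A} (hsurj : Function.Surjective (algebraMap A R))
    (hker : RingHom.ker (algebraMap A R) = Ideal.ofList rs)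
    (hI : I ⊓ Ideal.ofList rs ≤ Ideal.ofList rs * I) :
    ∃ c : QuoMod J I →+ QuoMod (J.map (algebraMap A R)) (I.map (algebraMap A R)),
      Function.Surjective c ∧ (∀ (a : A) (q : QuoMod J I), c (a • q) = algebraMap A R a • c q) ∧
      ∀ q : QuoMod J I, c q = 0 ↔ q ∈ (Ideal.ofList rs • ⊤ : Submodule A (QuoMod J I)) := by
  classical
  let f : (I : Submodule A A) →ₛₗ[algebraMap A R]
      QuoMod (J.map (algebraMap A R)) (I.map (algebraMap A R)) :=
    { toFun := fun z => Submodule.Quotient.mk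
        (⟨algebraMap A R (z : A), Ideal.mem_map_of_mem _ z.2⟩ :
          (I.map (algebraMap A R) : Submodule R R))
      map_add' := by
        intro z w
        rw [← Submodule.Quotient.mk_add]
        congr 1
        apply Subtype.ext
        simp
      map_smul' := by
        intro a z
        rw [← Submodule.Quotient.mk_smul]
        congr 1
        apply Subtype.ext
        show algebraMap A R (a * (z : A)) = algebraMap A R a * algebraMap A R (z : A)
        rw [map_mul] }
  have hf : ∀ z : (I : Submodule A A), f z = Submodule.Quotient.mk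
        (⟨algebraMap A R (z : A), Ideal.mem_map_of_mem _ z.2⟩ :
          (I.map (algebraMap A R) : Submodule R R)) := fun z => rfl
  have hf0 : ∀ z : (I : Submodule A A), f z = 0 ↔
      algebraMap A R (z : A) ∈ J.map (algebraMap A R) := by
    intro z
    rw [hf, Submodule.Quotient.mk_eq_zero]
    rfl
  have hle : Submodule.submoduleOf J I ≤ LinearMap.ker f := by
    intro z hz
    rw [LinearMap.mem_ker, hf0]
    exact Ideal.mem_map_of_mem _ hz
  refine ⟨((Submodule.submoduleOf J I).liftQ f hle).toAddMonoidHom, ?_, ?_, ?_⟩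
  · intro y
    obtain ⟨w, rfl⟩ := Submodule.Quotient.mk_surjective _ y
    obtain ⟨a, ha, haw⟩ := (Ideal.mem_map_iff_of_surjective _ hsurj).1 w.2
    refine ⟨Submodule.Quotient.mk (⟨a, ha⟩ : (I : Submodule A A)), ?_⟩
    show (Submodule.submoduleOf J I).liftQ f hle (Submodule.Quotient.mk _) = _
    rw [Submodule.liftQ_apply, hf]
    congr 1
    exact Subtype.ext haw
  · intro a q
    exact map_smulₛₗ ((Submodule.submoduleOf J I).liftQ f hle) a q
  · intro q
    obtain ⟨z, rfl⟩ := Submodule.Quotient.mk_surjective _ q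
    show (Submodule.submoduleOf J I).liftQ f hle (Submodule.Quotient.mk z) = 0 ↔ _
    rw [Submodule.liftQ_apply, hf0, mk_quoMod_mem24]
    constructor
    · intro h
      obtain ⟨y, hy, hyz⟩ := (Ideal.mem_map_iff_of_surjective _ hsurj).1 h
      refine ⟨y, hy, hI ⟨sub_mem z.2 (hJI hy), ?_⟩, hJI hy⟩
      show (z : A) - y ∈ Ideal.ofList rs
      rw [← hker, RingHom.mem_ker, map_sub, hyz, sub_self]
    · rintro ⟨y, hy, hw, -⟩
      have h1 : (z : A) - y ∈ RingHom.ker (algebraMap A R) := by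
        rw [hker]
        have h5 : Ideal.ofList rs * I ≤ Ideal.ofList rs := Ideal.mul_le_left
        exact h5 hw
      rw [RingHom.mem_ker, map_sub, sub_eq_zero] at h1
      rw [h1]
      exact Ideal.mem_map_of_mem _ hy

end Pool.Helper49.DP
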