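import Mathlib
import Pool.Agent.Helper49.DP.Defs
import Pool.Agent.Helper49.DP.Grade1
import Pool.Agent.Helper49.DP.Grade2

/-!
Project DP (MP_f60bb9_ag).  Block DP-3: adding one element to an ideal raises the grade by at
most one.

`A` is a Noetherian local ring, `E` a finite module, `J` an ideal in the maximal ideal, `y` in the
maximal ideal.

Step 1 (`eq_zero_of_grade_two`): if `GradeGE (J ⊔ span {y}) E 2` and `h : E` with `J h = 0`, then
`h = 0`.  Proof.  Let `H = {h | ∀ a ∈ J, a • h = 0}`, a submodule (finitely generated since `E` is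
Noetherian).  We show `H = y H`, i.e. `H ≤ span {y} • H`, and conclude by Nakayama
(`Submodule.eq_bot_of_le_smul_of_le_jacobson_bot`).  Let `h ∈ H`.  Let `u, v ∈ J ⊔ span {y}` be the
regular sequence: `u` is regular on `E`, `v` is regular on `E / uE`.
(i) If `f : (J ⊔ span {y}) → E` is a function with `c • f a = f (c * a)`-type linearity, i.e. an
`A`-linear map from the ideal `J' = J ⊔ span {y}` to `E`, then there is `m : E` with `f a = a • m`
for all `a ∈ J'`:  `v • f u = f (v u) = u • f v`, so `f u ∈ u E` as `v` is regular modulo `u`: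
`f u = u • m`.  For `a ∈ J'`: `u • f a = f (u a) = a • f u = u • (a • m)`, so `f a = a • m`.
(ii) `y` kills no nonzero element of `H`: if `y • h' = 0` and `J h' = 0` then `J' h' = 0`, so
`u • h' = 0` and `h' = 0`.
(iii) Define `f : J' → E` by `f (a + b y) = b • h` (`a ∈ J`, `b : A`).  It is well defined: if
`a + b y = a' + b' y` then `(b - b') y ∈ J`, put `c = b - b'`; the element `c • h` is in `H` and
`y • (c • h) = (c y) • h = 0`, so `c • h = 0` by (ii).  In Lean: choose for every element of `J'` a
decomposition (`Ideal.mem_sup`/`Submodule.mem_sup`, `Ideal.mem_span_singleton'`) and prove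
linearity from well-definedness.
(iv) By (i) there is `m` with `f = (· • m)`: for `a ∈ J`, `a • m = f a = 0`, so `m ∈ H`; and
`y • m = f y = h`.  Hence `h ∈ y H`.

Step 2 (`drop`): induction on `g`, generalizing `E`.  `g = 0`: the empty list.  `g + 1`: from
`GradeGE (J ⊔ span {y}) E (g + 2)`; by `mono_right` and Step 1 the submodule
`{h | J h = 0}` is zero, so `J` contains an element `w` regular on `E`: in a Noetherian ring,
if every element of `J` is a zero divisor on the finite module `E` then `J` is contained in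
an associated prime (`biUnion_associatedPrimes_eq_compl_regular`, finiteness of the
associated primes `associatedPrimes.finite`, prime avoidance
`Ideal.subset_union_prime`), so `J` kills a nonzero element of `E`.
(See also `IsLocalRing`/`Module` lemmas near `subsingleton_linearMap_iff` in
`Mathlib/RingTheory/Regular/LinearMap.lean`: `Subsingleton (N →ₗ[R] M) ↔ ∃ r ∈ ann N,
IsSMulRegular M r`; with `N = A ⧸ J` this gives `w` at once.)
Then `GradeGE.quotSMulTop` (with the ideal `J ⊔ span {y}` and `w ∈ J`) gives
`GradeGE (J ⊔ span {y}) (QuotSMulTop w E) (g + 1)`, by induction `GradeGE J (QuotSMulTop w E) g`,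
and putting `w` in front (`isWeaklyRegular_cons_iff`) gives `GradeGE J E (g + 1)`.

Step 3 (`drop_list`): induction on `ys` (`Ideal.ofList_cons`, `sup_assoc`).
-/

namespace Pool.Helper49.DP

open RingTheory.Sequence

universe u

variable {A : Type u} [CommRing A] [IsNoetherianRing A] [IsLocalRing A]
  {E : Type u} [AddCommGroup E] [Module A E] [Module.Finite A E]

theorem eq_zero_of_grade_two {J : Ideal A} {y : A} (hJ : J ≤ IsLocalRing.maximalIdeal A)
    (hy : y ∈ IsLocalRing.maximalIdeal A) (h : GradeGE (J ⊔ Ideal.span {y}) E 2) {z : E}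
    (hz : ∀ a ∈ J, a • z = 0) : z = 0 := by
  obtain ⟨rs, h1, h2, h3⟩ := h
  obtain ⟨u, v, rfl⟩ := List.length_eq_two.1 h1
  rw [isWeaklyRegular_cons_iff, isWeaklyRegular_singleton_iff] at h3
  obtain ⟨hu, hv⟩ := h3
  have huJ : u ∈ J ⊔ Ideal.span {y} := h2 u (by simp)
  have hvJ : v ∈ J ⊔ Ideal.span {y} := h2 v (by simp)
  have hle : J ≤ J ⊔ Ideal.span {y} := le_sup_left
  have hyJ : y ∈ J ⊔ Ideal.span {y} :=
    (le_sup_right : Ideal.span {y} ≤ J ⊔ Ideal.span {y}) (Ideal.mem_span_singleton_self y)
  have dec : ∀ a : (J ⊔ Ideal.span {y} : Ideal A), ∃ b : A, a.1 - b * y ∈ J := by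
    intro a
    obtain ⟨p, hp, q, hq, hpq⟩ := Submodule.mem_sup.1 a.2
    obtain ⟨b, hb⟩ := Ideal.mem_span_singleton'.1 hq
    refine ⟨b, ?_⟩
    rw [← hpq, hb]
    simpa using hp
  let H : Submodule A E :=
    { carrier := {h | ∀ a ∈ J, a • h = 0}
      add_mem' := by
        intro p q hp hq a ha
        rw [smul_add, hp a ha, hq a ha, add_zero]
      zero_mem' := fun a _ => smul_zero a
      smul_mem' := by
        intro c p hp a ha
        rw [smul_comm, hp a ha, smul_zero] }
  have hH : ∀ w : E, w ∈ H ↔ ∀ a ∈ J, a • w = 0 := fun w => Iff.rfl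
  have hlin : ∀ f : (J ⊔ Ideal.span {y} : Ideal A) →ₗ[A] E,
      ∃ m : E, ∀ a : (J ⊔ Ideal.span {y} : Ideal A), f a = a.1 • m := by
    intro f
    have e1 : v • f ⟨u, huJ⟩ = u • f ⟨v, hvJ⟩ := by
      rw [← map_smul, ← map_smul]
      congr 1
      exact Subtype.ext (mul_comm v u)
    have e2 : v • (Submodule.Quotient.mk (f ⟨u, huJ⟩) : QuotSMulTop u E) = v • 0 := by
      rw [smul_zero, ← Submodule.Quotient.mk_smul, Submodule.Quotient.mk_eq_zero, e1]
      exact Submodule.smul_mem_pointwise_smul _ _ _ Submodule.mem_top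
    have e3 := hv e2
    rw [Submodule.Quotient.mk_eq_zero, Submodule.mem_smul_pointwise_iff_exists] at e3
    obtain ⟨m, -, hm⟩ := e3
    refine ⟨m, fun a => hu ?_⟩
    show u • f a = u • a.1 • m
    have e4 : u • f a = a.1 • f ⟨u, huJ⟩ := by
      rw [← map_smul, ← map_smul]
      congr 1
      exact Subtype.ext (mul_comm u a.1)
    rw [e4, ← hm, smul_comm]
  have hfin : H ≤ Ideal.span {y} • H := by
    intro w hw
    rw [hH] at hw
    have key : ∀ c : A, c * y ∈ J → c • w = 0 := by
      intro c hc
      have k1 : ∀ a ∈ J, a • (c • w) = 0 := by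
        intro a ha
        rw [smul_comm, hw a ha, smul_zero]
      have k2 : y • (c • w) = 0 := by
        rw [smul_smul, mul_comm]
        exact hw _ hc
      obtain ⟨b, hb⟩ := dec ⟨u, huJ⟩
      have k3 : u • (c • w) = u • (0 : E) := by
        rw [smul_zero]
        have k4 : u = (u - b * y) + b * y := by ring
        rw [k4, add_smul, k1 _ hb, mul_smul, k2, smul_zero, add_zero]
      exact hu k3
    have key2 : ∀ c d : A, (c - d) * y ∈ J → c • w = d • w := by
      intro c d hcd
      have k1 := key _ hcd
      rwa [sub_smul, sub_eq_zero] at k1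
    choose B hB using dec
    let f : (J ⊔ Ideal.span {y} : Ideal A) →ₗ[A] E :=
      { toFun := fun a => B a • w
        map_add' := by
          intro a a'
          rw [← add_smul]
          apply key2
          have k1 := sub_mem (add_mem (hB a) (hB a')) (hB (a + a'))
          have k2 : (B (a + a') - (B a + B a')) * y
              = (a.1 - B a * y + (a'.1 - B a' * y)) - ((a + a').1 - B (a + a') * y) := by
            rw [Submodule.coe_add]
            ring
          rw [k2]
          exact k1
        map_smul' := by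
          intro c a
          rw [RingHom.id_apply, smul_smul]
          apply key2
          have k1 := sub_mem (J.mul_mem_left c (hB a)) (hB (c • a))
          have k2 : (B (c • a) - c * B a) * y
              = c * (a.1 - B a * y) - ((c • a).1 - B (c • a) * y) := by
            rw [Submodule.coe_smul, smul_eq_mul]
            ring
          rw [k2]
          exact k1 }
    have hf : ∀ a, f a = B a • w := fun a => rfl
    obtain ⟨m, hm⟩ := hlin f
    have hmH : m ∈ H := by
      rw [hH]
      intro a ha
      have k1 := hm ⟨a, hle ha⟩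
      rw [hf] at k1
      have k2 : B ⟨a, hle ha⟩ * y ∈ J := by
        have k3 := sub_mem ha (hB ⟨a, hle ha⟩)
        simpa using k3
      rw [key _ k2] at k1
      exact k1.symm
    have hwy : w = y • m := by
      have k1 := hm ⟨y, hyJ⟩
      rw [hf] at k1
      rw [← k1]
      have k2 : (1 : A) • w = B ⟨y, hyJ⟩ • w := by
        apply key2
        have k3 := hB ⟨y, hyJ⟩
        have k4 : (1 - B ⟨y, hyJ⟩) * y = y - B ⟨y, hyJ⟩ * y := by ring
        rw [k4]
        exact k3
      rwa [one_smul] at k2
    rw [hwy]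
    exact Submodule.smul_mem_smul (Ideal.mem_span_singleton_self y) hmH
  have hbot : H = ⊥ := by
    refine Submodule.eq_bot_of_le_smul_of_le_jacobson_bot (Ideal.span {y}) H
      (IsNoetherian.noetherian H) hfin ?_
    refine le_trans ?_ (IsLocalRing.maximalIdeal_le_jacobson ⊥)
    rw [Ideal.span_singleton_le_iff_mem]
    exact hy
  have hzH : z ∈ H := (hH z).2 hz
  rw [hbot, Submodule.mem_bot] at hzH
  exact hzH

private theorem drop_aux56 {J : Ideal A} {y : A} (hJ : J ≤ IsLocalRing.maximalIdeal A)
    (hy : y ∈ IsLocalRing.maximalIdeal A) (g : ℕ) :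
    ∀ (E : Type u) [AddCommGroup E] [Module A E] [Module.Finite A E],
      GradeGE (J ⊔ Ideal.span {y}) E (g + 1) → GradeGE J E g := by
  induction g with
  | zero =>
    intro E _ _ _ _
    exact ⟨[], rfl, by simp, IsWeaklyRegular.nil A E⟩
  | succ g ih =>
    intro E _ _ _ h
    have h2 : GradeGE (J ⊔ Ideal.span {y}) E 2 := h.mono_right (by omega)
    have hsub : Subsingleton ((A ⧸ J) →ₗ[A] E) := by
      refine subsingleton_of_forall_eq 0 fun φ => ?_
      have h3 : φ (Ideal.Quotient.mk J 1) = 0 := by
        refine eq_zero_of_grade_two hJ hy h2 fun a ha => ?_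
        rw [← map_smul]
        have h4 : a • (Ideal.Quotient.mk J 1) = (0 : A ⧸ J) := by
          rw [← Ideal.Quotient.mk_eq_mk, ← Submodule.Quotient.mk_smul,
            Submodule.Quotient.mk_eq_zero]
          simpa using ha
        rw [h4, map_zero]
      refine LinearMap.ext fun q => ?_
      obtain ⟨a, rfl⟩ := Ideal.Quotient.mk_surjective q
      have h5 : (Ideal.Quotient.mk J a) = a • (Ideal.Quotient.mk J 1) := by
        rw [← Ideal.Quotient.mk_eq_mk, ← Ideal.Quotient.mk_eq_mk,
          ← Submodule.Quotient.mk_smul, smul_eq_mul, mul_one]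
      rw [h5, map_smul, h3, smul_zero, LinearMap.zero_apply]
    obtain ⟨w, hw, hreg⟩ := IsSMulRegular.subsingleton_linearMap_iff.1 hsub
    rw [Ideal.annihilator_quotient] at hw
    have hJ' : J ⊔ Ideal.span {y} ≤ IsLocalRing.maximalIdeal A :=
      sup_le hJ ((Ideal.span_singleton_le_iff_mem _).2 hy)
    have h6 : GradeGE (J ⊔ Ideal.span {y}) (QuotSMulTop w E) (g + 1) :=
      GradeGE.quotSMulTop hJ' ((le_sup_left : J ≤ J ⊔ Ideal.span {y}) hw) hreg h
    obtain ⟨rs, h7, h8, h9⟩ := ih (QuotSMulTop w E) h6
    refine ⟨w :: rs, by rw [List.length_cons, h7], ?_, ?_⟩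
    · intro r hr
      rcases List.mem_cons.1 hr with rfl | hr
      · exact hw
      · exact h8 r hr
    · rw [isWeaklyRegular_cons_iff]
      exact ⟨hreg, h9⟩

theorem GradeGE.drop {J : Ideal A} {y : A} (hJ : J ≤ IsLocalRing.maximalIdeal A)
    (hy : y ∈ IsLocalRing.maximalIdeal A) {g : ℕ}
    (h : GradeGE (J ⊔ Ideal.span {y}) E (g + 1)) : GradeGE J E g :=
  drop_aux56 hJ hy g E h

theorem GradeGE.drop_list {J : Ideal A} {ys : List A} (hJ : J ≤ IsLocalRing.maximalIdeal A)
    (hy : ∀ y ∈ ys, y ∈ IsLocalRing.maximalIdeal A) {g : ℕ}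
    (h : GradeGE (J ⊔ Ideal.ofList ys) E (g + ys.length)) : GradeGE J E g := by
  induction ys generalizing J g with
  | nil =>
    simpa using h
  | cons y ys ih =>
    have hy1 : y ∈ IsLocalRing.maximalIdeal A := hy y List.mem_cons_self
    have hJ' : J ⊔ Ideal.span {y} ≤ IsLocalRing.maximalIdeal A :=
      sup_le hJ ((Ideal.span_singleton_le_iff_mem _).2 hy1)
    have h1 : GradeGE (J ⊔ Ideal.span {y} ⊔ Ideal.ofList ys) E (g + 1 + ys.length) := by
      rw [Ideal.ofList_cons, ← sup_assoc, List.length_cons] at h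
      have h2 : g + 1 + ys.length = g + (ys.length + 1) := by omega
      rw [h2]
      exact h
    exact (ih hJ' (fun a ha => hy a (List.mem_cons_of_mem y ha)) h1).drop hJ hy1

end Pool.Helper49.DP
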