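import Mathlib
import Pool.Agent.Helper49.DP.Defs
import Pool.Agent.Helper49.DP.Grade1
import Pool.Agent.Helper49.DP.Grade2
import Pool.Agent.Helper49.DP.Grade3

/-!
Project DP (MP_f60bb9_ag).  Block DP-4: almost regular sequences are regular when the
depth is large.

`A` Noetherian local, `E` finite, `rs` a list and `x : κ → A` with
`span (range x) ⊔ ofList rs = maximalIdeal A`.  If `rs` is almost regular on `E`
(regular after inverting each `x j`) and the maximal ideal contains a weakly `E`-regular
sequence of length `rs.length`, then `rs` is weakly regular on `E`.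

Proof.  Show by induction (`List.reverseRecOn` on the prefix, or: for all `l₁ l₂` with
`rs = l₁ ++ l₂`, `IsWeaklyRegular E l₁`, by reverse induction on `l₁`) that every prefix is weakly
regular.  Step: `rs = l₁ ++ r :: l₂`, `l₁` weakly regular on `E`.  Put
`E₁ = E ⧸ (ofList l₁ • ⊤)` and `J = span (range x) ⊔ ofList (l₁ ++ [r])`.
Then `J ⊔ ofList l₂ = maximalIdeal A`, so `GradeGE (maximalIdeal A) E rs.length` and
`rs.length = (l₁.length + 1) + l₂.length` give by `GradeGE.drop_list`
`GradeGE J E (l₁.length + 1)`, and by `GradeGE.quot_ofList` (`l₁ ⊆ J`) `GradeGE J E₁ 1`.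
Let `z̄ ∈ E₁` with `r • z̄ = 0`, `z̄` the class of `z`: `r • z ∈ ofList l₁ • ⊤`, so for every `j`
some `x j ^ e` kills `z̄` (`AlmostReg`); the elements of `l₁` kill `E₁` and `r` kills `z̄`.  The set
`{a | ∃ e, a ^ e • z̄ = 0}` is the radical of the annihilator ideal of `z̄`, an ideal, and contains
`J`.  By `GradeGE.eq_zero`, `z̄ = 0`.  So `r` is regular on `E₁`, and `l₁ ++ [r]` is
weakly regular (`isWeaklyRegular_append_iff`).
-/

namespace Pool.Helper49.DP

open RingTheory.Sequence

universe u w

variable {A : Type u} [CommRing A]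

/-- If powers of the generators `x j` and of the members of `rs` kill `z`, then powers of
every element of the ideal they generate kill `z`. -/
theorem exists_pow_smul_eq_zero {E : Type*} [AddCommGroup E] [Module A E] {κ : Type w}
    (x : κ → A) (rs : List A) {z : E} (hx : ∀ j, ∃ e : ℕ, x j ^ e • z = 0)
    (hr : ∀ r ∈ rs, ∃ e : ℕ, r ^ e • z = 0) {a : A}
    (ha : a ∈ Ideal.span (Set.range x) ⊔ Ideal.ofList rs) : ∃ e : ℕ, a ^ e • z = 0 := by
  have h : Ideal.span (Set.range x) ⊔ Ideal.ofList rs ≤ (Ideal.torsionOf A E z).radical := by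
    refine sup_le (Ideal.span_le.2 ?_) (Ideal.span_le.2 ?_)
    · rintro _ ⟨j, rfl⟩
      obtain ⟨e, he⟩ := hx j
      exact ⟨e, (Ideal.mem_torsionOf_iff z _).2 he⟩
    · intro r hr'
      obtain ⟨e, he⟩ := hr r hr'
      exact ⟨e, (Ideal.mem_torsionOf_iff z _).2 he⟩
  obtain ⟨e, he⟩ := h ha
  exact ⟨e, (Ideal.mem_torsionOf_iff z _).1 he⟩

theorem isWeaklyRegular_of_almostReg [IsNoetherianRing A] [IsLocalRing A]
    {E : Type u} [AddCommGroup E] [Module A E] [Module.Finite A E] {κ : Type w}
    {x : κ → A} {rs : List A}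
    (hm : Ideal.span (Set.range x) ⊔ Ideal.ofList rs = IsLocalRing.maximalIdeal A)
    (h : AlmostReg x rs E) (hg : GradeGE (IsLocalRing.maximalIdeal A) E rs.length) :
    IsWeaklyRegular E rs := by
  have key : ∀ l₁ l₂ : List A, rs = l₁ ++ l₂ → IsWeaklyRegular E l₁ := by
    intro l₁
    induction l₁ using List.reverseRecOn with
    | nil => exact fun _ _ => IsWeaklyRegular.nil A E
    | append_singleton l₁ r ih =>
      intro l₂ hl
      have hl' : rs = l₁ ++ r :: l₂ := by rw [hl, List.append_assoc, List.singleton_append]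
      have ih' : IsWeaklyRegular E l₁ := ih (r :: l₂) hl'
      have hsup : (Ideal.span (Set.range x) ⊔ Ideal.ofList (l₁ ++ [r])) ⊔ Ideal.ofList l₂ =
          IsLocalRing.maximalIdeal A := by
        rw [← hm, hl, sup_assoc, ← Ideal.ofList_append]
      have hJ : Ideal.span (Set.range x) ⊔ Ideal.ofList (l₁ ++ [r]) ≤
          IsLocalRing.maximalIdeal A := hsup ▸ le_sup_left
      have hy : ∀ y ∈ l₂, y ∈ IsLocalRing.maximalIdeal A := fun y hy => by
        rw [← hsup]
        exact Ideal.mem_sup_right (Ideal.subset_span hy)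
      have hlen : rs.length = l₁.length + 1 + l₂.length := by
        rw [hl, List.length_append, List.length_append, List.length_singleton]
      have h1 : GradeGE (Ideal.span (Set.range x) ⊔ Ideal.ofList (l₁ ++ [r])) E
          (l₁.length + 1) :=
        GradeGE.drop_list hJ hy (by rw [hsup, ← hlen]; exact hg)
      have h2 : GradeGE (Ideal.span (Set.range x) ⊔ Ideal.ofList (l₁ ++ [r]))
          (E ⧸ (Ideal.ofList l₁ • ⊤ : Submodule A E)) 1 :=
        GradeGE.quot_ofList hJ (fun s hs => Ideal.mem_sup_right
          (Ideal.subset_span (List.mem_append_left _ hs))) ih' h1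
      have hreg : IsSMulRegular (E ⧸ (Ideal.ofList l₁ • ⊤ : Submodule A E)) r := by
        rw [isSMulRegular_iff_right_eq_zero_of_smul]
        intro zb hzb
        obtain ⟨z, rfl⟩ := Submodule.Quotient.mk_surjective _ zb
        have hz : r • z ∈ (Ideal.ofList l₁ • ⊤ : Submodule A E) := by
          rw [← Submodule.Quotient.mk_smul] at hzb
          exact (Submodule.Quotient.mk_eq_zero _).1 hzb
        refine h2.eq_zero fun a ha => exists_pow_smul_eq_zero x (l₁ ++ [r]) ?_ ?_ ha
        · intro j
          obtain ⟨e, he⟩ := h l₁ r l₂ hl' z j hz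
          refine ⟨e, ?_⟩
          rw [← Submodule.Quotient.mk_smul]
          exact (Submodule.Quotient.mk_eq_zero _).2 he
        · intro s hs
          refine ⟨1, ?_⟩
          rw [pow_one]
          rcases List.mem_append.1 hs with hs | hs
          · rw [← Submodule.Quotient.mk_smul]
            exact (Submodule.Quotient.mk_eq_zero _).2
              (Submodule.smul_mem_smul (Ideal.subset_span hs) trivial)
          · rw [List.mem_singleton.1 hs]
            exact hzb
      exact (isWeaklyRegular_append_iff E _ _).2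
        ⟨ih', (isWeaklyRegular_singleton_iff _ _).2 hreg⟩
  exact key rs [] (List.append_nil rs).symm

end Pool.Helper49.DP
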