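import Mathlib
import Pool.Agent.Helper49.DP.Defs
import Pool.Agent.Helper49.DP.Grade1

/-!
Project DP (MP_f60bb9_ag).  Block DP-6: a map that is an isomorphism outside the closed point
is an isomorphism if the source has depth 2 and the target depth 1.

`A` is a Noetherian local ring with maximal ideal `𝔪`, `R` an `A`-algebra, `N` an `A`-module, `N'` an
`R`-module, `f : N → N'` additive with `f (a • n) = algebraMap A R a • f n`, injective; every
element `w` of `N'` is multiplied into the range of `f` by a power of each `a ∈ 𝔪`; no nonzero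
element of `N'` is killed by `𝔪`; and `𝔪` contains a weakly regular sequence of length 2 on `N`.
Then `f` is surjective.

Proof.  Let `w ∈ N'`.  The set `{a : A | a • w ∈ range f}` (scalar action through
`algebraMap`) is an ideal whose radical contains `𝔪`; `𝔪` is finitely generated, so
`𝔪 ^ K` is contained in it for some `K` (`Ideal.exists_pow_le_of_le_radical_of_fg`).  We prove by
induction on `K` that every `w` with `𝔪 ^ K • w ⊆ range f` is in the range.  `K = 0`: clear.
`K + 1`: for every `a ∈ 𝔪`, `𝔪 ^ K • (a • w) ⊆ range f`, so `a • w ∈ range f` by induction.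
So we may assume `𝔪 w ⊆ range f`.  Let `[u, v]` be the weakly regular sequence on `N`,
`u • w = f n₁`, `v • w = f n₂`.  `f (v • n₁) = v • u • w = f (u • n₂)`, so `v • n₁ = u • n₂`
and, `v` being regular on `N / uN`, `n₁ = u • n`.  Put `w' = w - f n`: `u • w' = 0`.  For `a ∈ 𝔪`:
`a • w' = f n₃` for some `n₃` (as `a • w ∈ range f`), and `f (u • n₃) = a • u • w' = 0`, so
`u • n₃ = 0`, `n₃ = 0`, `a • w' = 0`.  So `𝔪 w' = 0`, `w' = 0` and `w = f n`.
-/

namespace Pool.Helper49.DP

open RingTheory.Sequence

universe u v w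

private lemma h80_core {A : Type u} [CommRing A] [IsNoetherianRing A] [IsLocalRing A]
    {R : Type u} [CommRing R] [Algebra A R] {N : Type v} [AddCommGroup N] [Module A N]
    {N' : Type w} [AddCommGroup N'] [Module R N'] (f : N →+ N')
    (hf : ∀ (a : A) (n : N), f (a • n) = algebraMap A R a • f n)
    (hinj : Function.Injective f)
    (hz : ∀ w : N', (∀ a ∈ IsLocalRing.maximalIdeal A, algebraMap A R a • w = 0) → w = 0)
    (hg : GradeGE (IsLocalRing.maximalIdeal A) N 2) (w : N')
    (hw : ∀ a ∈ IsLocalRing.maximalIdeal A, ∃ n : N, algebraMap A R a • w = f n) :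
    ∃ n : N, w = f n := by
  obtain ⟨rs, hlen, hmem, hreg⟩ := hg
  obtain ⟨u, v, rfl⟩ := List.length_eq_two.1 hlen
  have hu : u ∈ IsLocalRing.maximalIdeal A := hmem u (by simp)
  have hv : v ∈ IsLocalRing.maximalIdeal A := hmem v (by simp)
  rw [isWeaklyRegular_cons_iff] at hreg
  obtain ⟨hru, hreg⟩ := hreg
  rw [isWeaklyRegular_cons_iff] at hreg
  have hrv := hreg.1
  obtain ⟨n1, hn1⟩ := hw u hu
  obtain ⟨n2, hn2⟩ := hw v hv
  have h12 : v • n1 = u • n2 := by
    apply hinj
    rw [hf, hf, ← hn1, ← hn2, smul_smul, smul_smul, mul_comm]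
  have h0 : (Submodule.Quotient.mk n1 : QuotSMulTop u N) = 0 := by
    apply hrv
    change v • (Submodule.Quotient.mk n1 : QuotSMulTop u N) = v • 0
    rw [smul_zero, ← Submodule.Quotient.mk_smul, h12, Submodule.Quotient.mk_eq_zero]
    exact Submodule.smul_mem_pointwise_smul _ _ _ trivial
  rw [Submodule.Quotient.mk_eq_zero, Submodule.mem_smul_pointwise_iff_exists] at h0
  obtain ⟨n, -, hn⟩ := h0
  refine ⟨n, ?_⟩
  have hw' : w - f n = 0 := by
    apply hz
    have huw : algebraMap A R u • (w - f n) = 0 := by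
      rw [smul_sub, ← hf, hn, hn1, sub_self]
    intro a ha
    obtain ⟨n3, hn3⟩ := hw a ha
    have e1 : algebraMap A R a • (w - f n) = f (n3 - a • n) := by
      rw [smul_sub, map_sub, hf, hn3]
    have e2 : u • (n3 - a • n) = 0 := by
      apply hinj
      rw [hf, ← e1, smul_smul, mul_comm, ← smul_smul, huw, smul_zero, map_zero]
    have e3 : n3 - a • n = 0 := by
      apply hru
      change u • (n3 - a • n) = u • 0
      rw [e2, smul_zero]
    rw [e1, e3, map_zero]
  exact sub_eq_zero.1 hw'

theorem surjective_of_grade_two {A : Type u} [CommRing A] [IsNoetherianRing A] [IsLocalRing A]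
    {R : Type u} [CommRing R] [Algebra A R] {N : Type v} [AddCommGroup N] [Module A N]
    {N' : Type w} [AddCommGroup N'] [Module R N'] (f : N →+ N')
    (hf : ∀ (a : A) (n : N), f (a • n) = algebraMap A R a • f n)
    (hinj : Function.Injective f)
    (hpow : ∀ (w : N') (a : A), a ∈ IsLocalRing.maximalIdeal A →
      ∃ e : ℕ, ∃ n : N, algebraMap A R (a ^ e) • w = f n)
    (hz : ∀ w : N', (∀ a ∈ IsLocalRing.maximalIdeal A, algebraMap A R a • w = 0) → w = 0)
    (hg : GradeGE (IsLocalRing.maximalIdeal A) N 2) : Function.Surjective f := by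
  have key : ∀ (K : ℕ) (w : N'), (∀ a ∈ IsLocalRing.maximalIdeal A ^ K,
      ∃ n : N, algebraMap A R a • w = f n) → ∃ n : N, w = f n := by
    intro K
    induction K with
    | zero =>
      intro w hw
      obtain ⟨n, hn⟩ := hw 1 (by simp)
      exact ⟨n, by rwa [map_one, one_smul] at hn⟩
    | succ K ih =>
      intro w hw
      refine h80_core f hf hinj hz hg w fun a ha => ih _ fun b hb => ?_
      obtain ⟨n, hn⟩ := hw (b * a) (by rw [pow_succ]; exact Ideal.mul_mem_mul hb ha)
      exact ⟨n, by rw [smul_smul, ← map_mul, hn]⟩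
  intro w
  let I : Ideal A :=
    { carrier := {a | ∃ n : N, algebraMap A R a • w = f n}
      add_mem' := by
        rintro a b ⟨n, hn⟩ ⟨n', hn'⟩
        exact ⟨n + n', by rw [map_add, add_smul, hn, hn', map_add]⟩
      zero_mem' := ⟨0, by rw [map_zero, zero_smul, map_zero]⟩
      smul_mem' := by
        rintro c a ⟨n, hn⟩
        exact ⟨c • n, by rw [smul_eq_mul, map_mul, ← smul_smul, hn, hf]⟩ }
  have hrad : IsLocalRing.maximalIdeal A ≤ I.radical := by
    intro a ha
    obtain ⟨e, n, hn⟩ := hpow w a ha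
    exact ⟨e, n, hn⟩
  obtain ⟨K, hK⟩ := Ideal.exists_pow_le_of_le_radical_of_fg hrad
    (IsNoetherian.noetherian (IsLocalRing.maximalIdeal A))
  obtain ⟨n, hn⟩ := key K w fun a ha => hK ha
  exact ⟨n, hn.symm⟩

end Pool.Helper49.DP
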