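import Mathlib
import Pool.Agent.Helper49.DP.Defs
import Pool.Agent.Helper49.DP.Grade1
import Pool.Agent.Helper49.DP.Grade2
import Pool.Agent.Helper49.DP.Reg
import Pool.Agent.Helper49.DP.Comm
import Pool.Agent.Helper49.DP.Surj
import Pool.Agent.Helper49.DP.Pres
import Pool.Agent.Helper49.DP.QuoI

/-!
Project DP (MP_f60bb9_ag).  Block DP-11: the module `Hom (J, I / J)` commutes with the
specialisation `A → R = A / (rs)`.  Cites the earlier blocks as stated.

Setting: `A` Noetherian local, `J ≤ I` ideals, `A → R` surjective with kernel `(rs)`,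
`span (range x) ⊔ (rs) = 𝔪`, `(φ, g)` a presentation of `J`.  Put `Q = QuoMod J I = I / J`,
`M = Hom_A (J, Q)`, `Q_R = QuoMod (J R) (I R)`, `φ_R = φ.map (algebraMap A R)`.

1. `isWeaklyRegular_of_almostReg` gives: `rs` weakly regular on `A ⧸ I`, on `A ⧸ J` and on `M` (use
   `GradeGE.mono_right`; `M` is a finite module: `A` is Noetherian, `J` finitely generated, `Q`
   finite: `Module.Finite` instance for `Hom` over a Noetherian ring, or `M ≃ Kf φ Q`).
2. `quoMod_regular`: `rs` weakly regular on `Q`.  `inf_ofList_le` for `I` and `J`.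
   `exists_quoMap`: the map `c : Q → Q_R`, surjective, semilinear, `c q = 0 ↔ q ∈ (rs) Q`.
   `IsPres.map`: `(φ_R, g_R)` presents `J R`.
3. Let `F : Kf φ Q → Kf φ_R Q_R`, `q ↦ (c (q i))_i` (it lies in the kernel of `Lf φ_R Q_R` since
   `∑ i, algebraMap (φ j i) • c (q i) = c (∑ i, φ j i • q i)`); additive and semilinear.
   (3a) kernel: if `F q = 0` then `q i ∈ (rs) Q` for all `i`, and by `inj_almost`, for each `k` some
   `x k ^ e • q ∈ (rs) • ⊤`.  So in `N = Kf φ Q ⧸ (rs) • ⊤` the class of `q` is killed by powers of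
   all `x k` and by `rs`, so by powers of all elements of `𝔪` (`exists_pow_smul_eq_zero`), and
   `GradeGE 𝔪 N 1` (from `GradeGE 𝔪 M (rs.length + 2)`, `M ≃ Kf φ Q`, `GradeGE.of_equiv`,
   `GradeGE.quot_ofList`, `mono_right`), so it is zero: `q ∈ (rs) • ⊤`.  Conversely
   `(rs) • ⊤` is in the kernel since `rs` maps to zero in `R`.
   So `F` induces an injective `f : N → Kf φ_R Q_R`.
   (3b) `f` is surjective by `surjective_of_grade_two`.  `hpow`: for `w ∈ Kf φ_R Q_R` choose
   `q : Fin a → Q` with `c (q i) = w i`; `c (Lf φ Q q j) = 0`, so `Lf φ Q q j ∈ (rs) Q`, and by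
   `lift_almost` `x k ^ e • q i - q' i ∈ (rs) Q` with `q' ∈ Kf φ Q`, i.e.
   `x k ^ e • w = F q'`.  For `r ∈ rs`: `r • w = 0`.  So the powers of the `x k` and the members of
   `rs` multiply `w` into the range of `f`: apply `exists_pow_smul_eq_zero` in the `A`-module
   (quotient of `Kf φ_R Q_R`, an `A`-module through `algebraMap`, by the range), or argue
   directly with the ideal `{a | algebraMap a • w ∈ range f}` and its radical.
   `hz`: if `𝔪` kills `w ∈ Kf φ_R Q_R` then each `w i = c q`, and `Q_R ⊆ R ⧸ J R ≃ (A ⧸ J) ⧸ (rs)`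
   which has `GradeGE 𝔪 _ 1` (from `g2` by `GradeGE.quot_ofList`): so `w i = 0`.  Concretely: let
   `z ∈ I` represent `w i` (a preimage of a representative); for all `m ∈ 𝔪`, `m z ∈ J + (rs)`, so the
   class of `z` in `(A ⧸ J) ⧸ (rs) • ⊤` is killed by `𝔪` and is zero by `GradeGE.eq_zero`:
   `z ∈ J + (rs)`, whose image in `R` is in `J R`, so `w i = 0`.
   `hg`: `GradeGE 𝔪 N 2`.
4. Compose: `M ⧸ (rs) • ⊤ ≃ Kf φ Q ⧸ (rs) • ⊤ ≃+ Kf φ_R Q_R ≃ Hom_R (J R, Q_R)`
   (`IsPres.hom_equiv` over `A` and over `R`).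
-/

namespace Pool.Helper49.DP

open RingTheory.Sequence

universe u w

private theorem mem_map26 {A : Type*} [CommRing A] {E : Type*} [AddCommGroup E] [Module A E]
    {E' : Type*} [AddCommGroup E'] [Module A E'] (π : E →ₗ[A] E') (𝔞 : Ideal A) {z : E}
    (hz : z ∈ (𝔞 • ⊤ : Submodule A E)) : π z ∈ (𝔞 • ⊤ : Submodule A E') := by
  have h1 : π z ∈ (𝔞 • ⊤ : Submodule A E).map π := Submodule.mem_map_of_mem hz
  rw [Submodule.map_smul''] at h1
  exact Submodule.smul_mono le_rfl le_top h1

private theorem quot_zero26 {A : Type*} [CommRing A] (J 𝔞 : Ideal A) (z : A) :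
    (Submodule.Quotient.mk (Ideal.Quotient.mk J z) :
      (A ⧸ J) ⧸ (𝔞 • ⊤ : Submodule A (A ⧸ J))) = 0 ↔ z ∈ J ⊔ 𝔞 := by
  rw [Submodule.Quotient.mk_eq_zero]
  have e : (𝔞 • ⊤ : Submodule A (A ⧸ J)) =
      (𝔞 • ⊤ : Submodule A A).map (Algebra.linearMap A (A ⧸ J)) := by
    rw [Submodule.map_smul'', Submodule.map_top,
      LinearMap.range_eq_top.2 (show Function.Surjective (Algebra.linearMap A (A ⧸ J)) from
        Ideal.Quotient.mk_surjective)]
  rw [e, Ideal.smul_eq_mul, Ideal.mul_top, Submodule.mem_map]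
  constructor
  · rintro ⟨h, hh, h1⟩
    have h2 : z - h ∈ J := by
      rw [← Ideal.Quotient.eq_zero_iff_mem, map_sub, sub_eq_zero]
      exact h1.symm
    rw [← sub_add_cancel z h]
    exact Submodule.add_mem_sup h2 hh
  · intro hz
    obtain ⟨y, hy, h, hh, rfl⟩ := Submodule.mem_sup.1 hz
    refine ⟨h, hh, ?_⟩
    change Ideal.Quotient.mk J h = Ideal.Quotient.mk J (y + h)
    rw [map_add, Ideal.Quotient.eq_zero_iff_mem.2 hy, zero_add]

/-- `hz` of step (3b). -/
private theorem zero26 {A : Type u} [CommRing A] [IsNoetherianRing A] [IsLocalRing A]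
    {R : Type u} [CommRing R] [Algebra A R] {rs : List A}
    {J I : Ideal A} (hsurj : Function.Surjective (algebraMap A R))
    (hker : RingHom.ker (algebraMap A R) = Ideal.ofList rs)
    (hg : GradeGE (IsLocalRing.maximalIdeal A)
      ((A ⧸ J) ⧸ (Ideal.ofList rs • ⊤ : Submodule A (A ⧸ J))) 1)
    (w : QuoMod (J.map (algebraMap A R)) (I.map (algebraMap A R)))
    (hw : ∀ a ∈ IsLocalRing.maximalIdeal A, algebraMap A R a • w = 0) : w = 0 := by
  obtain ⟨⟨y, hy⟩, rfl⟩ := Submodule.Quotient.mk_surjective _ w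
  obtain ⟨z, hz, rfl⟩ := (Ideal.mem_map_iff_of_surjective _ hsurj).1 hy
  have key : ∀ a : A, algebraMap A R a ∈ J.map (algebraMap A R) ↔ a ∈ J ⊔ Ideal.ofList rs := by
    intro a
    constructor
    · intro ha
      obtain ⟨b, hb, hab⟩ := (Ideal.mem_map_iff_of_surjective _ hsurj).1 ha
      have h1 : a - b ∈ Ideal.ofList rs := by
        rw [← hker, RingHom.mem_ker, map_sub, hab, sub_self]
      have h2 : a = b + (a - b) := by ring
      rw [h2]
      exact Submodule.add_mem_sup hb h1
    · intro ha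
      obtain ⟨b, hb, h, hh, rfl⟩ := Submodule.mem_sup.1 ha
      rw [← hker, RingHom.mem_ker] at hh
      rw [map_add, hh, add_zero]
      exact Ideal.mem_map_of_mem _ hb
  rw [Submodule.Quotient.mk_eq_zero]
  change algebraMap A R z ∈ J.map (algebraMap A R)
  rw [key, ← quot_zero26]
  refine hg.eq_zero fun a ha => ⟨1, ?_⟩
  rw [pow_one, ← Submodule.Quotient.mk_smul]
  have h3 : a • Ideal.Quotient.mk J z = Ideal.Quotient.mk J (a * z) := rfl
  rw [h3, quot_zero26, ← key, map_mul]
  have h4 := hw a ha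
  rw [← Submodule.Quotient.mk_smul, Submodule.Quotient.mk_eq_zero] at h4
  exact h4

theorem exists_compare {A : Type u} [CommRing A] [IsNoetherianRing A] [IsLocalRing A]
    {R : Type u} [CommRing R] [Algebra A R] {κ : Type w} {x : κ → A} {rs : List A}
    {J I : Ideal A} (hJI : J ≤ I) (hsurj : Function.Surjective (algebraMap A R))
    (hker : RingHom.ker (algebraMap A R) = Ideal.ofList rs)
    (hm : Ideal.span (Set.range x) ⊔ Ideal.ofList rs = IsLocalRing.maximalIdeal A)
    {a b : ℕ} {φ : Matrix (Fin b) (Fin a) A} {g : Fin a → A} (hp : IsPres φ g J)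
    (h1 : AlmostReg x rs (A ⧸ I)) (h2 : AlmostReg x rs (A ⧸ J))
    (h3 : AlmostReg x rs ((J : Submodule A A) →ₗ[A] QuoMod J I))
    (h4 : AlmostReg x rs (Df φ (QuoMod J I)))
    (g1 : GradeGE (IsLocalRing.maximalIdeal A) (A ⧸ I) rs.length)
    (g2 : GradeGE (IsLocalRing.maximalIdeal A) (A ⧸ J) (rs.length + 1))
    (g3 : GradeGE (IsLocalRing.maximalIdeal A) ((J : Submodule A A) →ₗ[A] QuoMod J I)
      (rs.length + 2)) :
    IsWeaklyRegular ((J : Submodule A A) →ₗ[A] QuoMod J I) rs ∧
    ∃ e : (((J : Submodule A A) →ₗ[A] QuoMod J I) ⧸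
          (Ideal.ofList rs • ⊤ : Submodule A ((J : Submodule A A) →ₗ[A] QuoMod J I))) ≃+
        ((J.map (algebraMap A R) : Submodule R R) →ₗ[R]
          QuoMod (J.map (algebraMap A R)) (I.map (algebraMap A R))),
      ∀ (a : A) m, e (a • m) = algebraMap A R a • e m := by
  classical
  have hrs : ∀ r ∈ rs, r ∈ IsLocalRing.maximalIdeal A := fun r hr => by
    rw [← hm]
    exact Ideal.mem_sup_right (Ideal.subset_span hr)
  have hI : IsWeaklyRegular (A ⧸ I) rs := isWeaklyRegular_of_almostReg hm h1 g1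
  have hJ : IsWeaklyRegular (A ⧸ J) rs :=
    isWeaklyRegular_of_almostReg hm h2 (g2.mono_right (Nat.le_succ _))
  have hM : IsWeaklyRegular ((J : Submodule A A) →ₗ[A] QuoMod J I) rs :=
    isWeaklyRegular_of_almostReg hm h3 (g3.mono_right (by omega))
  refine ⟨hM, ?_⟩
  have hQ := quoMod_regular hJI hI hJ
  have hI' := inf_ofList_le hI
  have hJ' := inf_ofList_le hJ
  obtain ⟨c, hc1, hc2, hc3⟩ := exists_quoMap hJI hsurj hker hI'
  have hpR := hp.map hsurj hker hJ'
  obtain ⟨e1, -⟩ := hp.hom_equiv (QuoMod J I)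
  obtain ⟨e2, -⟩ := hpR.hom_equiv (QuoMod (J.map (algebraMap A R)) (I.map (algebraMap A R)))
  have hL : ∀ (q : Fin a → QuoMod J I) (j : Fin b),
      Lf (φ.map (algebraMap A R)) (QuoMod (J.map (algebraMap A R)) (I.map (algebraMap A R)))
        (fun i => c (q i)) j = c (Lf φ (QuoMod J I) q j) := by
    intro q j
    change ∑ i, (φ.map (algebraMap A R)) j i • c (q i) = c (∑ i, φ j i • q i)
    rw [map_sum]
    exact Finset.sum_congr rfl fun i _ => by rw [hc2, Matrix.map_apply]
  let F : Kf φ (QuoMod J I) →ₛₗ[algebraMap A R] Kf (φ.map (algebraMap A R))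
      (QuoMod (J.map (algebraMap A R)) (I.map (algebraMap A R))) :=
    { toFun := fun q => ⟨fun i => c (q.1 i), by
        rw [LinearMap.mem_ker]
        funext j
        rw [hL]
        have h5 : Lf φ (QuoMod J I) q.1 j = 0 := congrFun (LinearMap.mem_ker.1 q.2) j
        rw [h5, map_zero]
        rfl⟩
      map_add' := fun q q' => by
        apply Subtype.ext
        funext i
        exact map_add c _ _
      map_smul' := fun s q => by
        apply Subtype.ext
        funext i
        exact hc2 s _ }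
  have hFc : ∀ q i, (F q).1 i = c (q.1 i) := fun _ _ => rfl
  -- the submodule `(rs) • ⊤`
  have hKreg : IsWeaklyRegular (Kf φ (QuoMod J I)) rs := (e1.isWeaklyRegular_congr rs).1 hM
  have hK : GradeGE (IsLocalRing.maximalIdeal A) (Kf φ (QuoMod J I)) (rs.length + 2) :=
    g3.of_equiv e1
  have hN : GradeGE (IsLocalRing.maximalIdeal A)
      (Kf φ (QuoMod J I) ⧸ (Ideal.ofList rs • ⊤ : Submodule A (Kf φ (QuoMod J I)))) 2 :=
    GradeGE.quot_ofList le_rfl hrs hKreg hK
  have hN1 := hN.mono_right (g' := 1) (by omega)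
  have hle : (Ideal.ofList rs • ⊤ : Submodule A (Kf φ (QuoMod J I))) ≤ LinearMap.ker F := by
    intro q hq
    rw [LinearMap.mem_ker]
    apply Subtype.ext
    funext i
    rw [hFc]
    refine (hc3 _).2 ?_
    exact mem_map26 ((LinearMap.proj i).comp (Kf φ (QuoMod J I)).subtype) _ hq
  have hker' : ∀ q, F q = 0 → q ∈ (Ideal.ofList rs • ⊤ : Submodule A (Kf φ (QuoMod J I))) := by
    intro q hq
    have h5 : ∀ i, q.1 i ∈ (Ideal.ofList rs • ⊤ : Submodule A (QuoMod J I)) := fun i =>
      (hc3 _).1 (congrFun (congrArg Subtype.val hq) i)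
    rw [← Submodule.Quotient.mk_eq_zero]
    refine hN1.eq_zero fun s hs => exists_pow_smul_eq_zero x rs (fun k => ?_) (fun r hr => ?_)
      (hm.symm ▸ hs)
    · obtain ⟨e, he⟩ := inj_almost φ rs h4 hQ q h5 k
      refine ⟨e, ?_⟩
      rw [← Submodule.Quotient.mk_smul]
      exact (Submodule.Quotient.mk_eq_zero _).2 he
    · refine ⟨1, ?_⟩
      rw [pow_one, ← Submodule.Quotient.mk_smul]
      exact (Submodule.Quotient.mk_eq_zero _).2
        (Submodule.smul_mem_smul (Ideal.subset_span hr) trivial)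
  let f := (Ideal.ofList rs • ⊤ : Submodule A (Kf φ (QuoMod J I))).liftQ F hle
  have hfm : ∀ q, f (Submodule.Quotient.mk q) = F q := fun q => Submodule.liftQ_apply _ _ _
  have hinj : Function.Injective f := by
    rw [injective_iff_map_eq_zero]
    intro n hn
    obtain ⟨q, rfl⟩ := Submodule.Quotient.mk_surjective _ n
    rw [hfm] at hn
    exact (Submodule.Quotient.mk_eq_zero _).2 (hker' q hn)
  have hg1 : GradeGE (IsLocalRing.maximalIdeal A)
      ((A ⧸ J) ⧸ (Ideal.ofList rs • ⊤ : Submodule A (A ⧸ J))) 1 :=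
    GradeGE.quot_ofList le_rfl hrs hJ g2
  have hsur : Function.Surjective f := by
    refine surjective_of_grade_two (R := R) f.toAddMonoidHom (fun s n => f.map_smulₛₗ s n) hinj
      ?_ ?_ hN
    · intro w s hs
      let L : Ideal A :=
        { carrier := {t | ∃ n, algebraMap A R t • w = f n}
          add_mem' := by
            rintro t t' ⟨n, hn⟩ ⟨n', hn'⟩
            exact ⟨n + n', by rw [map_add, add_smul, hn, hn', map_add]⟩
          zero_mem' := ⟨0, by rw [map_zero, zero_smul, map_zero]⟩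
          smul_mem' := by
            rintro d t ⟨n, hn⟩
            exact ⟨d • n, by rw [smul_eq_mul, map_mul, ← smul_smul, hn, f.map_smulₛₗ]⟩ }
      have hrad : IsLocalRing.maximalIdeal A ≤ L.radical := by
        rw [← hm]
        refine sup_le (Ideal.span_le.2 ?_) (Ideal.span_le.2 ?_)
        · rintro _ ⟨k, rfl⟩
          choose q hq using fun i => hc1 (w.1 i)
          have hq1 : ∀ j, Lf φ (QuoMod J I) q j ∈
              (Ideal.ofList rs • ⊤ : Submodule A (QuoMod J I)) := by
            intro j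
            refine (hc3 _).1 ?_
            rw [← hL]
            have h6 : (fun i => c (q i)) = w.1 := funext hq
            rw [h6]
            exact congrFun (LinearMap.mem_ker.1 w.2) j
          obtain ⟨e, q', hq', h7⟩ := lift_almost φ rs h4 q hq1 k
          refine ⟨e, Submodule.Quotient.mk ⟨q', hq'⟩, ?_⟩
          rw [hfm]
          apply Subtype.ext
          funext i
          rw [hFc]
          have h8 : c (x k ^ e • q i - q' i) = 0 := (hc3 _).2 (h7 i)
          rw [map_sub, hc2, hq, sub_eq_zero] at h8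
          exact h8
        · intro r hr
          refine ⟨1, 0, ?_⟩
          have h6 : algebraMap A R r = 0 := by
            rw [← RingHom.mem_ker, hker]
            exact Ideal.subset_span hr
          rw [pow_one, h6, zero_smul, map_zero]
      obtain ⟨e, n, hn⟩ := hrad hs
      exact ⟨e, n, hn⟩
    · intro w hw
      apply Subtype.ext
      funext i
      refine zero26 hsurj hker hg1 (w.1 i) fun s hs => ?_
      exact congrFun (congrArg Subtype.val (hw s hs)) i
  let E1 : (((J : Submodule A A) →ₗ[A] QuoMod J I) ⧸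
      (Ideal.ofList rs • ⊤ : Submodule A ((J : Submodule A A) →ₗ[A] QuoMod J I))) ≃ₗ[A]
      (Kf φ (QuoMod J I) ⧸ (Ideal.ofList rs • ⊤ : Submodule A (Kf φ (QuoMod J I)))) :=
    Submodule.Quotient.equiv _ _ e1 (by
      rw [Submodule.map_smul'', Submodule.map_top, LinearEquiv.range])
  let E2 := AddEquiv.ofBijective f.toAddMonoidHom ⟨hinj, hsur⟩
  refine ⟨(E1.toAddEquiv.trans E2).trans e2.symm.toAddEquiv, fun s m => ?_⟩
  change e2.symm (f (E1 (s • m))) = algebraMap A R s • e2.symm (f (E1 m))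
  rw [map_smul, f.map_smulₛₗ, map_smul]

end Pool.Helper49.DP
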