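import Mathlib
import Pool.Agent.Helper49.DP.Defs

/-!
Project DP (MP_f60bb9_ag).  Block DP-9: ideals of minors.

* `minorIdeal_map`: `Ideal.map_span`, `RingHom.map_det`, `Matrix.submatrix_map`.
* `idB_le_idA`: minors of the submatrix are minors (`Matrix.submatrix_submatrix`).
-/

namespace Pool.Helper49.DP

universe u

theorem minorIdeal_map {A R : Type u} [CommRing A] [CommRing R] (f : A →+* R) {p q : ℕ} (s : ℕ)
    (X : Matrix (Fin p) (Fin q) A) : (minorIdeal s X).map f = minorIdeal s (X.map f) := by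
  rw [minorIdeal, minorIdeal, Ideal.map_span, ← Set.range_comp]
  congr 2
  funext fg
  simp only [Function.comp_apply, RingHom.map_det, RingHom.mapMatrix_apply, Matrix.submatrix_map]

theorem idA_map {A R : Type u} [CommRing A] [CommRing R] (f : A →+* R) {t m : ℕ} (s : ℕ)
    (X : Matrix (Fin t) (Fin (m + 1)) A) : (idA s X).map f = idA s (X.map f) := by
  exact minorIdeal_map f s X

theorem idB_map {A R : Type u} [CommRing A] [CommRing R] (f : A →+* R) {t m : ℕ} (s : ℕ)
    (X : Matrix (Fin t) (Fin (m + 1)) A) : (idB s X).map f = idB s (X.map f) := by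
  rw [idB, idB, minorIdeal_map, Matrix.submatrix_map]

theorem idB_le_idA {A : Type u} [CommRing A] {t m : ℕ} (s : ℕ)
    (X : Matrix (Fin t) (Fin (m + 1)) A) : idB s X ≤ idA s X := by
  rw [idB, idA, minorIdeal, minorIdeal]
  refine Ideal.span_mono ?_
  rintro _ ⟨fg, rfl⟩
  refine ⟨(fg.1, fun i => Fin.castSucc (fg.2 i)), ?_⟩
  simp only [Matrix.submatrix_submatrix]
  rfl

end Pool.Helper49.DP
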