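import Mathlib
import Pool.Agent.Helper49.DP.Defs
import Pool.Agent.Helper49.DP.Grade1
import Pool.Agent.Helper49.DP.Grade2

/-!
Project DP (MP_f60bb9_ag).  Block DP-10: depth and codepth modulo a regular sequence and along
a surjection of local rings.

* `CodepthEq.quot`: `A` Noetherian local, `M` finite, `rs` weakly regular on `M`, `rs` in the
  maximal ideal.  Then the codepth of `M ⧸ (rs) M` is the codepth of `M`.
  Let `DepthEq A M D`, `supportDim M = D + e`.  `M` is nontrivial (an `IsRegular` sequence exists),
  so `rs` is regular (`IsLocalRing.isRegular_iff_isWeaklyRegular_of_subset_maximalIdeal`) and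
  `rs.length ≤ D`, `D = rs.length + d`.  `GradeGE 𝔪 M (rs.length + d)` gives
  `GradeGE 𝔪 (M ⧸ (rs) M) d` by `GradeGE.quot_ofList`, i.e. a regular sequence (the quotient is
  nontrivial by Nakayama, or by `IsRegular.quot_ofList_smul_nontrivial`).  Conversely a regular
  sequence `rs'` on the quotient gives the weakly regular `rs ++ rs'` on `M`
  (`isWeaklyRegular_append_iff`), so `rs.length + rs'.length ≤ D`.  Dimension:
  `supportDim_add_length_eq_supportDim_of_isRegular` and cancellation in `WithBot ℕ∞`.
* `CodepthEq.of_semilinear`: `R` a local `A`-algebra with surjective structure map, `e : M ≃+ M'`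
  with `e (a • m) = algebraMap A R a • e m`.  Regular sequences correspond
  (`AddEquiv.isRegular_congr`): a list in the maximal ideal of `A` maps to a list in the maximal
  ideal of `R` (an element of `𝔪_A` cannot map to a unit `ρ`: `ρ⁻¹` is the image of some `b`, then
  `a b - 1` is in the kernel and in particular `a b - 1` is not a unit, but `a b ∈ 𝔪_A` makes
  `a b - 1` a unit; use `IsLocalRing.surjective_units_map...` or
  `IsLocalHom` facts: `IsLocalHom.of_surjective`/`Function.Surjective.isLocalHom` if available), and
  every list in `𝔪_R` is the image of a list in `𝔪_A` (a preimage of a nonunit is a nonunit).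
  Support dimension: both are `ringKrullDim` of the quotient by the annihilator
  (`Module.supportDim_eq_ringKrullDim_quotient_annihilator`), and
  `A ⧸ Ann_A M ≃+* R ⧸ Ann_R M'` (the map `A → R → R ⧸ Ann_R M'` is surjective with kernel
  `Ann_A M`; `RingHom.quotientKerEquivOfSurjective`).  `M'` is finite over `R` as the image of
  generators generates.
-/

namespace Pool.Helper49.DP

open RingTheory.Sequence

universe u v

theorem CodepthEq.quot {A : Type u} [CommRing A] [IsNoetherianRing A] [IsLocalRing A]
    {M : Type u} [AddCommGroup M] [Module A M] [Module.Finite A M] {rs : List A}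
    (hrs : ∀ r ∈ rs, r ∈ IsLocalRing.maximalIdeal A) (reg : IsWeaklyRegular M rs) {e : ℕ}
    (h : CodepthEq A M e) :
    CodepthEq A (M ⧸ (Ideal.ofList rs • ⊤ : Submodule A M)) e := by
  obtain ⟨D, ⟨⟨rs₀, hlen, hmem, hreg₀⟩, hmax⟩, hdim⟩ := h
  have hM : Nontrivial M := hreg₀.nontrivial
  have hregular : IsRegular M rs :=
    (IsLocalRing.isRegular_iff_isWeaklyRegular_of_subset_maximalIdeal hrs).2 reg
  have hQ : Nontrivial (M ⧸ (Ideal.ofList rs • ⊤ : Submodule A M)) :=
    hregular.quot_ofList_smul_nontrivial ⊤
  obtain ⟨d, rfl⟩ := Nat.exists_eq_add_of_le (hmax rs hrs hregular)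
  refine ⟨d, ⟨?_, ?_⟩, ?_⟩
  · have hg : GradeGE (IsLocalRing.maximalIdeal A) M (rs.length + d) :=
      ⟨rs₀, hlen, hmem, hreg₀.toIsWeaklyRegular⟩
    obtain ⟨rs', h1, h2, h3⟩ := GradeGE.quot_ofList le_rfl hrs reg hg
    exact ⟨rs', h1, h2,
      (IsLocalRing.isRegular_iff_isWeaklyRegular_of_subset_maximalIdeal h2).2 h3⟩
  · intro rs' h2 h3
    have hmem' : ∀ r ∈ rs ++ rs', r ∈ IsLocalRing.maximalIdeal A := by
      intro r hr
      rcases List.mem_append.1 hr with hr | hr
      · exact hrs r hr
      · exact h2 r hr
    have happ : IsWeaklyRegular M (rs ++ rs') :=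
      (isWeaklyRegular_append_iff M _ _).2 ⟨reg, h3.toIsWeaklyRegular⟩
    have := hmax (rs ++ rs') hmem'
      ((IsLocalRing.isRegular_iff_isWeaklyRegular_of_subset_maximalIdeal hmem').2 happ)
    rw [List.length_append] at this
    omega
  · have hd := Module.supportDim_add_length_eq_supportDim_of_isRegular rs hregular
    rw [hdim] at hd
    generalize hx : Module.supportDim A (M ⧸ (Ideal.ofList rs • ⊤ : Submodule A M)) = x at hd ⊢
    cases x with
    | bot =>
      exfalso
      rw [WithBot.bot_add] at hd
      have h2 : ((⊥ : WithBot ℕ∞)) = (((rs.length + d + e : ℕ) : ℕ∞) : WithBot ℕ∞) := hd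
      exact WithBot.bot_ne_coe h2
    | coe y =>
      cases y with
      | top =>
        exfalso
        revert hd
        generalize rs.length = l
        intro hd
        have h1 : (((⊤ : ℕ∞) : WithBot ℕ∞) + (l : WithBot ℕ∞)) = ((⊤ + (l : ℕ∞) : ℕ∞) : WithBot ℕ∞) := by
          push_cast
          rfl
        rw [h1, top_add] at hd
        have h2 : ((⊤ : ℕ∞) : WithBot ℕ∞) = (((l + d + e : ℕ) : ℕ∞) : WithBot ℕ∞) := hd
        exact ENat.top_ne_natCast _ (WithBot.coe_injective h2)
      | coe n =>
        have h1 : ((n + rs.length : ℕ) : WithBot ℕ∞) = ((rs.length + d + e : ℕ) : WithBot ℕ∞) := by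
          rw [← hd]
          push_cast
          rfl
        have h2 : n + rs.length = rs.length + d + e := by exact_mod_cast h1
        have h3 : n = d + e := by omega
        rw [h3]
        rfl

theorem CodepthEq.of_semilinear {A : Type u} [CommRing A] [IsLocalRing A]
    {R : Type u} [CommRing R] [IsLocalRing R] [Algebra A R]
    (hsurj : Function.Surjective (algebraMap A R))
    {M : Type v} [AddCommGroup M] [Module A M] [Module.Finite A M]
    {M' : Type v} [AddCommGroup M'] [Module R M'] (e : M ≃+ M')
    (he : ∀ (a : A) (m : M), e (a • m) = algebraMap A R a • e m) {c : ℕ}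
    (h : CodepthEq A M c) : CodepthEq R M' c := by
  have hloc : IsLocalHom (algebraMap A R) := IsLocalHom.of_surjective _ hsurj
  have hmem : ∀ a : A, algebraMap A R a ∈ IsLocalRing.maximalIdeal R ↔
      a ∈ IsLocalRing.maximalIdeal A := by
    intro a
    rw [IsLocalRing.mem_maximalIdeal, IsLocalRing.mem_maximalIdeal, mem_nonunits_iff,
      mem_nonunits_iff, isUnit_map_iff (algebraMap A R) a]
  have hcongr : ∀ rs : List A, IsRegular M rs ↔ IsRegular M' (rs.map (algebraMap A R)) := by
    intro rs
    exact e.isRegular_congr (List.forall₂_map_right_iff.mpr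
      (List.forall₂_same.mpr fun r _ x => he r x))
  obtain ⟨D, ⟨⟨rs₀, hlen, hmem₀, hreg₀⟩, hmax⟩, hdim⟩ := h
  refine ⟨D, ⟨⟨rs₀.map (algebraMap A R), by simpa using hlen, ?_, (hcongr rs₀).1 hreg₀⟩, ?_⟩, ?_⟩
  · intro r hr
    obtain ⟨a, ha, rfl⟩ := List.mem_map.1 hr
    exact (hmem a).2 (hmem₀ a ha)
  · intro rs' h1 h2
    obtain ⟨rs, rfl⟩ : ∃ rs : List A, rs.map (algebraMap A R) = rs' :=
      List.map_surjective_iff.2 hsurj rs'
    rw [List.length_map]
    refine hmax rs (fun r hr => (hmem r).1 (h1 _ (List.mem_map_of_mem hr))) ((hcongr rs).2 h2)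
  · -- `M'` is finite
    have hfin : Module.Finite R M' := by
      obtain ⟨s, hs⟩ := (inferInstance : Module.Finite A M).fg_top
      classical
      refine ⟨⟨s.image e, ?_⟩⟩
      rw [eq_top_iff]
      intro y _
      obtain ⟨x, rfl⟩ := e.surjective y
      have hx : x ∈ Submodule.span A (s : Set M) := by rw [hs]; trivial
      induction hx using Submodule.span_induction with
      | mem x hx =>
        refine Submodule.subset_span ?_
        rw [Finset.coe_image]
        exact ⟨x, hx, rfl⟩
      | zero => rw [map_zero]; exact zero_mem _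
      | add x y _ _ hx hy => rw [map_add]; exact add_mem (hx trivial) (hy trivial)
      | smul a x _ hx => rw [he]; exact Submodule.smul_mem _ _ (hx trivial)
    rw [← hdim, Module.supportDim_eq_ringKrullDim_quotient_annihilator,
      Module.supportDim_eq_ringKrullDim_quotient_annihilator]
    have hann : RingHom.ker ((Ideal.Quotient.mk (Module.annihilator R M')).comp
        (algebraMap A R)) = Module.annihilator A M := by
      ext a
      rw [RingHom.mem_ker, RingHom.comp_apply, Ideal.Quotient.eq_zero_iff_mem,
        Module.mem_annihilator, Module.mem_annihilator]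
      constructor
      · intro ha m
        apply e.injective
        rw [he, ha, map_zero]
      · intro ha m'
        obtain ⟨m, rfl⟩ := e.surjective m'
        rw [← he, ha, map_zero]
    have hs : Function.Surjective ((Ideal.Quotient.mk (Module.annihilator R M')).comp
        (algebraMap A R)) := Ideal.Quotient.mk_surjective.comp hsurj
    have f := (Ideal.quotEquivOfEq hann).symm.trans (RingHom.quotientKerEquivOfSurjective hs)
    exact (ringKrullDim_eq_of_ringEquiv f).symm

end Pool.Helper49.DP
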