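import Mathlib
import Pool.Agent.Helper49.DP.Defs
import Pool.Agent.Helper49.DP.Trans
import Pool.Agent.Helper49.DP.Compare
import Pool.Agent.Helper49.DP.Minor

/-!
Project DP (MP_f60bb9_ag).  The local theorem: the codepth of the pair module is unchanged by a
specialisation `A → A / (rs)` for which `rs` is almost regular on four modules.
-/

namespace Pool.Helper49.DP

open RingTheory.Sequence

universe u w

theorem codepth_of_almostReg {A : Type u} [CommRing A] [IsNoetherianRing A] [IsLocalRing A]
    {R : Type u} [CommRing R] [IsLocalRing R] [Algebra A R] {κ : Type w} {x : κ → A}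
    {rs : List A} (hsurj : Function.Surjective (algebraMap A R))
    (hker : RingHom.ker (algebraMap A R) = Ideal.ofList rs)
    (hm : Ideal.span (Set.range x) ⊔ Ideal.ofList rs = IsLocalRing.maximalIdeal A)
    {t m s : ℕ} (X : Matrix (Fin t) (Fin (m + 1)) A)
    {a b : ℕ} {φ : Matrix (Fin b) (Fin a) A} {g : Fin a → A} (hp : IsPres φ g (idB s X))
    (h1 : AlmostReg x rs (A ⧸ idA s X)) (h2 : AlmostReg x rs (A ⧸ idB s X))
    (h3 : AlmostReg x rs (PairModule s X))
    (h4 : AlmostReg x rs (Df φ (QuoMod (idB s X) (idA s X))))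
    (g1 : GradeGE (IsLocalRing.maximalIdeal A) (A ⧸ idA s X) rs.length)
    (g2 : GradeGE (IsLocalRing.maximalIdeal A) (A ⧸ idB s X) (rs.length + 1))
    (g3 : GradeGE (IsLocalRing.maximalIdeal A) (PairModule s X) (rs.length + 2))
    {e : ℕ} (h : CodepthEq A (PairModule s X) e) :
    CodepthEq R (PairModule s (X.map (algebraMap A R))) e := by
  obtain ⟨hreg, f, hf⟩ := exists_compare (R := R) (idB_le_idA s X) hsurj hker hm hp h1 h2 h3 h4
    g1 g2 g3
  have hrs : ∀ r ∈ rs, r ∈ IsLocalRing.maximalIdeal A := by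
    intro r hr
    rw [← hm]
    exact Ideal.mem_sup_right (Ideal.subset_span hr)
  have h' := (h.quot hrs hreg).of_semilinear hsurj f hf
  rw [idA_map, idB_map] at h'
  exact h'

end Pool.Helper49.DP
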