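import Mathlib
import Pool.Agent.Helper49.DP.RingDefs

/-!
Project DP (MP_f60bb9_ag).  Block DP-19: the specialisation map of the local rings.

`T = MvPolynomial ((Fin t × Fin (m + 1)) ⊕ Fin n) k`, `R = MvPolynomial (Fin n) k`, all degrees
`dg i j` positive.
* `exists_spec`: the map `π₀ : T → R`, `X (inl p) ↦ form α p`, `X (inr j) ↦ X j` (`aeval`), is
  surjective (`rename inr` is a section) with kernel generated by the `thetaPoly α p`: modulo
  these every `f ∈ T` is congruent to `rename inr (π₀ f)` (induction on `f`).  It is compatible with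
  the constant terms (`form α p` has constant term `0` as its degree is positive:
  `constantCoeff (form α p) = 0`), so `irr = π₀⁻¹ (irr)`, and it induces a map of the localisations
  `π` (`Localization.localRingHom`), surjective, whose kernel is the ideal generated by the images
  of the `thetaPoly α p`: if `π (f / s) = 0` then `u * π₀ f = 0` for some `u` outside `irr`, so
  `π₀ f = 0` (domain), so `f ∈ span (thetaPoly)`, and `f / s` is in the extended ideal.
* `span_extra_sup`: the maximal ideal of `Loc σ k` is generated by the images of the variables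
  (`IsLocalization.AtPrime.map_eq_maximalIdeal` or `Localization.AtPrime.map_eq_maximalIdeal`, and
  `irr σ k = span (range X)`: a polynomial with zero constant term is a combination of the variables);
  modulo the `extra j` and the `theta` all `X (inl p)` are zero since `form α p ∈ span (X j)`
  (positive degree).  Conversely all these elements are in the maximal ideal.
* `Loc` is Noetherian for finite `σ` (`IsLocalization.isNoetherianRing`), provide the instance.
-/

namespace Pool.Helper49.DP

open RingTheory.Sequence MvPolynomial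

universe u

instance isNoetherianRing_loc (σ : Type) [Finite σ] (k : Type u) [Field k] :
    IsNoetherianRing (Loc σ k) := by
  exact IsLocalization.isNoetherianRing (irr σ k).primeCompl (Loc σ k) inferInstance

section aux

variable {k : Type u} [Field k] {t m n : ℕ} {dg : Fin t → Fin (m + 1) → ℕ}

/-- The specialisation map of the polynomial rings. -/
private noncomputable def pi99 (α : Coef n dg → k) :
    MvPolynomial ((Fin t × Fin (m + 1)) ⊕ Fin n) k →ₐ[k] MvPolynomial (Fin n) k :=
  aeval (Sum.elim (form α) X)

private theorem pi99_rename (α : Coef n dg → k) (f : MvPolynomial (Fin n) k) :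
    pi99 α (rename Sum.inr f) = f := by
  unfold pi99
  rw [aeval_rename]
  have : (Sum.elim (form α) X ∘ Sum.inr : Fin n → MvPolynomial (Fin n) k) = X := by
    funext j
    rfl
  rw [this, aeval_X_left]
  rfl

private theorem pi99_theta (α : Coef n dg → k) (p : Fin t × Fin (m + 1)) :
    pi99 α (thetaPoly α p) = 0 := by
  unfold thetaPoly
  rw [map_sub, pi99_rename]
  unfold pi99
  rw [aeval_X]
  simp

private theorem mk99 (α : Coef n dg → k) (f : MvPolynomial ((Fin t × Fin (m + 1)) ⊕ Fin n) k) :
    f - rename Sum.inr (pi99 α f) ∈ Ideal.span (Set.range (thetaPoly α)) := by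
  rw [← Ideal.Quotient.eq]
  have h : Ideal.Quotient.mkₐ k (Ideal.span (Set.range (thetaPoly α))) =
      ((Ideal.Quotient.mkₐ k (Ideal.span (Set.range (thetaPoly α)))).comp
        (rename Sum.inr)).comp (pi99 α) := by
    apply MvPolynomial.algHom_ext
    intro i
    rcases i with p | j
    · simp only [AlgHom.comp_apply, Ideal.Quotient.mkₐ_eq_mk]
      rw [Ideal.Quotient.eq]
      have : pi99 α (X (Sum.inl p)) = form α p := by
        unfold pi99
        rw [aeval_X]
        rfl
      rw [this]
      exact Ideal.subset_span ⟨p, rfl⟩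
    · simp only [AlgHom.comp_apply, Ideal.Quotient.mkₐ_eq_mk]
      have : pi99 α (X (Sum.inr j)) = X j := by
        unfold pi99
        rw [aeval_X]
        rfl
      rw [this, rename_X]
  exact DFunLike.congr_fun h f

private theorem cc_form99 (hdg : ∀ i j, 0 < dg i j) (α : Coef n dg → k)
    (p : Fin t × Fin (m + 1)) : constantCoeff (form α p) = 0 := by
  unfold form
  rw [map_sum]
  apply Finset.sum_eq_zero
  intro μ _
  rw [constantCoeff_monomial]
  rw [if_neg]
  intro h0
  have h1 := μ.2
  rw [h0] at h1
  have h2 := hdg p.1 p.2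
  rw [map_zero] at h1
  omega

private theorem cc_pi99 (hdg : ∀ i j, 0 < dg i j) (α : Coef n dg → k)
    (f : MvPolynomial ((Fin t × Fin (m + 1)) ⊕ Fin n) k) :
    constantCoeff (pi99 α f) = constantCoeff f := by
  have h : (constantCoeff : MvPolynomial (Fin n) k →+* k).comp (pi99 α).toRingHom =
      constantCoeff := by
    apply MvPolynomial.ringHom_ext
    · intro r
      simp only [RingHom.comp_apply, AlgHom.toRingHom_eq_coe, RingHom.coe_coe]
      have : pi99 α (C r) = C r := by
        unfold pi99
        rw [← MvPolynomial.algebraMap_eq, AlgHom.commutes]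
        rfl
      rw [this]
      simp
    · intro i
      simp only [RingHom.comp_apply, AlgHom.toRingHom_eq_coe, RingHom.coe_coe]
      rcases i with p | j
      · have : pi99 α (X (Sum.inl p)) = form α p := by
          unfold pi99
          rw [aeval_X]
          rfl
        rw [this, cc_form99 hdg]
        simp
      · have : pi99 α (X (Sum.inr j)) = X j := by
          unfold pi99
          rw [aeval_X]
          rfl
        rw [this]
        simp
  exact DFunLike.congr_fun h f

private theorem comap99 (hdg : ∀ i j, 0 < dg i j) (α : Coef n dg → k) :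
    irr ((Fin t × Fin (m + 1)) ⊕ Fin n) k =
      (irr (Fin n) k).comap (pi99 α).toRingHom := by
  ext f
  simp only [irr, Ideal.mem_comap, RingHom.mem_ker, AlgHom.toRingHom_eq_coe, RingHom.coe_coe]
  rw [cc_pi99 hdg]

private theorem ofList_theta99 (α : Coef n dg → k) :
    Ideal.ofList (theta α) = (Ideal.span (Set.range (thetaPoly α))).map
      (algebraMap (MvPolynomial ((Fin t × Fin (m + 1)) ⊕ Fin n) k)
        (Loc ((Fin t × Fin (m + 1)) ⊕ Fin n) k)) := by
  rw [Ideal.map_span]
  unfold Ideal.ofList
  congr 1
  ext x
  simp only [Set.mem_image, Set.mem_range]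
  constructor
  · intro hx
    have hx' : x ∈ theta α := hx
    unfold theta at hx'
    rw [List.mem_map] at hx'
    obtain ⟨p, _, hp⟩ := hx'
    exact ⟨thetaPoly α p, ⟨p, rfl⟩, hp⟩
  · rintro ⟨y, ⟨p, rfl⟩, rfl⟩
    show _ ∈ theta α
    unfold theta
    rw [List.mem_map]
    exact ⟨p, mem_pairs p, rfl⟩

end aux

theorem exists_spec {k : Type u} [Field k] {t m n : ℕ} {dg : Fin t → Fin (m + 1) → ℕ}
    (hdg : ∀ i j, 0 < dg i j) (α : Coef n dg → k) :
    ∃ π : Loc ((Fin t × Fin (m + 1)) ⊕ Fin n) k →+* Loc (Fin n) k,
      Function.Surjective π ∧ RingHom.ker π = Ideal.ofList (theta α) ∧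
      ∀ i j, π (genMatrix t m n k i j) = formMatrix α i j := by
  refine ⟨Localization.localRingHom _ _ (pi99 α).toRingHom (comap99 hdg α), ?_, ?_, ?_⟩
  · intro y
    obtain ⟨r, s, rfl⟩ := IsLocalization.exists_mk'_eq (irr (Fin n) k).primeCompl y
    have hs : rename Sum.inr (s : MvPolynomial (Fin n) k) ∈
        (irr ((Fin t × Fin (m + 1)) ⊕ Fin n) k).primeCompl := by
      rw [Ideal.mem_primeCompl_iff, comap99 hdg α]
      simp only [Ideal.mem_comap, AlgHom.toRingHom_eq_coe, RingHom.coe_coe]
      rw [pi99_rename]
      exact s.2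
    refine ⟨IsLocalization.mk' _ (rename Sum.inr r) (⟨_, hs⟩ :
      (irr ((Fin t × Fin (m + 1)) ⊕ Fin n) k).primeCompl), ?_⟩
    rw [Localization.localRingHom_mk']
    congr 1
    · exact pi99_rename α r
    · apply Subtype.ext
      exact pi99_rename α s
  · rw [ofList_theta99]
    apply le_antisymm
    · intro x hx
      obtain ⟨f, s, rfl⟩ := IsLocalization.exists_mk'_eq
        (irr ((Fin t × Fin (m + 1)) ⊕ Fin n) k).primeCompl x
      rw [RingHom.mem_ker, Localization.localRingHom_mk', IsLocalization.mk'_eq_zero_iff] at hx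
      obtain ⟨u, hu⟩ := hx
      have hu0 : (u : MvPolynomial (Fin n) k) ≠ 0 := by
        intro h0
        have h1 := u.2
        rw [h0] at h1
        exact h1 (zero_mem _)
      have hf : pi99 α f = 0 := by
        rcases mul_eq_zero.mp hu with h | h
        · exact absurd h hu0
        · exact h
      have hmem : f ∈ Ideal.span (Set.range (thetaPoly α)) := by
        have := mk99 α f
        rw [hf, map_zero, sub_zero] at this
        exact this
      rw [IsLocalization.mk'_eq_mul_mk'_one]
      exact Ideal.mul_mem_right _ _ (Ideal.mem_map_of_mem _ hmem)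
    · rw [Ideal.map_le_iff_le_comap, Ideal.span_le]
      rintro _ ⟨p, rfl⟩
      rw [SetLike.mem_coe, Ideal.mem_comap, RingHom.mem_ker, Localization.localRingHom_to_map]
      have h : (pi99 α).toRingHom (thetaPoly α p) = 0 := pi99_theta α p
      rw [h, map_zero]
  · intro i j
    unfold genMatrix formMatrix
    rw [Localization.localRingHom_to_map]
    congr 1
    show pi99 α (X (Sum.inl (i, j))) = _
    unfold pi99
    rw [aeval_X]
    rfl

section aux2

variable {k : Type u} [Field k] {t m n : ℕ} {dg : Fin t → Fin (m + 1) → ℕ}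

private theorem mono_mem99 {σ : Type} {k : Type u} [Field k] (μ : σ →₀ ℕ) (hμ : μ ≠ 0) (c : k) :
    (monomial μ c : MvPolynomial σ k) ∈ Ideal.span (Set.range (X : σ → MvPolynomial σ k)) := by
  obtain ⟨i, hi⟩ : ∃ i, μ i ≠ 0 := by
    by_contra h
    push Not at h
    exact hμ (Finsupp.ext h)
  have h1 : (monomial μ c : MvPolynomial σ k) = X i * monomial (μ - Finsupp.single i 1) c := by
    rw [X, monomial_mul, one_mul]
    congr 1
    rw [add_tsub_cancel_of_le]
    rw [Finsupp.single_le_iff]
    omega
  rw [h1]
  exact Ideal.mul_mem_right _ _ (Ideal.subset_span ⟨i, rfl⟩)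

private theorem irr_span99 (σ : Type) (k : Type u) [Field k] :
    irr σ k = Ideal.span (Set.range (X : σ → MvPolynomial σ k)) := by
  apply le_antisymm
  · intro f hf
    have hf' : constantCoeff f = 0 := hf
    rw [f.as_sum]
    apply Ideal.sum_mem
    intro μ hμ
    apply mono_mem99
    intro h0
    rw [mem_support_iff, h0] at hμ
    exact hμ hf'
  · rw [Ideal.span_le]
    rintro _ ⟨i, rfl⟩
    show constantCoeff (X i) = 0
    simp

private theorem form_mem99 (hdg : ∀ i j, 0 < dg i j) (α : Coef n dg → k)
    (p : Fin t × Fin (m + 1)) :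
    form α p ∈ Ideal.span (Set.range (X : Fin n → MvPolynomial (Fin n) k)) := by
  rw [← irr_span99]
  exact cc_form99 hdg α p

end aux2

theorem span_extra_sup {k : Type u} [Field k] {t m n : ℕ} {dg : Fin t → Fin (m + 1) → ℕ}
    (hdg : ∀ i j, 0 < dg i j) (α : Coef n dg → k) :
    Ideal.span (Set.range (extra t m n k)) ⊔ Ideal.ofList (theta α) =
      IsLocalRing.maximalIdeal (Loc ((Fin t × Fin (m + 1)) ⊕ Fin n) k) := by
  have hE : Ideal.span (Set.range (extra t m n k)) =
      (Ideal.span (Set.range (fun j : Fin n =>
        (X (Sum.inr j) : MvPolynomial ((Fin t × Fin (m + 1)) ⊕ Fin n) k)))).map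
        (algebraMap (MvPolynomial ((Fin t × Fin (m + 1)) ⊕ Fin n) k)
          (Loc ((Fin t × Fin (m + 1)) ⊕ Fin n) k)) := by
    rw [Ideal.map_span, ← Set.range_comp]
    rfl
  rw [ofList_theta99, hE, ← Ideal.map_sup, ← Localization.AtPrime.map_eq_maximalIdeal]
  congr 1
  rw [irr_span99]
  apply le_antisymm
  · rw [sup_le_iff, Ideal.span_le, Ideal.span_le]
    constructor
    · rintro _ ⟨j, rfl⟩
      exact Ideal.subset_span ⟨_, rfl⟩
    · rintro _ ⟨p, rfl⟩
      rw [← irr_span99]
      show constantCoeff (thetaPoly α p) = 0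
      unfold thetaPoly
      rw [map_sub, constantCoeff_X, constantCoeff_rename, cc_form99 hdg, sub_zero]
  · rw [Ideal.span_le]
    rintro _ ⟨i, rfl⟩
    rcases i with p | j
    · have h1 : (X (Sum.inl p) : MvPolynomial ((Fin t × Fin (m + 1)) ⊕ Fin n) k) =
          rename Sum.inr (form α p) + thetaPoly α p := by
        unfold thetaPoly
        ring
      rw [h1]
      apply Ideal.add_mem
      · apply Ideal.mem_sup_left
        have h2 := Ideal.mem_map_of_mem
          (rename Sum.inr : MvPolynomial (Fin n) k →ₐ[k]
            MvPolynomial ((Fin t × Fin (m + 1)) ⊕ Fin n) k) (form_mem99 hdg α p)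
        rw [Ideal.map_span, ← Set.range_comp] at h2
        have h3 : ((rename Sum.inr : MvPolynomial (Fin n) k →ₐ[k]
            MvPolynomial ((Fin t × Fin (m + 1)) ⊕ Fin n) k) ∘ X) =
            fun j : Fin n => X (Sum.inr j) := by
          funext j
          simp
        rw [h3] at h2
        exact h2
      · apply Ideal.mem_sup_right
        exact Ideal.subset_span ⟨p, rfl⟩
    · apply Ideal.mem_sup_left
      exact Ideal.subset_span ⟨j, rfl⟩

end Pool.Helper49.DP
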