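import Mathlib
import Pool.Agent.Helper49.DP.LocalMain
import Pool.Agent.Helper49.DP.GPloc
import Pool.Agent.Helper49.DP.RingMap

/-!
Project DP (MP_f60bb9_ag).  The codepth of the general pair module from the generic one.
-/

namespace Pool.Helper49.DP

open RingTheory.Sequence MvPolynomial

universe u

theorem codepth_general {k : Type u} [Field k] {t m n s : ℕ} {dg : Fin t → Fin (m + 1) → ℕ}
    (hdg : ∀ i j, 0 < dg i j)
    (gA : GradeGE (IsLocalRing.maximalIdeal (Loc ((Fin t × Fin (m + 1)) ⊕ Fin n) k))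
      (Loc ((Fin t × Fin (m + 1)) ⊕ Fin n) k ⧸ idA s (genMatrix t m n k)) (t * (m + 1)))
    (gB : GradeGE (IsLocalRing.maximalIdeal (Loc ((Fin t × Fin (m + 1)) ⊕ Fin n) k))
      (Loc ((Fin t × Fin (m + 1)) ⊕ Fin n) k ⧸ idB s (genMatrix t m n k)) (t * (m + 1) + 1))
    (gM : GradeGE (IsLocalRing.maximalIdeal (Loc ((Fin t × Fin (m + 1)) ⊕ Fin n) k))
      (PairModule s (genMatrix t m n k)) (t * (m + 1) + 2))
    {e : ℕ} (h : CodepthEq (Loc ((Fin t × Fin (m + 1)) ⊕ Fin n) k)
      (PairModule s (genMatrix t m n k)) e) :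
    ∃ F : MvPolynomial (Coef n dg) k, F ≠ 0 ∧ ∀ α : Coef n dg → k, eval α F ≠ 0 →
      CodepthEq (Loc (Fin n) k) (PairModule s (formMatrix α)) e := by
  classical
  set T := Loc ((Fin t × Fin (m + 1)) ⊕ Fin n) k
  obtain ⟨a, b, φ, g, hp⟩ := exists_isPres (idB s (genMatrix t m n k))
  have hfinJ : Module.Finite T (idB s (genMatrix t m n k)) := inferInstance
  have hfinQ : Module.Finite T
      (QuoMod (idB s (genMatrix t m n k)) (idA s (genMatrix t m n k))) := inferInstance
  have hfinM : Module.Finite T (PairModule s (genMatrix t m n k)) := inferInstance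
  obtain ⟨F1, hF1, h1⟩ := exists_general_loc (k := k) (n := n) dg (T ⧸ idA s (genMatrix t m n k))
  obtain ⟨F2, hF2, h2⟩ := exists_general_loc (k := k) (n := n) dg (T ⧸ idB s (genMatrix t m n k))
  obtain ⟨F3, hF3, h3⟩ := exists_general_loc (k := k) (n := n) dg (PairModule s (genMatrix t m n k))
  obtain ⟨F4, hF4, h4⟩ := exists_general_loc (k := k) (n := n) dg
    (Df φ (QuoMod (idB s (genMatrix t m n k)) (idA s (genMatrix t m n k))))
  refine ⟨F1 * F2 * F3 * F4, mul_ne_zero (mul_ne_zero (mul_ne_zero hF1 hF2) hF3) hF4, ?_⟩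
  intro α hα
  simp only [map_mul, ne_eq, mul_eq_zero, not_or] at hα
  obtain ⟨⟨⟨hα1, hα2⟩, hα3⟩, hα4⟩ := hα
  obtain ⟨π, hsurj, hker, hπ⟩ := exists_spec hdg α
  letI : Algebra T (Loc (Fin n) k) := π.toAlgebra
  have hlen : (theta α).length = t * (m + 1) := theta_length α
  have key := codepth_of_almostReg (R := Loc (Fin n) k) (x := extra t m n k) (rs := theta α)
    hsurj hker (span_extra_sup hdg α) (genMatrix t m n k) hp
    (h1 α hα1) (h2 α hα2) (h3 α hα3) (h4 α hα4) (by rw [hlen]; exact gA)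
    (by rw [hlen]; exact gB) (by rw [hlen]; exact gM) h
  have hmat : (genMatrix t m n k).map (algebraMap T (Loc (Fin n) k)) = formMatrix α := by
    ext i j
    exact hπ i j
  rw [hmat] at key
  exact key

end Pool.Helper49.DP
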