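import Mathlib
import Pool.Agent.Helper49.DP.Defs
import Pool.Agent.Helper49.DP.Comm
import Pool.Agent.Helper49.DP.Pres
import Pool.Agent.Helper49.DP.QuoI

/-!
Project DP (MP_f60bb9_ag).  Block DP-20: the comparison of `Hom (J, I / J)` when the sequence is
honestly regular on all modules (no depth hypothesis).  Cites the earlier blocks as stated.

Setting: `J ≤ I` ideals of `A`, `A → R` surjective with kernel `(rs)`, `(φ, g)` a presentation of `J`;
`rs` weakly regular on `A ⧸ I`, `A ⧸ J` and `Df φ Q`, `Q = QuoMod J I`.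

1. A weakly regular sequence is almost regular for `x = fun _ : Unit => (1 : A)` (exponent `0`), and
   since `1 ^ e • z = z`, `lift_almost` and `inj_almost` with this `x` give the strict statements
   (S1) `Lf φ Q q j ∈ (rs) Q` for all `j` implies `q i - q' i ∈ (rs) Q` for some `q' ∈ Kf φ Q`;
   (S2) `q ∈ Kf φ Q` with entries in `(rs) Q` is in `(rs) • ⊤` of `Kf φ Q`;
   and the same for every prefix of `rs`.
2. `quoMod_regular`: `rs` weakly regular on `Q`; so `rs` is weakly regular on `Kf φ Q`: let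
   `rs = l₁ ++ r :: l₂`, `r • q ∈ (l₁) • ⊤` in `Kf φ Q`; the entries of `r • q` are in `(l₁) Q`, so those of
   `q` are (regularity on `Q`), and `q ∈ (l₁) • ⊤` by (S2) for `l₁`.  Transport to
   `M = Hom (J, Q)` by `IsPres.hom_equiv`.
3. `exists_quoMap` (with `inf_ofList_le`) gives `c : Q → Q_R`; `F : Kf φ Q → Kf φ_R Q_R`,
   `q ↦ (c (q i))_i`, is additive and semilinear; kernel `(rs) • ⊤` by (S2); surjective: for
   `w ∈ Kf φ_R Q_R` choose `q` with `c (q i) = w i`; `c (Lf φ Q q j) = 0`, so (S1) gives `q'` with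
   `c (q' i) = w i`.  Hence `Kf φ Q ⧸ (rs) • ⊤ ≃+ Kf φ_R Q_R`; compose with `IsPres.hom_equiv` over `A`
   and over `R` (`IsPres.map`).
-/

namespace Pool.Helper49.DP

open RingTheory.Sequence

universe u

private theorem mem_map89 {A : Type*} [CommRing A] {E : Type*} [AddCommGroup E] [Module A E]
    {E' : Type*} [AddCommGroup E'] [Module A E'] (π : E →ₗ[A] E') (𝔞 : Ideal A) {z : E}
    (hz : z ∈ (𝔞 • ⊤ : Submodule A E)) : π z ∈ (𝔞 • ⊤ : Submodule A E') := by
  have h1 : π z ∈ (𝔞 • ⊤ : Submodule A E).map π := Submodule.mem_map_of_mem hz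
  rw [Submodule.map_smul''] at h1
  exact Submodule.smul_mono le_rfl le_top h1

private theorem wr_elem89 {A : Type*} [CommRing A] {M : Type*} [AddCommGroup M] [Module A M]
    {l₁ : List A} {r : A} {l₂ : List A} (h : IsWeaklyRegular M (l₁ ++ r :: l₂)) (z : M)
    (hz : r • z ∈ (Ideal.ofList l₁ • ⊤ : Submodule A M)) :
    z ∈ (Ideal.ofList l₁ • ⊤ : Submodule A M) := by
  have h1 := ((isWeaklyRegular_append_iff M l₁ (r :: l₂)).1 h).2
  have h2 := ((isWeaklyRegular_cons_iff _ _ _).1 h1).1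
  rw [← Submodule.Quotient.mk_eq_zero] at hz ⊢
  apply h2
  show r • _ = r • _
  rw [smul_zero, ← Submodule.Quotient.mk_smul]
  exact hz

private theorem wr_of_elem89 {A : Type*} [CommRing A] {M : Type*} [AddCommGroup M] [Module A M]
    {rs : List A}
    (h : ∀ (l₁ : List A) (r : A) (l₂ : List A), rs = l₁ ++ r :: l₂ → ∀ z : M,
      r • z ∈ (Ideal.ofList l₁ • ⊤ : Submodule A M) →
        z ∈ (Ideal.ofList l₁ • ⊤ : Submodule A M)) : IsWeaklyRegular M rs := by
  refine ⟨fun i hi => ?_⟩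
  have hdec : rs = rs.take i ++ rs[i] :: rs.drop (i + 1) := by
    rw [List.getElem_cons_drop, List.take_append_drop]
  have h1 := h _ _ _ hdec
  rw [isSMulRegular_iff_right_eq_zero_of_smul]
  intro x hx
  obtain ⟨z, rfl⟩ := Submodule.Quotient.mk_surjective _ x
  rw [← Submodule.Quotient.mk_smul, Submodule.Quotient.mk_eq_zero] at hx
  rw [Submodule.Quotient.mk_eq_zero]
  exact h1 z hx

private theorem almost89 {A : Type*} [CommRing A] {M : Type*} [AddCommGroup M] [Module A M]
    {rs : List A} (h : IsWeaklyRegular M rs) : AlmostReg (fun _ : Unit => (1 : A)) rs M := by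
  intro l₁ r l₂ hrs z _ hz
  subst hrs
  exact ⟨0, by rw [pow_zero, one_smul]; exact wr_elem89 h z hz⟩

private theorem lift89 {A : Type*} [CommRing A] {a b : ℕ} (φ : Matrix (Fin b) (Fin a) A)
    {Q : Type*} [AddCommGroup Q] [Module A Q] (rs : List A) (h : IsWeaklyRegular (Df φ Q) rs)
    (q : Fin a → Q) (hq : ∀ j, Lf φ Q q j ∈ (Ideal.ofList rs • ⊤ : Submodule A Q)) :
    ∃ q' ∈ Kf φ Q, ∀ i, q i - q' i ∈ (Ideal.ofList rs • ⊤ : Submodule A Q) := by
  obtain ⟨e, q', hq', h1⟩ := lift_almost φ rs (almost89 h) q hq ()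
  refine ⟨q', hq', fun i => ?_⟩
  have h2 := h1 i
  rwa [one_pow, one_smul] at h2

private theorem inj89 {A : Type*} [CommRing A] {a b : ℕ} (φ : Matrix (Fin b) (Fin a) A)
    {Q : Type*} [AddCommGroup Q] [Module A Q] (rs : List A) (h : IsWeaklyRegular (Df φ Q) rs)
    (hreg : IsWeaklyRegular Q rs) (q : Kf φ Q)
    (hq : ∀ i, q.1 i ∈ (Ideal.ofList rs • ⊤ : Submodule A Q)) :
    q ∈ (Ideal.ofList rs • ⊤ : Submodule A (Kf φ Q)) := by
  obtain ⟨e, h1⟩ := inj_almost φ rs (almost89 h) hreg q hq ()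
  rwa [one_pow, one_smul] at h1

private theorem kf_regular89 {A : Type*} [CommRing A] {a b : ℕ} (φ : Matrix (Fin b) (Fin a) A)
    {Q : Type*} [AddCommGroup Q] [Module A Q] (rs : List A) (h : IsWeaklyRegular (Df φ Q) rs)
    (hreg : IsWeaklyRegular Q rs) : IsWeaklyRegular (Kf φ Q) rs := by
  apply wr_of_elem89
  intro l₁ r l₂ hrs q hq
  subst hrs
  refine inj89 φ l₁ ((isWeaklyRegular_append_iff _ _ _).1 h).1
    ((isWeaklyRegular_append_iff _ _ _).1 hreg).1 q fun i => ?_
  refine wr_elem89 hreg _ ?_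
  exact mem_map89 ((LinearMap.proj i).comp (Kf φ Q).subtype) _ hq

theorem exists_compare_strict {A : Type u} [CommRing A] {R : Type u} [CommRing R] [Algebra A R]
    {rs : List A} {J I : Ideal A} (hJI : J ≤ I) (hsurj : Function.Surjective (algebraMap A R))
    (hker : RingHom.ker (algebraMap A R) = Ideal.ofList rs)
    {a b : ℕ} {φ : Matrix (Fin b) (Fin a) A} {g : Fin a → A} (hp : IsPres φ g J)
    (h1 : IsWeaklyRegular (A ⧸ I) rs) (h2 : IsWeaklyRegular (A ⧸ J) rs)
    (h4 : IsWeaklyRegular (Df φ (QuoMod J I)) rs) :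
    IsWeaklyRegular ((J : Submodule A A) →ₗ[A] QuoMod J I) rs ∧
    ∃ e : (((J : Submodule A A) →ₗ[A] QuoMod J I) ⧸
          (Ideal.ofList rs • ⊤ : Submodule A ((J : Submodule A A) →ₗ[A] QuoMod J I))) ≃+
        ((J.map (algebraMap A R) : Submodule R R) →ₗ[R]
          QuoMod (J.map (algebraMap A R)) (I.map (algebraMap A R))),
      ∀ (a : A) m, e (a • m) = algebraMap A R a • e m := by
  classical
  have hQ := quoMod_regular hJI h1 h2
  have hI' := inf_ofList_le h1
  have hJ' := inf_ofList_le h2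
  obtain ⟨c, hc1, hc2, hc3⟩ := exists_quoMap hJI hsurj hker hI'
  have hpR := hp.map hsurj hker hJ'
  obtain ⟨e1, -⟩ := hp.hom_equiv (QuoMod J I)
  obtain ⟨e2, -⟩ := hpR.hom_equiv (QuoMod (J.map (algebraMap A R)) (I.map (algebraMap A R)))
  have hKreg : IsWeaklyRegular (Kf φ (QuoMod J I)) rs := kf_regular89 φ rs h4 hQ
  refine ⟨(e1.isWeaklyRegular_congr rs).2 hKreg, ?_⟩
  have hL : ∀ (q : Fin a → QuoMod J I) (j : Fin b),
      Lf (φ.map (algebraMap A R)) (QuoMod (J.map (algebraMap A R)) (I.map (algebraMap A R)))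
        (fun i => c (q i)) j = c (Lf φ (QuoMod J I) q j) := by
    intro q j
    change ∑ i, (φ.map (algebraMap A R)) j i • c (q i) = c (∑ i, φ j i • q i)
    rw [map_sum]
    exact Finset.sum_congr rfl fun i _ => by rw [hc2, Matrix.map_apply]
  let F : Kf φ (QuoMod J I) →ₛₗ[algebraMap A R] Kf (φ.map (algebraMap A R))
      (QuoMod (J.map (algebraMap A R)) (I.map (algebraMap A R))) :=
    { toFun := fun q => ⟨fun i => c (q.1 i), by
        rw [LinearMap.mem_ker]
        funext j
        rw [hL]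
        have h5 : Lf φ (QuoMod J I) q.1 j = 0 := congrFun (LinearMap.mem_ker.1 q.2) j
        rw [h5, map_zero]
        rfl⟩
      map_add' := fun q q' => by
        apply Subtype.ext
        funext i
        exact map_add c _ _
      map_smul' := fun s q => by
        apply Subtype.ext
        funext i
        exact hc2 s _ }
  have hFc : ∀ q i, (F q).1 i = c (q.1 i) := fun _ _ => rfl
  have hle : (Ideal.ofList rs • ⊤ : Submodule A (Kf φ (QuoMod J I))) ≤ LinearMap.ker F := by
    intro q hq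
    rw [LinearMap.mem_ker]
    apply Subtype.ext
    funext i
    rw [hFc]
    refine (hc3 _).2 ?_
    exact mem_map89 ((LinearMap.proj i).comp (Kf φ (QuoMod J I)).subtype) _ hq
  have hker' : ∀ q, F q = 0 → q ∈ (Ideal.ofList rs • ⊤ : Submodule A (Kf φ (QuoMod J I))) := by
    intro q hq
    exact inj89 φ rs h4 hQ q fun i => (hc3 _).1 (congrFun (congrArg Subtype.val hq) i)
  let f := (Ideal.ofList rs • ⊤ : Submodule A (Kf φ (QuoMod J I))).liftQ F hle
  have hfm : ∀ q, f (Submodule.Quotient.mk q) = F q := fun q => Submodule.liftQ_apply _ _ _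
  have hinj : Function.Injective f := by
    rw [injective_iff_map_eq_zero]
    intro n hn
    obtain ⟨q, rfl⟩ := Submodule.Quotient.mk_surjective _ n
    rw [hfm] at hn
    exact (Submodule.Quotient.mk_eq_zero _).2 (hker' q hn)
  have hsur : Function.Surjective f := by
    intro w
    choose q hq using fun i => hc1 (w.1 i)
    have hq1 : ∀ j, Lf φ (QuoMod J I) q j ∈
        (Ideal.ofList rs • ⊤ : Submodule A (QuoMod J I)) := by
      intro j
      refine (hc3 _).1 ?_
      rw [← hL]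
      have h6 : (fun i => c (q i)) = w.1 := funext hq
      rw [h6]
      exact congrFun (LinearMap.mem_ker.1 w.2) j
    obtain ⟨q', hq', h7⟩ := lift89 φ rs h4 q hq1
    refine ⟨Submodule.Quotient.mk ⟨q', hq'⟩, ?_⟩
    rw [hfm]
    apply Subtype.ext
    funext i
    rw [hFc]
    have h8 : c (q i - q' i) = 0 := (hc3 _).2 (h7 i)
    rw [map_sub, hq, sub_eq_zero] at h8
    exact h8.symm
  let E1 : (((J : Submodule A A) →ₗ[A] QuoMod J I) ⧸
      (Ideal.ofList rs • ⊤ : Submodule A ((J : Submodule A A) →ₗ[A] QuoMod J I))) ≃ₗ[A]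
      (Kf φ (QuoMod J I) ⧸ (Ideal.ofList rs • ⊤ : Submodule A (Kf φ (QuoMod J I)))) :=
    Submodule.Quotient.equiv _ _ e1 (by
      rw [Submodule.map_smul'', Submodule.map_top, LinearEquiv.range])
  let E2 := AddEquiv.ofBijective f.toAddMonoidHom ⟨hinj, hsur⟩
  refine ⟨(E1.toAddEquiv.trans E2).trans e2.symm.toAddEquiv, fun s m => ?_⟩
  change e2.symm (f (E1 (s • m))) = algebraMap A R s • e2.symm (f (E1 m))
  rw [map_smul, f.map_smulₛₗ, map_smul]

end Pool.Helper49.DP
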