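import Mathlib
import Pool.Agent.Helper49.DP.Defs
import Pool.Agent.Helper49.DP.Grade1
import Pool.Agent.Helper49.DP.Grade2

/-!
Project DP (MP_f60bb9_ag).  Block DP-23: the converse directions of block DP-10 (Trans.lean).

* `CodepthEq.of_quot`: `A` Noetherian local, `M` finite, `rs` weakly regular on `M`, in the maximal
  ideal, codepth of `M ⧸ (rs) M` equal to `e`; then the codepth of `M` is `e`.  Let
  `DepthEq A (M ⧸ (rs) M) d`; the quotient is nontrivial, so `M` is, and `rs` is regular
  (`IsLocalRing.isRegular_iff_isWeaklyRegular_of_subset_maximalIdeal`).  `DepthEq A M (rs.length + d)`: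
  append; conversely if `rs'` is a regular sequence on `M` in `𝔪` with
  `rs'.length > rs.length + d`, then `GradeGE.quot_ofList` (after `mono_right`) gives a weakly
  regular, hence regular, sequence of length `d + 1` on the quotient, contradiction.  Dimension:
  `supportDim_add_length_eq_supportDim_of_isRegular`.
* `GradeGE.of_semilinear'`, `CodepthEq.of_semilinear'`: `R` a local `A`-algebra with surjective
  structure map, `e : M ≃+ M'`, `e (a • m) = algebraMap A R a • e m`.  Lift a sequence in `𝔪_R` to a
  sequence in `𝔪_A` (preimages of nonunits are nonunits) and use `AddEquiv.isWeaklyRegular_congr`,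
  `AddEquiv.isRegular_congr`; a sequence in `𝔪_A` maps to a sequence in `𝔪_R` (see
  Trans.lean).  Support dimensions agree (`A ⧸ Ann_A M ≃+* R ⧸ Ann_R M'`, see Trans.lean; `M'` is
  finite over `R`).
-/

namespace Pool.Helper49.DP

open RingTheory.Sequence

universe u v

theorem CodepthEq.of_quot {A : Type u} [CommRing A] [IsNoetherianRing A] [IsLocalRing A]
    {M : Type u} [AddCommGroup M] [Module A M] [Module.Finite A M] {rs : List A}
    (hrs : ∀ r ∈ rs, r ∈ IsLocalRing.maximalIdeal A) (reg : IsWeaklyRegular M rs) {e : ℕ}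
    (h : CodepthEq A (M ⧸ (Ideal.ofList rs • ⊤ : Submodule A M)) e) : CodepthEq A M e := by
  obtain ⟨d, ⟨⟨rs1, hl1, hm1, hr1⟩, hmax⟩, hdim⟩ := h
  have hnt : Nontrivial (M ⧸ (Ideal.ofList rs • ⊤ : Submodule A M)) := hr1.nontrivial
  have hM : Nontrivial M :=
    (Submodule.mkQ_surjective (Ideal.ofList rs • ⊤ : Submodule A M)).nontrivial
  have hreg : IsRegular M rs :=
    (IsLocalRing.isRegular_iff_isWeaklyRegular_of_subset_maximalIdeal hrs).2 reg
  have hmem : ∀ r ∈ rs ++ rs1, r ∈ IsLocalRing.maximalIdeal A := by
    intro r hr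
    rcases List.mem_append.1 hr with h | h
    · exact hrs r h
    · exact hm1 r h
  refine ⟨rs.length + d, ⟨⟨rs ++ rs1, by rw [List.length_append, hl1], hmem, ?_⟩, ?_⟩, ?_⟩
  · exact (IsLocalRing.isRegular_iff_isWeaklyRegular_of_subset_maximalIdeal hmem).2
      ((isWeaklyRegular_append_iff M _ _).2 ⟨reg, hr1.toIsWeaklyRegular⟩)
  · intro rs' hm' hr'
    by_contra hlt
    rw [not_le] at hlt
    have hg : GradeGE (IsLocalRing.maximalIdeal A) M rs'.length :=
      ⟨rs', rfl, hm', hr'.toIsWeaklyRegular⟩
    have hg2 : GradeGE (IsLocalRing.maximalIdeal A) M (rs.length + (d + 1)) :=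
      hg.mono_right (by omega)
    obtain ⟨rs2, hl2, hm2, hr2⟩ := GradeGE.quot_ofList le_rfl hrs reg hg2
    have h3 := hmax rs2 hm2
      ((IsLocalRing.isRegular_iff_isWeaklyRegular_of_subset_maximalIdeal hm2).2 hr2)
    omega
  · have h1 := Module.supportDim_add_length_eq_supportDim_of_isRegular rs hreg
    rw [← h1, hdim]
    push_cast
    rw [add_right_comm, add_comm (rs.length : WithBot ℕ∞) (d : WithBot ℕ∞)]

private theorem forall2_lift {A : Type u} [CommRing A] {R : Type u} [CommRing R] [Algebra A R]
    (hsurj : Function.Surjective (algebraMap A R))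
    {M : Type v} [AddCommGroup M] [Module A M]
    {M' : Type v} [AddCommGroup M'] [Module R M'] (e : M ≃+ M')
    (he : ∀ (a : A) (m : M), e (a • m) = algebraMap A R a • e m) (bs : List R) :
    List.Forall₂ (fun (r : A) (s : R) => ∀ x, e (r • x) = s • e x)
      (bs.map (Function.surjInv hsurj)) bs :=
  List.forall₂_map_left_iff.mpr <| List.forall₂_same.mpr fun s _ x => by
    rw [he, Function.surjInv_eq hsurj s]

private theorem mem_lift {A : Type u} [CommRing A] [IsLocalRing A]
    {R : Type u} [CommRing R] [IsLocalRing R] [Algebra A R]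
    (hsurj : Function.Surjective (algebraMap A R)) {bs : List R}
    (h : ∀ r ∈ bs, r ∈ IsLocalRing.maximalIdeal R) :
    ∀ r ∈ bs.map (Function.surjInv hsurj), r ∈ IsLocalRing.maximalIdeal A := by
  intro r hr
  obtain ⟨s, hs, rfl⟩ := List.mem_map.1 hr
  rw [IsLocalRing.mem_maximalIdeal, mem_nonunits_iff]
  intro hu
  have h2 := hu.map (algebraMap A R)
  rw [Function.surjInv_eq hsurj s] at h2
  exact (IsLocalRing.mem_maximalIdeal s).1 (h s hs) h2

theorem GradeGE.of_semilinear' {A : Type u} [CommRing A] [IsLocalRing A]
    {R : Type u} [CommRing R] [IsLocalRing R] [Algebra A R]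
    (hsurj : Function.Surjective (algebraMap A R))
    {M : Type v} [AddCommGroup M] [Module A M]
    {M' : Type v} [AddCommGroup M'] [Module R M'] (e : M ≃+ M')
    (he : ∀ (a : A) (m : M), e (a • m) = algebraMap A R a • e m) {g : ℕ}
    (h : GradeGE (IsLocalRing.maximalIdeal R) M' g) :
    GradeGE (IsLocalRing.maximalIdeal A) M g := by
  obtain ⟨bs, h1, h2, h3⟩ := h
  exact ⟨bs.map (Function.surjInv hsurj), by rw [List.length_map, h1], mem_lift hsurj h2,
    (e.isWeaklyRegular_congr (forall2_lift hsurj e he bs)).2 h3⟩

theorem CodepthEq.of_semilinear' {A : Type u} [CommRing A] [IsLocalRing A]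
    {R : Type u} [CommRing R] [IsLocalRing R] [Algebra A R]
    (hsurj : Function.Surjective (algebraMap A R))
    {M : Type v} [AddCommGroup M] [Module A M] [Module.Finite A M]
    {M' : Type v} [AddCommGroup M'] [Module R M'] (e : M ≃+ M')
    (he : ∀ (a : A) (m : M), e (a • m) = algebraMap A R a • e m) {c : ℕ}
    (h : CodepthEq R M' c) : CodepthEq A M c := by
  obtain ⟨d, ⟨⟨bs, h1, h2, h3⟩, hmax⟩, hdim⟩ := h
  refine ⟨d, ⟨⟨bs.map (Function.surjInv hsurj), by rw [List.length_map, h1], mem_lift hsurj h2,
    (e.isRegular_congr (forall2_lift hsurj e he bs)).2 h3⟩, ?_⟩, ?_⟩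
  · intro rs hm hr
    have hF : List.Forall₂ (fun (r : A) (s : R) => ∀ x, e (r • x) = s • e x)
        rs (rs.map (algebraMap A R)) :=
      List.forall₂_map_right_iff.mpr <| List.forall₂_same.mpr fun r _ x => he r x
    have h4 := hmax (rs.map (algebraMap A R)) ?_ ((e.isRegular_congr hF).1 hr)
    · rwa [List.length_map] at h4
    · intro s hs
      obtain ⟨r, hr, rfl⟩ := List.mem_map.1 hs
      rw [IsLocalRing.mem_maximalIdeal, mem_nonunits_iff]
      intro hu
      obtain ⟨b, hb⟩ := hsurj (↑hu.unit⁻¹ : R)
      have h5 : algebraMap A R (1 - r * b) = 0 := by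
        rw [map_sub, map_one, map_mul, hb, IsUnit.mul_val_inv, sub_self]
      have h6 : IsUnit (1 - r * b) := by
        have h7 : r * b ∈ IsLocalRing.maximalIdeal A := Ideal.mul_mem_right _ _ (hm r hr)
        by_contra h8
        have h9 : (1 - r * b) ∈ IsLocalRing.maximalIdeal A :=
          (IsLocalRing.mem_maximalIdeal _).2 h8
        have h10 : (1 : A) ∈ IsLocalRing.maximalIdeal A := by
          have := Ideal.add_mem _ h9 h7
          rwa [sub_add_cancel] at this
        exact (IsLocalRing.mem_maximalIdeal _).1 h10 isUnit_one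
      have h11 := h6.map (algebraMap A R)
      rw [h5] at h11
      exact not_isUnit_zero h11
  · have : Module.Finite R M' := by
      obtain ⟨S, hS⟩ := (Module.finite_def (R := A) (M := M)).1 inferInstance
      refine Module.finite_def.2 ?_
      classical
      refine ⟨S.image e, ?_⟩
      rw [eq_top_iff]
      intro y _
      obtain ⟨x, rfl⟩ := e.surjective y
      have hx : x ∈ Submodule.span A (S : Set M) := by
        rw [hS]
        trivial
      induction hx using Submodule.span_induction with
      | mem x hx =>
        refine Submodule.subset_span ?_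
        rw [Finset.coe_image]
        exact ⟨x, hx, rfl⟩
      | zero =>
        rw [map_zero]
        exact Submodule.zero_mem _
      | add x y _ _ ihx ihy =>
        rw [map_add]
        exact Submodule.add_mem _ (ihx trivial) (ihy trivial)
      | smul a x _ ih =>
        rw [he]
        exact Submodule.smul_mem _ _ (ih trivial)
    have hker : RingHom.ker ((Ideal.Quotient.mk (Module.annihilator R M')).comp (algebraMap A R)) =
        Module.annihilator A M := by
      ext a
      rw [RingHom.mem_ker, RingHom.comp_apply, Ideal.Quotient.eq_zero_iff_mem,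
        Module.mem_annihilator, Module.mem_annihilator]
      constructor
      · intro h m
        apply e.injective
        rw [he, h, map_zero]
      · intro h y
        obtain ⟨m, rfl⟩ := e.surjective y
        rw [← he, h, map_zero]
    have hs : Function.Surjective
        ((Ideal.Quotient.mk (Module.annihilator R M')).comp (algebraMap A R)) :=
      (Ideal.Quotient.mk_surjective).comp hsurj
    rw [← hdim, Module.supportDim_eq_ringKrullDim_quotient_annihilator,
      Module.supportDim_eq_ringKrullDim_quotient_annihilator]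
    exact ringKrullDim_eq_of_ringEquiv
      ((Ideal.quotEquivOfEq hker.symm).trans (RingHom.quotientKerEquivOfSurjective hs))

end Pool.Helper49.DP
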