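import Mathlib
import Pool.Agent.Helper49.DP.General
import Pool.Agent.Helper49.DP.Strict
import Pool.Agent.Helper49.DP.BC
import Pool.Agent.Helper49.DP.Ext
import Pool.Agent.Helper49.DP.Trans2

/-!
Project DP (MP_f60bb9_ag).  The hypotheses of `codepth_general` from the generic matrix over
the polynomial ring in its entries only.
-/

namespace Pool.Helper49.DP

open RingTheory.Sequence MvPolynomial TensorProduct

universe u

/-- `(A / I) / (rs)` is `R / I R` for `R = A / (rs)`. -/
theorem exists_quotQuot {A : Type u} [CommRing A] {R : Type u} [CommRing R] [Algebra A R]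
    {rs : List A} (hsurj : Function.Surjective (algebraMap A R))
    (hker : RingHom.ker (algebraMap A R) = Ideal.ofList rs) (I : Ideal A) :
    ∃ e : ((A ⧸ I) ⧸ (Ideal.ofList rs • ⊤ : Submodule A (A ⧸ I))) ≃+
        (R ⧸ I.map (algebraMap A R)), ∀ (a : A) m, e (a • m) = algebraMap A R a • e m := by
  have hmk : ∀ z : A, Ideal.quotientMap (I.map (algebraMap A R)) (algebraMap A R)
      Ideal.le_comap_map (Ideal.Quotient.mk I z) = Ideal.Quotient.mk _ (algebraMap A R z) :=
    fun z => Ideal.quotientMap_mk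
  let f : (A ⧸ I) →ₛₗ[algebraMap A R] (R ⧸ I.map (algebraMap A R)) :=
    { toFun := Ideal.quotientMap (I.map (algebraMap A R)) (algebraMap A R) Ideal.le_comap_map
      map_add' := map_add _
      map_smul' := by
        intro a z
        obtain ⟨z, rfl⟩ := Ideal.Quotient.mk_surjective z
        rw [← Ideal.Quotient.mk_eq_mk, ← Submodule.Quotient.mk_smul, Ideal.Quotient.mk_eq_mk,
          hmk, Ideal.Quotient.mk_eq_mk, hmk, smul_eq_mul, map_mul, map_mul]
        rfl }
  have hf : ∀ z : A, f (Ideal.Quotient.mk I z) = Ideal.Quotient.mk _ (algebraMap A R z) := hmk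
  have hle : (Ideal.ofList rs • ⊤ : Submodule A (A ⧸ I)) ≤ LinearMap.ker f := by
    rw [Submodule.smul_le]
    intro a ha z _
    rw [LinearMap.mem_ker, map_smulₛₗ]
    rw [← hker] at ha
    rw [RingHom.mem_ker.1 ha, zero_smul]
  let F := Submodule.liftQ _ f hle
  have hF : ∀ z : A, F (Submodule.Quotient.mk (Ideal.Quotient.mk I z)) =
      Ideal.Quotient.mk _ (algebraMap A R z) := hmk
  have hbij : Function.Bijective F := by
    constructor
    · rw [injective_iff_map_eq_zero]
      intro z hz
      obtain ⟨z, rfl⟩ := Submodule.Quotient.mk_surjective _ z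
      obtain ⟨z, rfl⟩ := Ideal.Quotient.mk_surjective z
      rw [hF, Ideal.Quotient.eq_zero_iff_mem] at hz
      have h2 : z ∈ I ⊔ Ideal.ofList rs := by
        have h3 : algebraMap A R z ∈ I.map (algebraMap A R) := hz
        rw [Ideal.mem_map_iff_of_surjective _ hsurj] at h3
        obtain ⟨y, hy, hyz⟩ := h3
        have h4 : z - y ∈ Ideal.ofList rs := by
          rw [← hker, RingHom.mem_ker, map_sub, hyz, sub_self]
        have h5 : z = y + (z - y) := by ring
        rw [h5]
        exact add_mem (Ideal.mem_sup_left hy) (Ideal.mem_sup_right h4)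
      obtain ⟨y, hy, w, hw, rfl⟩ := Submodule.mem_sup.1 h2
      rw [Submodule.Quotient.mk_eq_zero, map_add, Ideal.Quotient.eq_zero_iff_mem.2 hy, zero_add]
      have h6 : (Ideal.Quotient.mk I w : A ⧸ I) = w • (Ideal.Quotient.mk I 1) := by
        rw [← Ideal.Quotient.mk_eq_mk, ← Ideal.Quotient.mk_eq_mk, ← Submodule.Quotient.mk_smul,
          smul_eq_mul, mul_one]
      rw [h6]
      exact Submodule.smul_mem_smul hw trivial
    · intro w
      obtain ⟨w, rfl⟩ := Ideal.Quotient.mk_surjective w
      obtain ⟨z, rfl⟩ := hsurj w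
      exact ⟨_, hF z⟩
  refine ⟨AddEquiv.ofBijective F.toAddMonoidHom hbij, ?_⟩
  intro a z
  exact map_smulₛₗ F a z

/-- The pair module after a flat extension with a retraction. -/
theorem pair_baseChange {A B : Type u} [CommRing A] [IsNoetherianRing A] [CommRing B]
    [Algebra A B] [Module.Flat A B] {rs : List B} (ρ : B →+* A) (hsurj : Function.Surjective ρ)
    (hker : RingHom.ker ρ = Ideal.ofList rs) (hρ : ∀ z, ρ (algebraMap A B z) = z)
    (hreg : ∀ (E : Type u) [AddCommGroup E] [Module A E], IsWeaklyRegular (B ⊗[A] E) rs)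
    {t m : ℕ} (s : ℕ) (X : Matrix (Fin t) (Fin (m + 1)) A) :
    IsWeaklyRegular (PairModule s (X.map (algebraMap A B))) rs ∧
    ∃ e : (PairModule s (X.map (algebraMap A B)) ⧸
        (Ideal.ofList rs • ⊤ : Submodule B (PairModule s (X.map (algebraMap A B))))) ≃+
          PairModule s X, ∀ b z, e (b • z) = ρ b • e z := by
  obtain ⟨a, b, φ, g, hp⟩ := exists_isPres (idB s X)
  have h1 := weaklyRegular_quot rs hreg (idA s X)
  have h2 := weaklyRegular_quot rs hreg (idB s X)
  have h4 := weaklyRegular_Df rs hreg (idB_le_idA s X) φ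
  have hp' := IsPres.flat (B := B) hp
  rw [idA_map] at h1 h4
  rw [idB_map] at h2 h4 hp'
  letI : Algebra B A := ρ.toAlgebra
  have key := exists_compare_strict (A := B) (R := A) (rs := rs)
    (idB_le_idA s (X.map (algebraMap A B))) hsurj hker hp' h1 h2 h4
  have hmat : (X.map (algebraMap A B)).map (algebraMap B A) = X := by
    ext i j
    exact hρ _
  rw [idA_map, idB_map, hmat] at key
  exact key

/-- The quotients after a flat extension with a retraction. -/
theorem grade_baseChange {A B : Type u} [CommRing A] [IsLocalRing A] [CommRing B]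
    [IsLocalRing B] [Algebra A B] {rs : List B} (ρ : B →+* A) (hsurj : Function.Surjective ρ)
    (hker : RingHom.ker ρ = Ideal.ofList rs) (hρ : ∀ z, ρ (algebraMap A B z) = z)
    (hreg : ∀ (E : Type u) [AddCommGroup E] [Module A E], IsWeaklyRegular (B ⊗[A] E) rs)
    (hrs : ∀ r ∈ rs, r ∈ IsLocalRing.maximalIdeal B) (I : Ideal A) {g : ℕ}
    (h : GradeGE (IsLocalRing.maximalIdeal A) (A ⧸ I) g) :
    GradeGE (IsLocalRing.maximalIdeal B) (B ⧸ I.map (algebraMap A B)) (rs.length + g) := by
  refine GradeGE.of_quot hrs (weaklyRegular_quot rs hreg I) ?_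
  letI : Algebra B A := ρ.toAlgebra
  obtain ⟨e, he⟩ := exists_quotQuot (A := B) (R := A) (rs := rs) hsurj hker
    (I.map (algebraMap A B))
  have hI : (I.map (algebraMap A B)).map (algebraMap B A) = I := by
    rw [Ideal.map_map]
    have : (algebraMap B A).comp (algebraMap A B) = RingHom.id _ := RingHom.ext hρ
    rw [this, Ideal.map_id]
  refine GradeGE.of_semilinear' hsurj e he ?_
  rw [hI]
  exact h

/-- Depth and codepth of the pair module after a flat extension with a retraction. -/
theorem pair_data_baseChange {A B : Type u} [CommRing A] [IsNoetherianRing A] [IsLocalRing A]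
    [CommRing B] [IsNoetherianRing B] [IsLocalRing B] [Algebra A B] [Module.Flat A B]
    {rs : List B} (ρ : B →+* A) (hsurj : Function.Surjective ρ)
    (hker : RingHom.ker ρ = Ideal.ofList rs) (hρ : ∀ z, ρ (algebraMap A B z) = z)
    (hreg : ∀ (E : Type u) [AddCommGroup E] [Module A E], IsWeaklyRegular (B ⊗[A] E) rs)
    (hrs : ∀ r ∈ rs, r ∈ IsLocalRing.maximalIdeal B)
    {t m : ℕ} (s : ℕ) (X : Matrix (Fin t) (Fin (m + 1)) A) {c : ℕ}
    (hc : GradeGE (IsLocalRing.maximalIdeal A) (PairModule s X) c) {e : ℕ}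
    (h : CodepthEq A (PairModule s X) e) :
    GradeGE (IsLocalRing.maximalIdeal B) (PairModule s (X.map (algebraMap A B)))
      (rs.length + c) ∧ CodepthEq B (PairModule s (X.map (algebraMap A B))) e := by
  obtain ⟨hr, f, hf⟩ := pair_baseChange ρ hsurj hker hρ hreg s X
  letI : Algebra B A := ρ.toAlgebra
  exact ⟨GradeGE.of_quot hrs hr (GradeGE.of_semilinear' hsurj f hf hc),
    CodepthEq.of_quot hrs hr (CodepthEq.of_semilinear' hsurj f hf h)⟩

section

/-- The codepth of a general homogeneous matrix from the generic matrix. -/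
theorem codepth_general0 {k : Type u} [Field k] {t m n s : ℕ} {dg : Fin t → Fin (m + 1) → ℕ}
    (hdg : ∀ i j, 0 < dg i j) {a b c : ℕ}
    (gA : GradeGE (IsLocalRing.maximalIdeal (Loc (Fin t × Fin (m + 1)) k))
      (Loc (Fin t × Fin (m + 1)) k ⧸ idA s (genMatrix0 t m k)) a) (ha : t * (m + 1) ≤ n + a)
    (gB : GradeGE (IsLocalRing.maximalIdeal (Loc (Fin t × Fin (m + 1)) k))
      (Loc (Fin t × Fin (m + 1)) k ⧸ idB s (genMatrix0 t m k)) b) (hb : t * (m + 1) + 1 ≤ n + b)
    (gM : GradeGE (IsLocalRing.maximalIdeal (Loc (Fin t × Fin (m + 1)) k))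
      (PairModule s (genMatrix0 t m k)) c) (hc : t * (m + 1) + 2 ≤ n + c)
    {e : ℕ} (h : CodepthEq (Loc (Fin t × Fin (m + 1)) k) (PairModule s (genMatrix0 t m k)) e) :
    ∃ F : MvPolynomial (Coef n dg) k, F ≠ 0 ∧ ∀ α : Coef n dg → k, eval α F ≠ 0 →
      CodepthEq (Loc (Fin n) k) (PairModule s (formMatrix α)) e := by
  have hmat : (genMatrix0 t m k).map (extMap t m n k) = genMatrix t m n k := by
    ext i j
    exact extMap_genMatrix t m n k i j
  obtain ⟨ρ, hsurj, hker, hρ⟩ := exists_retraction t m n k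
  letI : Algebra (Loc (Fin t × Fin (m + 1)) k) (Loc ((Fin t × Fin (m + 1)) ⊕ Fin n) k) :=
    (extMap t m n k).toAlgebra
  have hflat : Module.Flat (Loc (Fin t × Fin (m + 1)) k)
    (Loc ((Fin t × Fin (m + 1)) ⊕ Fin n) k) := extMap_flat t m n k
  have gA' := grade_baseChange ρ hsurj hker hρ (fun E _ _ => extras_regular t m n k E)
    (extras_mem t m n k) _ gA
  have gB' := grade_baseChange ρ hsurj hker hρ (fun E _ _ => extras_regular t m n k E)
    (extras_mem t m n k) _ gB
  have gM' := pair_data_baseChange ρ hsurj hker hρ (fun E _ _ => extras_regular t m n k E)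
    (extras_mem t m n k) s (genMatrix0 t m k) gM h
  have hmat' : (genMatrix0 t m k).map (algebraMap (Loc (Fin t × Fin (m + 1)) k)
    (Loc ((Fin t × Fin (m + 1)) ⊕ Fin n) k)) = genMatrix t m n k := hmat
  rw [idA_map, hmat', extras_length] at gA'
  rw [idB_map, hmat', extras_length] at gB'
  rw [hmat', extras_length] at gM'
  exact codepth_general hdg (gA'.mono_right ha) (gB'.mono_right hb) (gM'.1.mono_right hc) gM'.2

end

end Pool.Helper49.DP
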