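import Mathlib
import Pool.Agent.Helper49.DP.Defs

/-!
Project DP (MP_f60bb9_ag).  Block DP-25: a nonzero finite module over a Noetherian local ring has
a codepth.

The lengths of `M`-regular sequences in `𝔪` are bounded by the natural number `dim M`: `supportDim A M` is a
natural number (not `⊥` since `M` is not zero, not `⊤` since it is `≤ ringKrullDim A`, finite for
a Noetherian local ring: `FiniteRingKrullDim`), and
`Module.supportDim_add_length_eq_supportDim_of_isRegular`, where the quotient is nontrivial, so its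
support dimension is `≥ 0`.  Take a regular sequence of maximal length `d` (the empty sequence is
regular as `M` is not zero: `IsRegular.nil`), and `e = dim M - d`.
-/

namespace Pool.Helper49.DP

universe u v

theorem exists_codepth {A : Type u} [CommRing A] [IsNoetherianRing A] [IsLocalRing A]
    {M : Type v} [AddCommGroup M] [Module A M] [Module.Finite A M] [Nontrivial M] :
    ∃ e : ℕ, CodepthEq A M e := by
  obtain ⟨n, hn⟩ : ∃ n : ℕ, Module.supportDim A M = ((n : ℕ) : WithBot ℕ∞) := by
    obtain ⟨a, ha⟩ := WithBot.ne_bot_iff_exists.1 (Module.supportDim_ne_bot_of_nontrivial A M)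
    have htop : a ≠ ⊤ := by
      rintro rfl
      have h1 : Module.supportDim A M < ⊤ :=
        (Module.supportDim_le_ringKrullDim A M).trans_lt ringKrullDim_lt_top
      rw [← ha] at h1
      exact absurd h1 (by simp)
    obtain ⟨n, rfl⟩ := ENat.ne_top_iff_exists.1 htop
    exact ⟨n, ha.symm⟩
  have hb : ∀ rs : List A, RingTheory.Sequence.IsRegular M rs → rs.length ≤ n := by
    intro rs hreg
    have h1 := Module.supportDim_add_length_eq_supportDim_of_isRegular rs hreg
    have h2 : Nontrivial (M ⧸ Ideal.ofList rs • (⊤ : Submodule A M)) :=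
      hreg.quot_ofList_smul_nontrivial ⊤
    obtain ⟨a, ha⟩ := WithBot.ne_bot_iff_exists.1 (Module.supportDim_ne_bot_of_nontrivial A
      (M ⧸ Ideal.ofList rs • (⊤ : Submodule A M)))
    rw [← ha, hn] at h1
    have h3 : a + ((rs.length : ℕ) : ℕ∞) = ((n : ℕ) : ℕ∞) := by exact_mod_cast h1
    have h4 : ((rs.length : ℕ) : ℕ∞) ≤ ((n : ℕ) : ℕ∞) := by
      rw [← h3]
      exact le_add_self
    exact_mod_cast h4
  let S : Set ℕ := {d | ∃ rs : List A, rs.length = d ∧
    (∀ r ∈ rs, r ∈ IsLocalRing.maximalIdeal A) ∧ RingTheory.Sequence.IsRegular M rs}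
  have hne : S.Nonempty := ⟨0, [], rfl, by simp, RingTheory.Sequence.IsRegular.nil A M⟩
  have hbd : BddAbove S := ⟨n, by rintro d ⟨rs, rfl, -, h⟩; exact hb rs h⟩
  obtain ⟨rs, h1, h2, h3⟩ := Nat.sSup_mem hne hbd
  have hle : sSup S ≤ n := by
    rw [← h1]
    exact hb rs h3
  refine ⟨n - sSup S, sSup S, ⟨⟨rs, h1, h2, h3⟩, fun rs' h4 h5 => ?_⟩, ?_⟩
  · exact le_csSup hbd ⟨rs', rfl, h4, h5⟩
  · rw [hn, Nat.add_sub_cancel' hle]

end Pool.Helper49.DP
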