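import Mathlib
import Pool.Agent.Helper49.DP.Base
import Pool.Agent.Helper49.HE.Main

/-!
Project DP (MP_f60bb9_ag).  The codepth of the general determinantal pair from the codepth of the
generic one, with no other hypothesis (the depths of the generic determinantal rings come from
project HE).
-/

namespace Pool.Helper49.DP

open RingTheory.Sequence MvPolynomial

universe u

/-- A nonzero module `Hom (J, I / J)` contains `A / J` when `J` is prime. -/
theorem exists_injective_quot {A : Type u} [CommRing A] {J I : Ideal A} (hJ : J.IsPrime)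
    [Nontrivial ((J : Submodule A A) →ₗ[A] QuoMod J I)] :
    ∃ f : (A ⧸ J) →ₗ[A] ((J : Submodule A A) →ₗ[A] QuoMod J I), Function.Injective f := by
  obtain ⟨φ, hφ⟩ := exists_ne (0 : (J : Submodule A A) →ₗ[A] QuoMod J I)
  have hker : ∀ a : A, a • φ = 0 ↔ a ∈ J := by
    intro a
    constructor
    · intro h
      have h1 : ∃ x, φ x ≠ 0 := by
        by_contra hcon
        push Not at hcon
        exact hφ (LinearMap.ext hcon)
      obtain ⟨x, hx⟩ := h1
      obtain ⟨y, hy⟩ := Submodule.Quotient.mk_surjective _ (φ x)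
      have h2 : a • φ x = 0 := by
        have := LinearMap.congr_fun h x
        simpa using this
      rw [← hy] at hx h2
      rw [← Submodule.Quotient.mk_smul, Submodule.Quotient.mk_eq_zero] at h2
      have h3 : a * (y : A) ∈ J := h2
      have h4 : (y : A) ∉ J := fun h5 => hx ((Submodule.Quotient.mk_eq_zero _).2 h5)
      exact (hJ.mem_or_mem h3).resolve_right h4
    · intro ha
      refine LinearMap.ext fun x => ?_
      obtain ⟨y, hy⟩ := Submodule.Quotient.mk_surjective _ (φ x)
      rw [LinearMap.smul_apply, LinearMap.zero_apply, ← hy, ← Submodule.Quotient.mk_smul,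
        Submodule.Quotient.mk_eq_zero]
      exact J.mul_mem_right (y : A) ha
  have hle : J ≤ LinearMap.ker (LinearMap.toSpanSingleton A
      ((J : Submodule A A) →ₗ[A] QuoMod J I) φ) := by
    intro a ha
    rw [LinearMap.mem_ker, LinearMap.toSpanSingleton_apply]
    exact (hker a).2 ha
  refine ⟨Submodule.liftQ J _ hle, ?_⟩
  rw [injective_iff_map_eq_zero]
  intro z hz
  obtain ⟨z, rfl⟩ := Submodule.Quotient.mk_surjective _ z
  rw [Submodule.liftQ_apply, LinearMap.toSpanSingleton_apply] at hz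
  exact (Submodule.Quotient.mk_eq_zero _).2 ((hker z).1 hz)

/-- The dimension of `Hom (J, I / J)` is at least the depth of `A / J`. -/
theorem le_supportDim {A : Type u} [CommRing A] [IsNoetherianRing A] [IsLocalRing A]
    {J I : Ideal A} (hJ : J.IsPrime) [Nontrivial ((J : Submodule A A) →ₗ[A] QuoMod J I)]
    {g : ℕ} (h : GradeGE (IsLocalRing.maximalIdeal A) (A ⧸ J) g) :
    ((g : ℕ) : WithBot ℕ∞) ≤
      Module.supportDim A ((J : Submodule A A) →ₗ[A] QuoMod J I) := by
  obtain ⟨f, hf⟩ := exists_injective_quot (I := I) hJ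
  refine le_trans ?_ (Module.supportDim_le_of_injective f hf)
  obtain ⟨rs, h1, h2, h3⟩ := h
  have hnt : Nontrivial (A ⧸ J) := Ideal.Quotient.nontrivial_iff.2 hJ.ne_top
  have hreg : IsRegular (A ⧸ J) rs :=
    (IsLocalRing.isRegular_iff_isWeaklyRegular_of_subset_maximalIdeal h2).2 h3
  have hdim := Module.supportDim_add_length_eq_supportDim_of_isRegular rs hreg
  rw [← hdim, h1]
  have hnt2 : Nontrivial ((A ⧸ J) ⧸ (Ideal.ofList rs • ⊤ : Submodule A (A ⧸ J))) :=
    Submodule.Quotient.nontrivial_iff.2 hreg.top_ne_smul.symm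
  have h0 : (0 : WithBot ℕ∞) ≤ Module.supportDim A
      ((A ⧸ J) ⧸ (Ideal.ofList rs • ⊤ : Submodule A (A ⧸ J))) := by
    have := Module.supportDim_ne_bot_of_nontrivial A
      ((A ⧸ J) ⧸ (Ideal.ofList rs • ⊤ : Submodule A (A ⧸ J)))
    rcases hd : Module.supportDim A
      ((A ⧸ J) ⧸ (Ideal.ofList rs • ⊤ : Submodule A (A ⧸ J))) with _ | d
    · exact absurd hd this
    · exact WithBot.coe_le_coe.2 bot_le
  calc ((g : ℕ) : WithBot ℕ∞) = 0 + (g : ℕ) := by rw [zero_add]
    _ ≤ _ := add_le_add_left h0 _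

/-- The codepth of the general determinantal pair is that of the generic one. -/
theorem codepth_eq_generic {k : Type u} [Field k] {t m r s n e : ℕ}
    {dg : Fin t → Fin (m + 1) → ℕ} (hs : 0 < s) (hr : 0 < r) (hrs : r + s = t + 1)
    (hsm : s ≤ m) (hdg : ∀ i j, 0 < dg i j) (hn : r * (m + 2 - s) ≤ n) (hn' : r * (m + 1 - s) + e + 2 ≤ n)
    (h : CodepthEq (Loc (Fin t × Fin (m + 1)) k) (PairModule s (genMatrix0 t m k)) e) :
    ∃ F : MvPolynomial (Coef n dg) k, F ≠ 0 ∧ ∀ α : Coef n dg → k, eval α F ≠ 0 →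
      CodepthEq (Loc (Fin n) k) (PairModule s (formMatrix α)) e := by
  have hfin : IsNoetherianRing (Loc (Fin t × Fin (m + 1)) k) := isNoetherianRing_loc _ k
  have gA := HE.grade_idA k (t := t) (m := m) hs (by omega) (by omega)
  have gB := HE.grade_idB k (t := t) (m := m) hs (by omega) hsm
  have hprime := HE.isPrime_idB k (t := t) (m := m) hs (by omega) hsm
  have h' := h
  obtain ⟨d, ⟨⟨rs, h1, h2, h3⟩, h4⟩, h5⟩ := h'
  have hnt : Nontrivial (PairModule s (genMatrix0 t m k)) := h3.nontrivial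
  have hdim : (((s - 1) * t + (m - (s - 1)) * (s - 1) + t : ℕ) : WithBot ℕ∞) ≤
      Module.supportDim (Loc (Fin t × Fin (m + 1)) k) (PairModule s (genMatrix0 t m k)) :=
    le_supportDim (J := idB s (genMatrix0 t m k)) (I := idA s (genMatrix0 t m k)) hprime gB
  rw [h5] at hdim
  have hdim' : (s - 1) * t + (m - (s - 1)) * (s - 1) + t ≤ d + e := by
    exact_mod_cast hdim
  obtain ⟨u, rfl⟩ : ∃ u, s = u + 1 := ⟨s - 1, by omega⟩
  obtain ⟨w, rfl⟩ : ∃ w, m = u + w := ⟨m - u, by omega⟩
  obtain rfl : t = r + u := by omega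
  simp only [Nat.add_sub_cancel] at hdim' gA gB
  have e1 : u + w + 2 - (u + 1) = w + 1 := by omega
  have e2 : u + w + 1 - (u + 1) = w := by omega
  have e3 : u + w - u = w := by omega
  have e4 : u + w + 1 - u = w + 1 := by omega
  rw [e1] at hn
  rw [e2] at hn'
  rw [e3] at hdim'
  refine codepth_general0 hdg (s := u + 1) gA ?_ gB ?_ (c := d) ⟨rs, h1, h2, h3.toIsWeaklyRegular⟩
    ?_ h
  · rw [e4]; nlinarith
  · rw [e3]; nlinarith
  · nlinarith

end Pool.Helper49.DP
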