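import Mathlib
import Pool.Agent.Helper49.DP.RingDefs
import Pool.Agent.Helper49.DP.Ext
import Pool.Agent.Helper49.DP.Minor

/-!
Project DP (MP_f60bb9_ag).  Block DP-26: for the generic matrix `I_B ≠ 0` and `I_B ≠ I_A`.

Let `F` be the fraction field of the polynomial ring `k[ε]` (`FractionRing (Polynomial k)` or `RatFunc k`).
For a matrix `X₀` over `k` there is a ring homomorphism `Ψ : Loc σ k → F` (`σ = Fin t × Fin (m + 1)`) with
`Ψ (X p) = ε * X₀ p`: the map `MvPolynomial σ k → k[ε]`, `X p ↦ ε * X₀ p` (`aeval`) sends a polynomial with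
nonzero constant term to a polynomial with the same constant term (evaluate at `ε = 0`), so to a
nonzero element; extend to the localisation (`IsLocalization.lift`).
So `exists_eval`: for every `X₀` there are a field `F`, `ε ≠ 0` in `F`, a map `k →+* F` and `Ψ` with
`Ψ (genMatrix0 i j) = ε * X₀ i j`.
* `idB_ne_bot`: `X₀ i j = 1` if `(i : ℕ) = (j : ℕ) < s`, otherwise `0`.  The minor with the first `s` rows and columns
  (all `< m`, since `s ≤ m`) goes to `ε ^ s ≠ 0`.
* `idB_lt_idA`: `X₀ i j = 1` if `(i : ℕ) = (j : ℕ) < s - 1`, or `i = s - 1` and `j = m` (the last column);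
  otherwise `0`.  The minor of the rows `0..s-1` and the columns `0..s-2, m` goes to `ε ^ s ≠ 0`, and `idB` goes to `0`:
  a minor of size `s` of the first `m` columns of `X₀` is zero, since only `s - 1` rows of this matrix are
  not zero (rows `≥ s - 1` are zero; `f : Fin s → Fin t` is not injective or takes a value `≥ s - 1`).
-/

namespace Pool.Helper49.DP

open MvPolynomial

universe u

theorem exists_eval {k : Type u} [Field k] {t m : ℕ} (X₀ : Matrix (Fin t) (Fin (m + 1)) k) :
    ∃ (F : Type u) (_ : Field F) (ε : F) (ι : k →+* F) (Ψ : Loc (Fin t × Fin (m + 1)) k →+* F),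
      ε ≠ 0 ∧ ∀ i j, Ψ (genMatrix0 t m k i j) = ε * ι (X₀ i j) := by
  let φ : MvPolynomial (Fin t × Fin (m + 1)) k →+* Polynomial k :=
    eval₂Hom (Polynomial.C) (fun p => Polynomial.X * Polynomial.C (X₀ p.1 p.2))
  let g : MvPolynomial (Fin t × Fin (m + 1)) k →+* FractionRing (Polynomial k) :=
    (algebraMap (Polynomial k) (FractionRing (Polynomial k))).comp φ
  have h0 : (Polynomial.evalRingHom (0 : k)).comp φ =
      (constantCoeff : MvPolynomial (Fin t × Fin (m + 1)) k →+* k) := by
    apply MvPolynomial.ringHom_ext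
    · intro r
      simp [φ]
    · intro p
      simp [φ]
  have hg : ∀ y : (irr (Fin t × Fin (m + 1)) k).primeCompl, IsUnit (g y) := by
    intro y
    rw [isUnit_iff_ne_zero]
    intro hy
    have h1 : φ y = 0 := by
      apply IsFractionRing.injective (Polynomial k) (FractionRing (Polynomial k))
      rw [map_zero]
      exact hy
    apply y.2
    change (y : MvPolynomial (Fin t × Fin (m + 1)) k) ∈ irr (Fin t × Fin (m + 1)) k
    change (constantCoeff : MvPolynomial (Fin t × Fin (m + 1)) k →+* k) y = 0
    rw [← h0, RingHom.comp_apply, h1, map_zero]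
  refine ⟨FractionRing (Polynomial k), inferInstance,
    algebraMap (Polynomial k) (FractionRing (Polynomial k)) Polynomial.X,
    (algebraMap (Polynomial k) (FractionRing (Polynomial k))).comp Polynomial.C,
    IsLocalization.lift (M := (irr (Fin t × Fin (m + 1)) k).primeCompl) (g := g) hg, ?_, ?_⟩
  · intro h
    have := (map_eq_zero_iff _
      (IsFractionRing.injective (Polynomial k) (FractionRing (Polynomial k)))).mp h
    exact Polynomial.X_ne_zero this
  · intro i j
    unfold genMatrix0
    rw [IsLocalization.lift_eq]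
    simp [g, φ]
    ring

private theorem psi_det92 {S F : Type u} [CommRing S] [CommRing F] (Ψ : S →+* F) {p q s : ℕ}
    (G : Matrix (Fin p) (Fin q) S) (f : Fin s → Fin p) (h : Fin s → Fin q) (ε : F)
    (hh : ∀ a b, Ψ (G (f a) (h b)) = if a = b then ε else 0) :
    Ψ (G.submatrix f h).det = ε ^ s := by
  rw [RingHom.map_det]
  have : Ψ.mapMatrix (G.submatrix f h) = ε • (1 : Matrix (Fin s) (Fin s) F) := by
    ext a b
    rw [RingHom.mapMatrix_apply, Matrix.map_apply, Matrix.submatrix_apply, hh,
      Matrix.smul_apply, Matrix.one_apply]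
    split_ifs <;> simp
  rw [this, Matrix.det_smul, Matrix.det_one, mul_one, Fintype.card_fin]

theorem idB_ne_bot (k : Type u) [Field k] {t m s : ℕ} (hst : s ≤ t) (hsm : s ≤ m) :
    idB s (genMatrix0 t m k) ≠ ⊥ := by
  intro hbot
  obtain ⟨F, _, ε, ι, Ψ, hε, hΨ⟩ := exists_eval (k := k) (t := t) (m := m)
    (fun i j => if (i : ℕ) = (j : ℕ) then 1 else 0)
  have h1 : (((genMatrix0 t m k).submatrix id Fin.castSucc).submatrix (Fin.castLE hst)
      (Fin.castLE hsm)).det ∈ idB s (genMatrix0 t m k) :=
    Ideal.subset_span ⟨(Fin.castLE hst, Fin.castLE hsm), rfl⟩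
  rw [hbot, Ideal.mem_bot] at h1
  have h2 := psi_det92 Ψ ((genMatrix0 t m k).submatrix id Fin.castSucc) (Fin.castLE hst)
    (Fin.castLE hsm) ε (by
      intro a b
      rw [Matrix.submatrix_apply, hΨ]
      by_cases hab : a = b
      · subst hab
        simp
      · have : ¬ (a : ℕ) = (b : ℕ) := fun h => hab (Fin.ext h)
        simp [hab, this])
  rw [h1, map_zero] at h2
  exact pow_ne_zero s hε h2.symm

theorem idB_lt_idA (k : Type u) [Field k] {t m s : ℕ} (hs : 0 < s) (hst : s ≤ t)
    (hsm : s ≤ m) : idB s (genMatrix0 t m k) < idA s (genMatrix0 t m k) := by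
  refine lt_of_le_not_ge (idB_le_idA s _) fun hle => ?_
  obtain ⟨F, _, ε, ι, Ψ, hε, hΨ⟩ := exists_eval (k := k) (t := t) (m := m)
    (fun i j => if ((i : ℕ) = (j : ℕ) ∧ (i : ℕ) < s - 1) ∨ ((i : ℕ) = s - 1 ∧ (j : ℕ) = m)
      then 1 else 0)
  -- the image of `idB` is zero
  have hB : (idB s (genMatrix0 t m k)).map Ψ = ⊥ := by
    rw [idB_map, idB, minorIdeal, Ideal.span_eq_bot]
    rintro _ ⟨⟨f, g⟩, rfl⟩
    by_cases hf : Function.Injective f
    · have hex : ∃ a, s - 1 ≤ (f a : ℕ) := by
        by_contra hno
        push Not at hno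
        let f' : Fin s → Fin (s - 1) := fun a => ⟨f a, hno a⟩
        have hf' : Function.Injective f' := fun a b hab => by
          apply hf
          apply Fin.ext
          have h : (f' a : ℕ) = (f' b : ℕ) := by rw [hab]
          exact h
        have := Fintype.card_le_of_injective f' hf'
        simp only [Fintype.card_fin] at this
        omega
      obtain ⟨a, ha⟩ := hex
      refine Matrix.det_eq_zero_of_row_eq_zero a fun b => ?_
      simp only [Matrix.submatrix_apply, Matrix.map_apply, id]
      rw [hΨ]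
      have hb : ¬ ((Fin.castSucc (g b) : Fin (m + 1)) : ℕ) = m := by
        have := (g b).isLt
        simp only [Fin.val_castSucc]
        omega
      have ha' : ¬ (f a : ℕ) < s - 1 := by omega
      simp only [ha', hb, and_false, or_self, if_false, map_zero, mul_zero]
    · have hex : ∃ a b, f a = f b ∧ a ≠ b := by
        by_contra hno
        push Not at hno
        exact hf fun a b hab => hno a b hab
      obtain ⟨a, b, hab, hne⟩ := hex
      refine Matrix.det_zero_of_row_eq hne ?_
      funext c
      simp only [Matrix.submatrix_apply, hab]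
  have h1 : ((genMatrix0 t m k).submatrix (Fin.castLE hst)
      (fun b : Fin s => if (b : ℕ) = s - 1 then Fin.last m else
        ⟨b, by omega⟩)).det ∈ idA s (genMatrix0 t m k) :=
    Ideal.subset_span ⟨(Fin.castLE hst, _), rfl⟩
  have h2 := Ideal.mem_map_of_mem Ψ (hle h1)
  rw [hB, Ideal.mem_bot] at h2
  have h3 := psi_det92 Ψ (genMatrix0 t m k) (Fin.castLE hst)
    (fun b : Fin s => if (b : ℕ) = s - 1 then Fin.last m else ⟨b, by omega⟩) ε (by
      intro a b
      rw [hΨ]
      have ha := a.isLt
      have hb := b.isLt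
      have key : (((Fin.castLE hst a : Fin t) : ℕ) =
          (((if (b : ℕ) = s - 1 then Fin.last m else ⟨b, by omega⟩ : Fin (m + 1))) : ℕ) ∧
            ((Fin.castLE hst a : Fin t) : ℕ) < s - 1 ∨
          ((Fin.castLE hst a : Fin t) : ℕ) = s - 1 ∧
            (((if (b : ℕ) = s - 1 then Fin.last m else ⟨b, by omega⟩ : Fin (m + 1))) : ℕ) = m) ↔
          a = b := by
        rw [Fin.ext_iff, Fin.val_castLE]
        by_cases hb' : (b : ℕ) = s - 1
        · rw [if_pos hb', Fin.val_last]
          omega
        · rw [if_neg hb']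
          simp only
          omega
      simp only [key]
      split_ifs <;> simp)
  rw [h2] at h3
  exact pow_ne_zero s hε h3.symm

end Pool.Helper49.DP
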