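import Mathlib
import Pool.Agent.Helper49.DP.Defs

/-!
Project DP (MP_f60bb9_ag).  Block DP-24: `Hom (J, I / J)` is not zero.

`A` Noetherian domain, `J ≠ 0` prime, `J < I`.  Let `A_J` be the localisation at `J`
(`Localization.AtPrime J`), `𝔫 = J A_J` its maximal ideal, finitely generated and not zero, so `𝔫 ≠ 𝔫 ^ 2`
by Nakayama; there is a nonzero linear form `λ : 𝔫 → κ`, `κ = A_J ⧸ 𝔫` (the vector space `𝔫 / 𝔫 ^ 2 ≠ 0` has
a nonzero linear form: `IsLocalRing.CotangentSpace`, `exists_dual_forall_apply_ne_zero` style lemmas).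
`J → 𝔫 → κ` is `A`-linear and not zero, since `J` generates `𝔫` over `A_J`.  `κ` is the fraction field of `A ⧸ J`
(`IsFractionRing (A ⧸ J) (J.ResidueField)`); `J` is finitely generated, so a common denominator
`d ∉ J` of the images of generators gives a nonzero `A`-linear map `J → A ⧸ J`, `x ↦ d λ(x)`.  Multiply by
`y ∈ I ∖ J`: a nonzero `A`-linear map `J → A ⧸ J` with values in `I / J ⊆ A ⧸ J`, that is, in `QuoMod J I`
(`QuoMod J I = I ⧸ (J ∩ I)` injects in `A ⧸ J`).
Concretely the last step: `A ⧸ J → QuoMod J I`, `a ↦ a • [y]`, is well defined and injective (`J` prime,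
`y ∉ J`); compose.
-/

namespace Pool.Helper49.DP

universe u

open IsLocalRing

/-- a nonzero linear form on the maximal ideal of a local noetherian ring which is not a field -/
private theorem exists_form63 {R : Type u} [CommRing R] [IsNoetherianRing R] [IsLocalRing R]
    (hne : maximalIdeal R ≠ ⊥) :
    ∃ ρ : (maximalIdeal R : Submodule R R) →ₗ[R] ResidueField R, ρ ≠ 0 := by
  have hnf : ¬ IsField R := by
    intro hf
    exact hne (isField_iff_maximalIdeal_eq.mp hf)
  have hnt : Nontrivial (CotangentSpace R) := by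
    by_contra h
    rw [not_nontrivial_iff_subsingleton] at h
    have h0 : Module.finrank (ResidueField R) (CotangentSpace R) = 0 :=
      Module.finrank_zero_of_subsingleton
    exact hnf (finrank_cotangentSpace_eq_zero_iff.mp h0)
  obtain ⟨v, hv⟩ := exists_ne (0 : CotangentSpace R)
  have : ∃ φ : Module.Dual (ResidueField R) (CotangentSpace R), φ v ≠ 0 := by
    by_contra h
    push Not at h
    exact hv ((Module.forall_dual_apply_eq_zero_iff (ResidueField R) v).mp h)
  obtain ⟨φ, hφ⟩ := this
  obtain ⟨m, hm⟩ := (maximalIdeal R).toCotangent_surjective v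
  refine ⟨(φ.restrictScalars R).comp (maximalIdeal R).toCotangent, fun h => ?_⟩
  have h1 := LinearMap.congr_fun h m
  simp only [LinearMap.comp_apply, LinearMap.zero_apply] at h1
  rw [hm] at h1
  exact hφ h1

/-- a nonzero map from a nonzero prime to its residue field -/
private theorem exists_res63 {A : Type u} [CommRing A] [IsNoetherianRing A] [IsDomain A]
    (J : Ideal A) [J.IsPrime] (hJ0 : J ≠ ⊥) :
    ∃ ψ : (J : Submodule A A) →ₗ[A] J.ResidueField, ψ ≠ 0 := by
  have : IsNoetherianRing (Localization.AtPrime J) :=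
    IsLocalization.isNoetherianRing J.primeCompl (Localization.AtPrime J) inferInstance
  have hmap : J.map (algebraMap A (Localization.AtPrime J)) =
      maximalIdeal (Localization.AtPrime J) := Localization.AtPrime.map_eq_maximalIdeal
  have hinj : Function.Injective (algebraMap A (Localization.AtPrime J)) :=
    IsLocalization.injective (M := J.primeCompl) (Localization.AtPrime J)
      J.primeCompl_le_nonZeroDivisors
  have hne : maximalIdeal (Localization.AtPrime J) ≠ ⊥ := by
    rw [← hmap]
    intro h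
    exact hJ0 ((Ideal.map_eq_bot_iff_of_injective hinj).mp h)
  obtain ⟨ρ, hρ⟩ := exists_form63 hne
  have hmem : ∀ x : (J : Submodule A A), algebraMap A (Localization.AtPrime J) (x : A) ∈
      maximalIdeal (Localization.AtPrime J) := fun x => by
    rw [← hmap]
    exact Ideal.mem_map_of_mem _ x.2
  let ψ : (J : Submodule A A) →ₗ[A] J.ResidueField :=
    { toFun := fun x => ρ ⟨algebraMap A (Localization.AtPrime J) (x : A), hmem x⟩
      map_add' := by
        intro x y
        rw [← map_add]
        congr 1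
        ext
        simp
      map_smul' := by
        intro c x
        have : (⟨algebraMap A (Localization.AtPrime J) ((c • x : (J : Submodule A A)) : A),
            hmem (c • x)⟩ : (maximalIdeal (Localization.AtPrime J) : Submodule _ _)) =
            (algebraMap A (Localization.AtPrime J) c) •
              ⟨algebraMap A (Localization.AtPrime J) (x : A), hmem x⟩ := by
          ext
          simp [Algebra.smul_def]
        rw [this, map_smul, algebraMap_smul]
        rfl }
  refine ⟨ψ, fun hψ => hρ ?_⟩
  have hle : maximalIdeal (Localization.AtPrime J) ≤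
      (LinearMap.ker ρ).map (Submodule.subtype _) := by
    refine hmap.symm.le.trans ?_
    rw [Ideal.map, Ideal.span_le]
    rintro _ ⟨x, hx, rfl⟩
    refine ⟨⟨algebraMap A (Localization.AtPrime J) x, hmem ⟨x, hx⟩⟩, ?_, rfl⟩
    have h1 := LinearMap.congr_fun hψ ⟨x, hx⟩
    exact h1
  ext m
  obtain ⟨m', hm', hmm⟩ := hle m.2
  have : m' = m := Subtype.ext hmm
  rw [← this]
  exact hm'

/-- a nonzero map from a nonzero prime to the quotient by it, given by representatives -/
private theorem exists_quo63 {A : Type u} [CommRing A] [IsNoetherianRing A] [IsDomain A]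
    (J : Ideal A) [J.IsPrime] (hJ0 : J ≠ ⊥) :
    ∃ ψ : (J : Submodule A A) →ₗ[A] (A ⧸ J), ψ ≠ 0 := by
  classical
  obtain ⟨ψ, hψ⟩ := exists_res63 J hJ0
  obtain ⟨T, hT⟩ := Module.Finite.fg_top (R := A) (M := (J : Submodule A A))
  obtain ⟨b, hb⟩ := IsLocalization.exist_integer_multiples_of_finset (nonZeroDivisors (A ⧸ J))
    (S := J.ResidueField) (T.image ψ)
  have hinj : Function.Injective (algebraMap (A ⧸ J) J.ResidueField) :=
    IsFractionRing.injective (A ⧸ J) J.ResidueField
  let ι : (A ⧸ J) →ₗ[A] J.ResidueField :=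
    (IsScalarTower.toAlgHom A (A ⧸ J) J.ResidueField).toLinearMap
  have hι : Function.Injective ι := hinj
  obtain ⟨d, hd⟩ := Ideal.Quotient.mk_surjective (b : A ⧸ J)
  let ψ' : (J : Submodule A A) →ₗ[A] J.ResidueField := d • ψ
  have hrange : LinearMap.range ψ' ≤ LinearMap.range ι := by
    rw [LinearMap.range_eq_map, ← hT, Submodule.map_span, Submodule.span_le]
    rintro _ ⟨x, hx, rfl⟩
    obtain ⟨c, hc⟩ := hb (ψ x) (Finset.mem_image_of_mem _ hx)
    refine ⟨c, ?_⟩
    change algebraMap (A ⧸ J) J.ResidueField c = d • ψ x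
    rw [hc, Algebra.smul_def, ← hd, Algebra.smul_def]
    rfl
  let e := LinearEquiv.ofInjective ι hι
  refine ⟨e.symm.toLinearMap.comp (ψ'.codRestrict (LinearMap.range ι)
    (fun x => hrange ⟨x, rfl⟩)), fun h => hψ ?_⟩
  ext x
  have h1 := LinearMap.congr_fun h x
  simp only [LinearMap.comp_apply, LinearMap.zero_apply, LinearEquiv.coe_coe,
    LinearEquiv.map_eq_zero_iff] at h1
  have h2 : ψ' x = 0 := congrArg Subtype.val h1
  have h3 : d • ψ x = 0 := h2
  rw [Algebra.smul_def, mul_eq_zero] at h3
  rcases h3 with h3 | h3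
  · exfalso
    have h4 : algebraMap (A ⧸ J) J.ResidueField (b : A ⧸ J) = 0 := by
      rw [← hd]
      exact h3
    have h5 : (b : A ⧸ J) = 0 := hinj (by rw [h4, map_zero])
    exact nonZeroDivisors.coe_ne_zero b h5
  · exact h3

theorem nontrivial_hom {A : Type u} [CommRing A] [IsNoetherianRing A] [IsDomain A]
    {J I : Ideal A} (hJ : J.IsPrime) (hJ0 : J ≠ ⊥) (hJI : J < I) :
    Nontrivial ((J : Submodule A A) →ₗ[A] QuoMod J I) := by
  obtain ⟨ψ, hψ⟩ := exists_quo63 J hJ0
  obtain ⟨y, hyI, hyJ⟩ := SetLike.exists_of_lt hJI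
  let μ : A →ₗ[A] QuoMod J I :=
    LinearMap.toSpanSingleton A (QuoMod J I) (Submodule.Quotient.mk ⟨y, hyI⟩)
  have hker : ∀ a : A, μ a = 0 ↔ a ∈ J := by
    intro a
    change a • (Submodule.Quotient.mk ⟨y, hyI⟩ : QuoMod J I) = 0 ↔ a ∈ J
    rw [← Submodule.Quotient.mk_smul, Submodule.Quotient.mk_eq_zero]
    change a * y ∈ J ↔ a ∈ J
    constructor
    · intro h
      exact (hJ.mem_or_mem h).resolve_right hyJ
    · intro h
      exact Ideal.mul_mem_right _ _ h
  let ν : (A ⧸ J) →ₗ[A] QuoMod J I := Submodule.liftQ J μ (fun a ha => (hker a).mpr ha)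
  have hν : Function.Injective ν := by
    rw [← LinearMap.ker_eq_bot, LinearMap.ker_eq_bot']
    intro m
    induction m using Submodule.Quotient.induction_on with
    | _ a =>
      intro h
      have h1 : μ a = 0 := h
      exact (Submodule.Quotient.mk_eq_zero J).mpr ((hker a).mp h1)
  refine ⟨⟨ν.comp ψ, 0, fun h => hψ ?_⟩⟩
  ext x
  have h1 := LinearMap.congr_fun h x
  have h2 : ν (ψ x) = ν 0 := by
    rw [map_zero]
    exact h1
  exact hν h2

end Pool.Helper49.DP
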