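import Mathlib
import Pool.Agent.Helper49.DP.Final
import Pool.Agent.Helper49.DP.NZ
import Pool.Agent.Helper49.DP.ExCod
import Pool.Agent.Helper49.DP.GenFacts

/-!
Project DP (MP_f60bb9_ag).  The generic codepth exists and is the codepth of the general pair.
-/

namespace Pool.Helper49.DP

open MvPolynomial

universe u

theorem exists_codepth_generic (k : Type u) [Field k] {t m r s : ℕ} (hs : 0 < s) (hr : 0 < r)
    (hrs : r + s = t + 1) (hsm : s ≤ m) :
    ∃ e : ℕ, CodepthEq (Loc (Fin t × Fin (m + 1)) k) (PairModule s (genMatrix0 t m k)) e := by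
  have hfin : IsNoetherianRing (Loc (Fin t × Fin (m + 1)) k) := isNoetherianRing_loc _ k
  have hdom : IsDomain (Loc (Fin t × Fin (m + 1)) k) :=
    IsLocalization.isDomain_localization (irr (Fin t × Fin (m + 1)) k).primeCompl_le_nonZeroDivisors
  have hfinJ : Module.Finite (Loc (Fin t × Fin (m + 1)) k) (idB s (genMatrix0 t m k)) :=
    inferInstance
  have hfinQ : Module.Finite (Loc (Fin t × Fin (m + 1)) k)
      (QuoMod (idB s (genMatrix0 t m k)) (idA s (genMatrix0 t m k))) := inferInstance
  have hfinM : Module.Finite (Loc (Fin t × Fin (m + 1)) k)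
    (PairModule s (genMatrix0 t m k)) := inferInstance
  have hnt : Nontrivial (PairModule s (genMatrix0 t m k)) :=
    nontrivial_hom (HE.isPrime_idB k (t := t) (m := m) hs (by omega) hsm)
      (idB_ne_bot k (by omega) hsm) (idB_lt_idA k hs (by omega) hsm)
  exact exists_codepth

end Pool.Helper49.DP
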