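import Mathlib
import Pool.Agent.Helper49.DP.Univ

/-!
Project DP (MP_f60bb9_ag).  The same notions with short terms, for the statements.
-/

namespace Pool.Helper49.DP

open MvPolynomial

universe u

section

variable (σ : Type) (k : Type u) [Field k]

/-- The polynomial ring over `k` in the variables `σ`, localised at the origin (the ideal `irr σ k` of the
polynomials with constant term `0`). -/
def PolyLoc : Type u := Localization.AtPrime (irr σ k)

noncomputable instance : CommRing (PolyLoc σ k) :=
  (inferInstance : CommRing (Localization.AtPrime (irr σ k)))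

instance : IsLocalRing (PolyLoc σ k) :=
  (inferInstance : IsLocalRing (Localization.AtPrime (irr σ k)))

/-- The localisation map. -/
noncomputable def PolyLoc.of : MvPolynomial σ k →+* PolyLoc σ k :=
  algebraMap (MvPolynomial σ k) (Localization.AtPrime (irr σ k))

end

section

variable {A : Type u} [CommRing A]

/-- For ideals `J` and `I`: the module `I / (J ∩ I)` (which is `I / J` when `J ≤ I`). -/
def QuoM (J I : Ideal A) : Type u := (I : Submodule A A) ⧸ Submodule.submoduleOf J I

noncomputable instance (J I : Ideal A) : AddCommGroup (QuoM J I) :=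
  (inferInstance : AddCommGroup ((I : Submodule A A) ⧸ Submodule.submoduleOf J I))

noncomputable instance (J I : Ideal A) : Module A (QuoM J I) :=
  (inferInstance : Module A ((I : Submodule A A) ⧸ Submodule.submoduleOf J I))

/-- The module `Hom_A (I_B, I_A / I_B)` of the determinantal pair given by `X`. -/
def PairMod {t m : ℕ} (s : ℕ) (X : Matrix (Fin t) (Fin (m + 1)) A) : Type u :=
  (idB s X : Submodule A A) →ₗ[A] QuoM (idB s X) (idA s X)

noncomputable instance {t m : ℕ} (s : ℕ) (X : Matrix (Fin t) (Fin (m + 1)) A) :
    AddCommGroup (PairMod s X) :=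
  (inferInstance : AddCommGroup ((idB s X : Submodule A A) →ₗ[A] QuoM (idB s X) (idA s X)))

noncomputable instance {t m : ℕ} (s : ℕ) (X : Matrix (Fin t) (Fin (m + 1)) A) :
    Module A (PairMod s X) :=
  (inferInstance : Module A ((idB s X : Submodule A A) →ₗ[A] QuoM (idB s X) (idA s X)))

/-- The codepth of `Hom_A (I_B, I_A / I_B)` is `e`. -/
def PairCodepth [IsLocalRing A] {t m : ℕ} (s : ℕ) (X : Matrix (Fin t) (Fin (m + 1)) A)
    (e : ℕ) : Prop := CodepthEq A (PairMod s X) e

end

/-- The generic `t × (m + 1)` matrix: its entries are the variables. -/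
noncomputable def genMat (t m : ℕ) (k : Type u) [Field k] :
    Matrix (Fin t) (Fin (m + 1)) (PolyLoc (Fin t × Fin (m + 1)) k) :=
  fun i j => PolyLoc.of (Fin t × Fin (m + 1)) k (X (i, j))

/-- The matrix of forms with the coefficients `α`. -/
noncomputable def formMat {t m n : ℕ} {dg : Fin t → Fin (m + 1) → ℕ} {k : Type u} [Field k]
    (α : Coef n dg → k) : Matrix (Fin t) (Fin (m + 1)) (PolyLoc (Fin n) k) :=
  fun i j => PolyLoc.of (Fin n) k (form α (i, j))

/-- For a general matrix of forms of degrees `dg i j` in `n` variables over `k` (all families of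
coefficients outside the zero set of a nonzero polynomial `F`) the codepth is `e`. -/
def GeneralCodepth {t m : ℕ} (k : Type u) [Field k] (s n : ℕ) (dg : Fin t → Fin (m + 1) → ℕ)
    (e : ℕ) : Prop :=
  ∃ F : MvPolynomial (Coef n dg) k, F ≠ 0 ∧
    ∀ α : Coef n dg → k, eval α F ≠ 0 → PairCodepth s (formMat α) e

theorem pairCodepth_genMat (t m s e : ℕ) (k : Type u) [Field k] :
    PairCodepth s (genMat t m k) e ↔
      CodepthEq (Loc (Fin t × Fin (m + 1)) k) (PairModule s (genMatrix0 t m k)) e := Iff.rfl

theorem pairCodepth_formMat {t m n : ℕ} {dg : Fin t → Fin (m + 1) → ℕ} {k : Type u} [Field k]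
    (s e : ℕ) (α : Coef n dg → k) :
    PairCodepth s (formMat α) e ↔
      CodepthEq (Loc (Fin n) k) (PairModule s (formMatrix α)) e := Iff.rfl

end Pool.Helper49.DP
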